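import Pool.Agent.Work.MP_11cc5c_an.Transforms

/-! Substituting an operator for the parameter in a positive family (via Bernstein
polynomials). -/

set_option linter.unusedSectionVars false

namespace Pool.Agent.Work.MP_11cc5c_an

open ContinuousLinearMap Filter
open scoped NNReal Topology unitInterval

variable {H : Type*} [NormedAddCommGroup H] [InnerProductSpace ℂ H] [CompleteSpace H]

/-- Bernstein weights on `[0, r]`. -/
noncomputable def bw (r : ℝ) (n k : ℕ) (s : ℝ) : ℝ :=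
  (n.choose k : ℝ) * (s / r) ^ k * (1 - s / r) ^ (n - k)

theorem bw_cont (r : ℝ) (n k : ℕ) : Continuous (bw r n k) := by
  unfold bw; fun_prop

theorem bw_smul_cont (c r : ℝ) (n k : ℕ) : Continuous (fun s => c • bw r n k s) := by
  unfold bw; fun_prop

theorem bw_nonneg {r : ℝ} (hr : 0 < r) (n k : ℕ) {s : ℝ} (h0 : 0 ≤ s) (h1 : s ≤ r) :
    0 ≤ bw r n k s := by
  have : s / r ≤ 1 := (div_le_one hr).2 h1
  have h2 : 0 ≤ 1 - s / r := by linarith
  have h3 : 0 ≤ s / r := by positivity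
  unfold bw; positivity

theorem bern_tendsto {S : H →L[ℂ] H} (hS : 0 ≤ S) {r : ℝ} (hr : 0 < r)
    (hSr : ∀ x ∈ spectrum ℝ S, x ≤ r) {φ : ℝ → ℝ} (hφ : ContinuousOn φ (Set.Icc 0 r)) :
    Tendsto (fun n : ℕ => ∑ k : Fin (n + 1), φ (r * ((k : ℝ) / n)) • cfc (bw r n k) S) atTop
      (𝓝 (cfc φ S)) := by
  have hspec : ∀ x ∈ spectrum ℝ S, x ∈ Set.Icc 0 r := fun x hx =>
    ⟨spectrum_nonneg_of_nonneg hS hx, hSr x hx⟩
  let f : C(I, ℝ) := ⟨fun u => φ (r * u), by
    refine hφ.comp_continuous (by fun_prop) ?_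
    rintro ⟨u, hu0, hu1⟩
    exact ⟨by positivity, by simpa using mul_le_mul_of_nonneg_left hu1 hr.le⟩⟩
  have hlim := bernsteinApproximation_uniform f
  rw [Metric.tendsto_atTop] at hlim ⊢
  intro ε hε
  obtain ⟨N, hN⟩ := hlim (ε / 2) (by positivity)
  refine ⟨N, fun n hn => ?_⟩
  have h1 := hN n hn
  rw [dist_eq_norm] at h1 ⊢
  have hsum : ∑ k : Fin (n + 1), φ (r * ((k : ℝ) / n)) • cfc (bw r n k) S
      = cfc (fun s => ∑ k : Fin (n + 1), φ (r * ((k : ℝ) / n)) • bw r n k s) S := by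
    have : (fun s => ∑ k : Fin (n + 1), φ (r * ((k : ℝ) / n)) • bw r n k s)
        = ∑ k : Fin (n + 1), (fun s => φ (r * ((k : ℝ) / n)) • bw r n k s) := by
      ext s; simp
    rw [this, cfc_sum_univ (fun (k : Fin (n + 1)) s => φ (r * ((k : ℝ) / n)) • bw r n k s) S
      (fun k => (bw_smul_cont _ r n k).continuousOn)]
    refine Finset.sum_congr rfl fun k _ => ?_
    rw [cfc_smul _ _ _ (bw_cont r n k).continuousOn]
  rw [hsum, ← cfc_sub _ _ _ (by
      apply Continuous.continuousOn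
      exact continuous_finsetSum _ fun k _ => bw_smul_cont _ r n k)
      (hφ.mono hspec)]
  refine lt_of_le_of_lt (norm_cfc_le (c := ε / 2) (by positivity) fun x hx => ?_) (by linarith)
  obtain ⟨hx0, hx1⟩ := hspec x hx
  have hu0 : 0 ≤ x / r := by positivity
  have hu1 : x / r ≤ 1 := (div_le_one hr).2 hx1
  let u : I := ⟨x / r, hu0, hu1⟩
  have h2 := (ContinuousMap.norm_coe_le_norm (bernsteinApproximation n f - f) u).trans h1.le
  have h3 : (bernsteinApproximation n f - f) u
      = ∑ k : Fin (n + 1), φ (r * ((k : ℝ) / n)) • bw r n k x - φ x := by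
    rw [ContinuousMap.sub_apply, bernsteinApproximation.apply]
    congr 1
    · refine Finset.sum_congr rfl fun k _ => ?_
      rw [bernstein_apply, smul_eq_mul, smul_eq_mul, mul_comm]
      rfl
    · show φ (r * (x / r)) = φ x
      rw [mul_div_cancel₀ _ hr.ne']
  rwa [h3] at h2

/-- If `E - t^α A - t^β G + t P ≥ 0` for all `t ≥ 0` (with `α, β > 0`, `α + β = 1`), and the
coefficients commute with `S ≥ 0`, then one may substitute `S` for `t`. -/
theorem substitute {S E A G P : H →L[ℂ] H} (hS : 0 ≤ S) {α β : ℝ} (hα : 0 < α) (hβ : 0 < β)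
    (hE : Commute S E) (hA : Commute S A) (hG : Commute S G) (hP : Commute S P)
    (hpos : ∀ t : ℝ, 0 ≤ t → 0 ≤ E - (t ^ α) • A - (t ^ β) • G + t • P) :
    0 ≤ E - S ^ α * A - S ^ β * G + S * P := by
  set r : ℝ := ‖S‖ + 1 with hr
  have hr0 : 0 < r := by positivity
  have hSr : ∀ x ∈ spectrum ℝ S, x ≤ r := by
    intro x hx
    rcases subsingleton_or_nontrivial H with hs | hn
    · exfalso
      rw [spectrum.mem_iff] at hx
      exact hx (isUnit_of_subsingleton _)
    · have := spectrum.norm_le_norm_of_mem hx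
      rw [Real.norm_eq_abs] at this
      have h2 := le_abs_self x
      linarith
  have hpw : ∀ a : ℝ, 0 < a → ContinuousOn (fun x : ℝ => x ^ a) (Set.Icc 0 r) := by
    intro a ha
    apply ContinuousOn.rpow_const continuousOn_id
    intro x _; exact Or.inr ha.le
  have l1 := bern_tendsto hS hr0 hSr (φ := fun _ => 1) continuousOn_const
  have l2 := bern_tendsto hS hr0 hSr (φ := fun x => x ^ α) (hpw α hα)
  have l3 := bern_tendsto hS hr0 hSr (φ := fun x => x ^ β) (hpw β hβ)
  have l4 := bern_tendsto hS hr0 hSr (φ := fun x => x) continuousOn_id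
  rw [cfc_const_one ℝ S hS.isSelfAdjoint] at l1
  rw [← CFC.rpow_eq_cfc_real hS] at l2 l3
  rw [cfc_id' ℝ S hS.isSelfAdjoint] at l4
  have lim := (((l1.mul_const E).sub (l2.mul_const A)).sub (l3.mul_const G)).add (l4.mul_const P)
  rw [one_mul] at lim
  refine ge_of_tendsto lim (Eventually.of_forall fun n => ?_)
  have e : (∑ k : Fin (n + 1), (1 : ℝ) • cfc (bw r n k) S) * E
      - (∑ k : Fin (n + 1), ((r * ((k : ℝ) / n)) ^ α) • cfc (bw r n k) S) * A
      - (∑ k : Fin (n + 1), ((r * ((k : ℝ) / n)) ^ β) • cfc (bw r n k) S) * G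
      + (∑ k : Fin (n + 1), (r * ((k : ℝ) / n)) • cfc (bw r n k) S) * P
      = ∑ k : Fin (n + 1), cfc (bw r n k) S * (E - ((r * ((k : ℝ) / n)) ^ α) • A
        - ((r * ((k : ℝ) / n)) ^ β) • G + (r * ((k : ℝ) / n)) • P) := by
    simp only [Finset.sum_mul, ← Finset.sum_sub_distrib, ← Finset.sum_add_distrib]
    refine Finset.sum_congr rfl fun k _ => ?_
    simp only [mul_add, mul_sub, smul_mul_assoc, mul_smul_comm, one_smul]
  rw [e]
  refine Finset.sum_nonneg fun k _ => ?_
  have ht : 0 ≤ r * ((k : ℝ) / n) := by positivity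
  have hc : Commute (cfc (bw r n k) S) (E - ((r * ((k : ℝ) / n)) ^ α) • A
        - ((r * ((k : ℝ) / n)) ^ β) • G + (r * ((k : ℝ) / n)) • P) :=
    (((hE.sub_right (hA.smul_right _)).sub_right (hG.smul_right _)).add_right
      (hP.smul_right _)).cfc_real _
  refine hc.mul_nonneg ?_ (hpos _ ht)
  exact cfc_nonneg fun x hx => bw_nonneg hr0 n k (spectrum_nonneg_of_nonneg hS hx) (hSr x hx)

end Pool.Agent.Work.MP_11cc5c_an
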