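import Pool.Agent.Work.MP_11cc5c_an.Good

/-! Unital linear bijections commuting with a good transform: the bracket relation on
finite-dimensional star subalgebras, and square-zero partial isometries. -/

set_option linter.unusedSectionVars false

namespace Pool.Agent.Work.MP_11cc5c_an

open ContinuousLinearMap Filter
open scoped NNReal Topology

variable {H : Type*} [NormedAddCommGroup H] [InnerProductSpace ℂ H] [CompleteSpace H]

/-- Unital linear bijections commuting with `Λ`. -/
structure Adm (Λ : (H →L[ℂ] H) → (H →L[ℂ] H)) (e : (H →L[ℂ] H) ≃ₗ[ℂ] (H →L[ℂ] H)) : Prop where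
  comm : ∀ T, e (Λ T) = Λ (e T)
  one : e 1 = 1

theorem Adm.symm {Λ : (H →L[ℂ] H) → (H →L[ℂ] H)} {e : (H →L[ℂ] H) ≃ₗ[ℂ] (H →L[ℂ] H)}
    (h : Adm Λ e) : Adm Λ e.symm where
  comm T := by
    apply e.injective
    rw [LinearEquiv.apply_symm_apply, h.comm, LinearEquiv.apply_symm_apply]
  one := by
    apply e.injective
    rw [LinearEquiv.apply_symm_apply, h.one]

/-- A submodule which is a unital star subalgebra. -/
structure IsSub (K : Submodule ℂ (H →L[ℂ] H)) : Prop where
  one : (1 : H →L[ℂ] H) ∈ K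
  mul : ∀ a ∈ K, ∀ b ∈ K, a * b ∈ K
  star : ∀ a ∈ K, star a ∈ K

/-- The star subalgebra attached to a submodule. -/
def IsSub.toStar {K : Submodule ℂ (H →L[ℂ] H)} (hK : IsSub K) :
    StarSubalgebra ℂ (H →L[ℂ] H) where
  carrier := K
  mul_mem' := fun {a b} ha hb => hK.mul a ha b hb
  one_mem' := hK.one
  add_mem' := fun {a b} ha hb => K.add_mem ha hb
  zero_mem' := K.zero_mem
  algebraMap_mem' := fun r => by
    rw [Algebra.algebraMap_eq_smul_one]; exact K.smul_mem r hK.one
  star_mem' := fun {a} ha => hK.star a ha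

theorem span_mul_closed {s : Set (H →L[ℂ] H)}
    (h : ∀ a ∈ s, ∀ b ∈ s, a * b ∈ Submodule.span ℂ s) :
    ∀ a ∈ Submodule.span ℂ s, ∀ b ∈ Submodule.span ℂ s, a * b ∈ Submodule.span ℂ s := by
  intro a ha b hb
  induction ha using Submodule.span_induction with
  | mem x hx =>
    induction hb using Submodule.span_induction with
    | mem y hy => exact h x hx y hy
    | zero => rw [mul_zero]; exact Submodule.zero_mem _
    | add y z _ _ h1 h2 => rw [mul_add]; exact Submodule.add_mem _ h1 h2
    | smul c y _ h1 => rw [mul_smul_comm]; exact Submodule.smul_mem _ _ h1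
  | zero => rw [zero_mul]; exact Submodule.zero_mem _
  | add y z _ _ h1 h2 => rw [add_mul]; exact Submodule.add_mem _ h1 h2
  | smul c y _ h1 => rw [smul_mul_assoc]; exact Submodule.smul_mem _ _ h1

theorem span_star_closed {s : Set (H →L[ℂ] H)}
    (h : ∀ a ∈ s, star a ∈ Submodule.span ℂ s) :
    ∀ a ∈ Submodule.span ℂ s, star a ∈ Submodule.span ℂ s := by
  intro a ha
  induction ha using Submodule.span_induction with
  | mem x hx => exact h x hx
  | zero => rw [star_zero]; exact Submodule.zero_mem _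
  | add y z _ _ h1 h2 => rw [star_add]; exact Submodule.add_mem _ h1 h2
  | smul c y _ h1 => rw [star_smul]; exact Submodule.smul_mem _ _ h1

/-- The sesquilinear bracket `[X*, Y]`. -/
noncomputable def br (X Y : H →L[ℂ] H) : H →L[ℂ] H := star X * Y - Y * star X

section

variable {Λ : (H →L[ℂ] H) → (H →L[ℂ] H)} (hΛ : Good Λ)
  {e : (H →L[ℂ] H) ≃ₗ[ℂ] (H →L[ℂ] H)} (he : Adm Λ e)

include hΛ he

theorem Adm.normal {N : H →L[ℂ] H} (hN : star N * N = N * star N) :
    star (e N) * e N = e N * star (e N) := by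
  apply hΛ.normal_of_fixed
  intro t _
  have h1 : Λ (1 + t • N) = 1 + t • N := by
    apply hΛ.normal
    simp only [star_add, star_one, star_smul, mul_add, add_mul, one_mul, mul_one,
      smul_mul_assoc, mul_smul_comm, hN, star_trivial, smul_add]
    abel
  have h2 : e (1 + t • N) = 1 + t • e N := by
    rw [map_add, he.one]
    congr 1
    rw [← Complex.coe_smul, map_smul, Complex.coe_smul]
  rw [← h2, ← he.comm, h1]

theorem Adm.br_self {K : Submodule ℂ (H →L[ℂ] H)} [FiniteDimensional ℂ K] (hK : IsSub K)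
    {X : H →L[ℂ] H} (hX : X ∈ K) : e (br X X) = br (e X) (e X) := by
  obtain ⟨κ, hκ, hb⟩ := hΛ.exists_bound
  obtain ⟨C₁, t₁, hC₁, ht₁, hb₁⟩ := hb X
  obtain ⟨C₂, t₂, hC₂, ht₂, hb₂⟩ := hb (e X)
  -- bound for `e` on `K`
  obtain ⟨M, hM0, hM⟩ : ∃ M : ℝ, 0 ≤ M ∧ ∀ A ∈ K, ‖e A‖ ≤ M * ‖A‖ := by
    let f : K →L[ℂ] (H →L[ℂ] H) :=
      LinearMap.toContinuousLinearMap ((e : (H →L[ℂ] H) →ₗ[ℂ] (H →L[ℂ] H)) ∘ₗ K.subtype)
    refine ⟨‖f‖, f.opNorm_nonneg, fun A hA => ?_⟩
    exact f.le_opNorm ⟨A, hA⟩
  have hclosed : IsClosed (hK.toStar : Set (H →L[ℂ] H)) :=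
    K.closed_of_finiteDimensional
  have key : κ * ‖e (br X X) - br (e X) (e X)‖ ≤ 0 := by
    refine le_zero_of_forall_small (b := M * C₁ + C₂) (t₀ := min t₁ t₂) (lt_min ht₁ ht₂)
      fun t ht ht' => ?_
    obtain ⟨n1, h1⟩ := hb₁ t ht (ht'.trans (min_le_left _ _))
    obtain ⟨n2, h2⟩ := hb₂ t ht (ht'.trans (min_le_right _ _))
    have hmem1 : 1 + t • X ∈ K := K.add_mem hK.one (by
      rw [← Complex.coe_smul]; exact K.smul_mem _ hX)
    have hunit : IsUnit (1 + t • X) := isUnit_near (by linarith)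
    have hΛmem : Λ (1 + t • X) ∈ K := hΛ.mem hK.toStar hclosed _ hmem1 hunit
    set R := Λ (1 + t • X) - (1 + t • X) - (κ * t ^ 2) • (star X * X - X * star X) with hR
    have hRmem : R ∈ K := by
      refine K.sub_mem (K.sub_mem hΛmem hmem1) ?_
      rw [← Complex.coe_smul]
      exact K.smul_mem _ (K.sub_mem (hK.mul _ (hK.star _ hX) _ hX)
        (hK.mul _ hX _ (hK.star _ hX)))
    have h3 := hM R hRmem
    have he1 : e (1 + t • X) = 1 + t • e X := by
      rw [map_add, he.one, ← Complex.coe_smul, map_smul, Complex.coe_smul]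
    have heR : e R = Λ (1 + t • e X) - (1 + t • e X) - (κ * t ^ 2) • e (br X X) := by
      rw [hR, map_sub, map_sub, he.comm, he1]
      congr 1
      rw [← Complex.coe_smul, map_smul, Complex.coe_smul]
      rfl
    have hdiff : (κ * t ^ 2) • (e (br X X) - br (e X) (e X))
        = (Λ (1 + t • e X) - (1 + t • e X)
          - (κ * t ^ 2) • (star (e X) * e X - e X * star (e X))) - e R := by
      rw [heR, smul_sub]; simp only [br]; abel
    have h4 : κ * t ^ 2 * ‖e (br X X) - br (e X) (e X)‖ ≤ C₂ * t ^ 3 + M * (C₁ * t ^ 3) := by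
      calc κ * t ^ 2 * ‖e (br X X) - br (e X) (e X)‖
          = ‖(κ * t ^ 2) • (e (br X X) - br (e X) (e X))‖ := by
            rw [norm_smul, Real.norm_eq_abs, abs_of_pos (by positivity)]
        _ ≤ ‖Λ (1 + t • e X) - (1 + t • e X)
          - (κ * t ^ 2) • (star (e X) * e X - e X * star (e X))‖ + ‖e R‖ := by
            rw [hdiff]; exact norm_sub_le _ _
        _ ≤ C₂ * t ^ 3 + M * (C₁ * t ^ 3) := by
            refine add_le_add h2 (h3.trans ?_)
            gcongr
    have h5 : 0 < t ^ 2 := by positivity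
    have h6 : t ^ 2 * (κ * ‖e (br X X) - br (e X) (e X)‖) ≤ t ^ 2 * ((M * C₁ + C₂) * t) := by
      calc _ = κ * t ^ 2 * ‖e (br X X) - br (e X) (e X)‖ := by ring
        _ ≤ C₂ * t ^ 3 + M * (C₁ * t ^ 3) := h4
        _ = _ := by ring
    exact le_of_mul_le_mul_left h6 h5
  have h0 : ‖e (br X X) - br (e X) (e X)‖ = 0 := by
    nlinarith [norm_nonneg (e (br X X) - br (e X) (e X))]
  exact sub_eq_zero.1 (norm_eq_zero.1 h0)

theorem Adm.br {K : Submodule ℂ (H →L[ℂ] H)} [FiniteDimensional ℂ K] (hK : IsSub K)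
    {X Y : H →L[ℂ] H} (hX : X ∈ K) (hY : Y ∈ K) :
    e (MP_11cc5c_an.br X Y) = MP_11cc5c_an.br (e X) (e Y) := by
  have hpol : ∀ A B : H →L[ℂ] H, (4 : ℂ) • MP_11cc5c_an.br A B
      = MP_11cc5c_an.br (A + B) (A + B) - MP_11cc5c_an.br (-A + B) (-A + B)
        + Complex.I • MP_11cc5c_an.br (Complex.I • A + B) (Complex.I • A + B)
        - Complex.I • MP_11cc5c_an.br (-(Complex.I • A) + B) (-(Complex.I • A) + B) := by
    intro A B
    have hI : Complex.I * Complex.I = -1 := Complex.I_mul_I
    simp only [MP_11cc5c_an.br, star_add, star_neg, star_smul, mul_add, add_mul, smul_mul_assoc,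
      mul_smul_comm, smul_add, smul_sub, neg_mul, mul_neg, Complex.star_def, Complex.conj_I,
      smul_neg, neg_neg, smul_smul, neg_smul, hI, one_smul, neg_neg]
    module
  have hq := fun Z (hZ : Z ∈ K) => Adm.br_self hΛ he hK hZ
  have h1 := hq (X + Y) (K.add_mem hX hY)
  have h2 := hq (-X + Y) (K.add_mem (K.neg_mem hX) hY)
  have h3 := hq (Complex.I • X + Y) (K.add_mem (K.smul_mem _ hX) hY)
  have h4 := hq (-(Complex.I • X) + Y) (K.add_mem (K.neg_mem (K.smul_mem _ hX)) hY)
  have h5 : (4 : ℂ) • e (MP_11cc5c_an.br X Y) = (4 : ℂ) • MP_11cc5c_an.br (e X) (e Y) := by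
    rw [← map_smul, hpol X Y, hpol (e X) (e Y), map_sub, map_add, map_sub, map_smul, map_smul,
      h1, h2, h3, h4, map_add, map_add, map_add, map_add, map_neg, map_neg, map_smul]
  exact smul_right_injective _ (by norm_num : (4 : ℂ) ≠ 0) h5

/-- Square-zero elements are mapped to square-zero elements. -/
theorem Adm.sq {T : H →L[ℂ] H} (hT : T * T = 0) : e T * e T = 0 := by
  obtain ⟨θ, h1, h2⟩ := hΛ.sq
  apply h2
  rw [← he.comm, h1 T hT, map_smul]

end

/-- Square-zero partial isometries. -/
def Spi (E : H →L[ℂ] H) : Prop := E * E = 0 ∧ E * star E * E = E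

/-- The span of the five elements `1, E, E*, E*E, EE*`. -/
def spiSet (E : H →L[ℂ] H) : Set (H →L[ℂ] H) := {1, E, star E, star E * E, E * star E}

theorem spi_isSub {E : H →L[ℂ] H} (hE : Spi E) : IsSub (Submodule.span ℂ (spiSet E)) := by
  obtain ⟨h1, h2⟩ := hE
  have h3 : star E * star E = 0 := by rw [← star_mul, h1, star_zero]
  have h4 : star E * E * star E = star E := by
    have := congrArg star h2
    simpa [star_mul, mul_assoc] using this
  have m1 : (1 : H →L[ℂ] H) ∈ Submodule.span ℂ (spiSet E) :=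
    Submodule.subset_span (by simp [spiSet])
  have m2 : E ∈ Submodule.span ℂ (spiSet E) := Submodule.subset_span (by simp [spiSet])
  have m3 : star E ∈ Submodule.span ℂ (spiSet E) := Submodule.subset_span (by simp [spiSet])
  have m4 : star E * E ∈ Submodule.span ℂ (spiSet E) := Submodule.subset_span (by simp [spiSet])
  have m5 : E * star E ∈ Submodule.span ℂ (spiSet E) := Submodule.subset_span (by simp [spiSet])
  have m0 : (0 : H →L[ℂ] H) ∈ Submodule.span ℂ (spiSet E) := Submodule.zero_mem _
  have k1 : E * (star E * E) = E := by rw [← mul_assoc, h2]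
  have k2 : E * (E * star E) = 0 := by rw [← mul_assoc, h1, zero_mul]
  have k3 : star E * (star E * E) = 0 := by rw [← mul_assoc, h3, zero_mul]
  have k4 : star E * (E * star E) = star E := by rw [← mul_assoc, h4]
  refine ⟨m1, span_mul_closed ?_, span_star_closed ?_⟩
  · intro a ha b hb
    simp only [spiSet, Set.mem_insert_iff, Set.mem_singleton_iff] at ha hb
    rcases ha with rfl | rfl | rfl | rfl | rfl <;> rcases hb with rfl | rfl | rfl | rfl | rfl <;>
      (try simp only [one_mul, mul_one, h1, h3, mul_assoc, k1, k2, k3, k4, mul_zero]) <;> assumption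
  · intro a ha
    simp only [spiSet, Set.mem_insert_iff, Set.mem_singleton_iff] at ha
    rcases ha with rfl | rfl | rfl | rfl | rfl <;>
      (try simp only [star_one, star_star, star_mul]) <;> assumption

instance (E : H →L[ℂ] H) : FiniteDimensional ℂ (Submodule.span ℂ (spiSet E)) :=
  FiniteDimensional.span_of_finite ℂ (by simp [spiSet])

section

variable {Λ : (H →L[ℂ] H) → (H →L[ℂ] H)} (hΛ : Good Λ)
  {e : (H →L[ℂ] H) ≃ₗ[ℂ] (H →L[ℂ] H)} (he : Adm Λ e)

include hΛ he

theorem Adm.spi {E : H →L[ℂ] H} (hE : Spi E) : Spi (e E) ∧ e (star E) = star (e E) := by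
  have hK := spi_isSub hE
  obtain ⟨h1, h2⟩ := hE
  have hsq := Adm.sq hΛ he h1
  have h3 : star E * star E = 0 := by rw [← star_mul, h1, star_zero]
  have h4 : star E * E * star E = star E := by
    have := congrArg star h2
    simpa [star_mul, mul_assoc] using this
  have m2 : E ∈ Submodule.span ℂ (spiSet E) := Submodule.subset_span (by simp [spiSet])
  set h := MP_11cc5c_an.br E E with hh
  have mh : h ∈ Submodule.span ℂ (spiSet E) :=
    Submodule.sub_mem _ (Submodule.subset_span (by simp [spiSet]))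
      (Submodule.subset_span (by simp [spiSet]))
  have hhs : star h = h := by
    rw [hh, MP_11cc5c_an.br, star_sub, star_mul, star_mul, star_star]
  set F := e E with hF
  have hFs : star F * star F = 0 := by rw [← star_mul, hsq, star_zero]
  have eh : e h = star F * F - F * star F := Adm.br hΛ he hK m2 m2
  have ehs : star (e h) = e h := by rw [eh, star_sub, star_mul, star_mul, star_star]
  have b1 : MP_11cc5c_an.br h E = (-2 : ℂ) • E := by
    have : MP_11cc5c_an.br h E = star E * (E * E) - E * star E * E - E * star E * E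
        + E * E * star E := by
      rw [MP_11cc5c_an.br, hhs, hh, MP_11cc5c_an.br]; noncomm_ring
    rw [this, h1, h2, mul_zero, zero_mul]; module
  have b2 : MP_11cc5c_an.br E h = (-2 : ℂ) • star E := by
    have : MP_11cc5c_an.br E h = star E * star E * E - star E * E * star E - star E * E * star E
        + E * (star E * star E) := by
      rw [MP_11cc5c_an.br, hh, MP_11cc5c_an.br]; noncomm_ring
    rw [this, h3, h4, mul_zero, zero_mul]; module
  have c1 : (-2 : ℂ) • F = (-2 : ℂ) • (F * star F * F) := by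
    have h5 := Adm.br hΛ he hK mh m2
    rw [b1, map_smul, MP_11cc5c_an.br, ehs, eh] at h5
    rw [← hF] at h5
    rw [h5]
    have : (star F * F - F * star F) * F - F * (star F * F - F * star F)
        = star F * (F * F) - F * star F * F - F * star F * F + F * F * star F := by noncomm_ring
    rw [this, hsq, mul_zero, zero_mul]; module
  have c2 : F * star F * F = F :=
    (smul_right_injective _ (by norm_num : (-2 : ℂ) ≠ 0) c1).symm
  have c2' : star F * F * star F = star F := by
    have := congrArg star c2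
    simpa [star_mul, mul_assoc] using this
  refine ⟨⟨hsq, c2⟩, ?_⟩
  have h5 := Adm.br hΛ he hK m2 mh
  rw [b2, map_smul, MP_11cc5c_an.br, eh, ← hF] at h5
  have : star F * (star F * F - F * star F) - (star F * F - F * star F) * star F
      = star F * star F * F - star F * F * star F - star F * F * star F
        + F * (star F * star F) := by noncomm_ring
  rw [this, hFs, mul_zero, zero_mul, c2'] at h5
  have h6 : (-2 : ℂ) • e (star E) = (-2 : ℂ) • star F := by rw [h5]; module
  exact smul_right_injective _ (by norm_num : (-2 : ℂ) ≠ 0) h6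

end

end Pool.Agent.Work.MP_11cc5c_an
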