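import Pool.Agent.Work.MP_11cc5c_an.FixD

/-! If `T` is the only preimage of itself under the mean-Aluthge transform, then the polar part
of `T` is normal. -/

set_option linter.unusedSectionVars false

namespace Pool.Agent.Work.MP_11cc5c_an

open ContinuousLinearMap Filter
open scoped NNReal Topology

variable {H : Type*} [NormedAddCommGroup H] [InnerProductSpace ℂ H] [CompleteSpace H]

/-- The closed span of a set. -/
noncomputable abbrev cspan (s : Set H) : Submodule ℂ H := (Submodule.span ℂ s).topologicalClosure

instance (s : Set H) : CompleteSpace (cspan s) :=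
  (Submodule.isClosed_topologicalClosure _).completeSpace_coe

theorem cspan_le {s : Set H} {C : Submodule ℂ H} (hC : IsClosed (C : Set H)) (h : s ⊆ C) :
    cspan s ≤ C :=
  Submodule.topologicalClosure_minimal _ (Submodule.span_le.2 h) hC

theorem mem_cspan {s : Set H} {v : H} (h : v ∈ s) : v ∈ cspan s :=
  Submodule.le_topologicalClosure _ (Submodule.subset_span h)

theorem intertwine {s t : Set H} {A : H →L[ℂ] H} (h1 : ∀ v ∈ s, A v ∈ cspan t)
    (h2 : ∀ v ∈ t, star A v ∈ cspan s) :
    A * (cspan s).starProjection = (cspan t).starProjection * A := by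
  have k1 : ∀ v ∈ cspan s, A v ∈ cspan t := by
    have : cspan s ≤ (cspan t).comap (A : H →ₗ[ℂ] H) :=
      cspan_le ((Submodule.isClosed_topologicalClosure _).preimage A.continuous) h1
    exact this
  have k2 : ∀ v ∈ cspan t, star A v ∈ cspan s := by
    have : cspan t ≤ (cspan s).comap (star A : H →L[ℂ] H).toLinearMap :=
      cspan_le ((Submodule.isClosed_topologicalClosure _).preimage (star A).continuous) h2
    exact this
  ext x
  show A ((cspan s).starProjection x) = (cspan t).starProjection (A x)
  refine (Submodule.eq_starProjection_of_mem_orthogonal (k1 _ ?_) ?_).symm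
  · exact Submodule.starProjection_apply_mem _ x
  · rw [← map_sub, Submodule.mem_orthogonal]
    intro u hu
    rw [← inner_star_left]
    exact (Submodule.mem_orthogonal _ _).1 (Submodule.sub_starProjection_mem_orthogonal x) _
      (k2 u hu)

theorem star_starProjection (K : Submodule ℂ H) [K.HasOrthogonalProjection] :
    star K.starProjection = K.starProjection := by
  refine ContinuousLinearMap.ext fun x => ext_inner_left ℂ fun y => ?_
  rw [inner_star_right, Submodule.inner_starProjection_left_eq_right]

theorem exists_h {V : H →L[ℂ] H} (hV : star V * V * V = V) {y : H}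
    (hy1 : star V y = 0) (hy2 : (star V * V) y = y) :
    ∃ h hi : H →L[ℂ] H, h * hi = 1 ∧ hi * h = 1 ∧ star h = h ∧ h * V * h = V ∧
      (star V * V) * h = h * (star V * V) ∧ h y = (2 : ℂ) • y := by
  set P := star V * V with hP
  have hfix : ∀ n : ℕ, P ((V ^ n) y) = (V ^ n) y := by
    intro n
    cases n with
    | zero => simpa using hy2
    | succ n =>
      rw [pow_succ', mulA]
      exact congrArg (fun A : H →L[ℂ] H => A ((V ^ n) y)) hV
  have horth : ∀ a k : ℕ, inner ℂ ((V ^ a) y) ((V ^ (a + k + 1)) y) = 0 := by
    intro a k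
    induction a with
    | zero =>
      rw [zero_add, pow_succ', mulA, ← inner_star_left, pow_zero, oneA, hy1, inner_zero_left]
    | succ a ih =>
      rw [show a + 1 + k + 1 = (a + k + 1) + 1 by ring, pow_succ', pow_succ' V (a + k + 1),
        mulA, mulA, ← inner_star_right]
      have := hfix (a + k + 1)
      rw [hP, mulA] at this
      rw [this, ih]
  have horth2 : ∀ a b : ℕ, a ≠ b → inner ℂ ((V ^ a) y) ((V ^ b) y) = 0 := by
    intro a b hab
    rcases lt_or_gt_of_ne hab with h | h
    · obtain ⟨k, rfl⟩ := Nat.exists_eq_add_of_lt h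
      exact horth a k
    · obtain ⟨k, rfl⟩ := Nat.exists_eq_add_of_lt h
      exact inner_eq_zero_symm.1 (horth b k)
  set g0 : Set H := {v | ∃ n : ℕ, v = (V ^ (2 * n)) y} with hg0
  set g1 : Set H := {v | ∃ n : ℕ, v = (V ^ (2 * n + 1)) y} with hg1
  set E0 := (cspan g0).starProjection with hE0
  set E1 := (cspan g1).starProjection with hE1
  have i1 : V * E0 = E1 * V := by
    apply intertwine
    · rintro _ ⟨n, rfl⟩
      apply mem_cspan
      exact ⟨n, by rw [pow_succ', mulA]⟩
    · rintro _ ⟨n, rfl⟩
      apply mem_cspan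
      refine ⟨n, ?_⟩
      rw [pow_succ', mulA]
      exact hfix (2 * n)
  have i2 : V * E1 = E0 * V := by
    apply intertwine
    · rintro _ ⟨n, rfl⟩
      apply mem_cspan
      exact ⟨n + 1, by rw [show 2 * (n + 1) = (2 * n + 1) + 1 by ring, pow_succ' V (2 * n + 1), mulA]⟩
    · rintro _ ⟨n, rfl⟩
      cases n with
      | zero => 
        have : star V ((V ^ (2 * 0)) y) = 0 := by simpa using hy1
        rw [this]; exact Submodule.zero_mem _
      | succ n =>
        apply mem_cspan
        refine ⟨n, ?_⟩
        rw [show 2 * (n + 1) = (2 * n + 1) + 1 by ring, pow_succ' V (2 * n + 1), mulA]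
        exact hfix (2 * n + 1)
  have hPE : ∀ s : Set H, (∀ v ∈ s, P v = v) → P * (cspan s).starProjection
      = (cspan s).starProjection := by
    intro s hs
    ext x
    have : cspan s ≤ (P - 1 : H →L[ℂ] H).ker := by
      refine cspan_le (isClosed_ker _) fun v hv => ?_
      show (P - 1 : H →L[ℂ] H) v = 0
      rw [sub_apply, oneA, hs v hv, sub_self]
    have h2 := this (Submodule.starProjection_apply_mem (cspan s) x)
    have h3 : (P - 1 : H →L[ℂ] H) ((cspan s).starProjection x) = 0 := h2
    rw [sub_apply, oneA, sub_eq_zero] at h3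
    exact h3
  have hPs : star P = P := by rw [hP, star_mul, star_star]
  have p0 : P * E0 = E0 := hPE g0 (by rintro _ ⟨n, rfl⟩; exact hfix _)
  have p1 : P * E1 = E1 := hPE g1 (by rintro _ ⟨n, rfl⟩; exact hfix _)
  have s0 : star E0 = E0 := star_starProjection _
  have s1 : star E1 = E1 := star_starProjection _
  have p0' : E0 * P = E0 := by
    have := congrArg star p0
    rwa [star_mul P E0, s0, hPs] at this
  have p1' : E1 * P = E1 := by
    have := congrArg star p1
    rwa [star_mul P E1, s1, hPs] at this
  have e00 : E0 * E0 = E0 := Submodule.isIdempotentElem_starProjection _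
  have e11 : E1 * E1 = E1 := Submodule.isIdempotentElem_starProjection _
  have hle : cspan g1 ≤ (cspan g0)ᗮ := by
    refine cspan_le (Submodule.isClosed_orthogonal _) ?_
    rintro _ ⟨m, rfl⟩
    show _ ∈ (cspan g0)ᗮ
    rw [Submodule.orthogonal_closure, Submodule.mem_orthogonal]
    intro u hu
    have : Submodule.span ℂ g0 ≤ (innerSL ℂ ((V ^ (2 * m + 1)) y)).ker := by
      refine Submodule.span_le.2 ?_
      rintro _ ⟨n, rfl⟩
      show inner ℂ ((V ^ (2 * m + 1)) y) ((V ^ (2 * n)) y) = 0
      exact horth2 _ _ (by omega)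
    have h2 : inner ℂ ((V ^ (2 * m + 1)) y) u = 0 := this hu
    exact inner_eq_zero_symm.1 h2
  have e01 : E0 * E1 = 0 := by
    ext x
    show E0 (E1 x) = 0
    rw [hE0, Submodule.starProjection_apply_eq_zero_iff]
    exact hle (Submodule.starProjection_apply_mem _ x)
  have e10 : E1 * E0 = 0 := by
    have := congrArg star e01
    rwa [star_mul E0 E1, s0, s1, star_zero] at this
  have hE0y : E0 y = y := by
    rw [hE0, Submodule.starProjection_eq_self_iff]
    exact mem_cspan ⟨0, by simp⟩
  have hE1y : E1 y = 0 := by
    have := congrArg (fun A : H →L[ℂ] H => A y) e10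
    change E1 (E0 y) = 0 at this
    rwa [hE0y] at this
  refine ⟨1 + E0 - (1 / 2 : ℂ) • E1, 1 - (1 / 2 : ℂ) • E0 + E1, ?_, ?_, ?_, ?_, ?_, ?_⟩
  · simp only [mul_add, add_mul, mul_sub, sub_mul, mul_one, one_mul, smul_mul_assoc,
      mul_smul_comm, e00, e11, e01, e10, smul_zero]
    module
  · simp only [mul_add, add_mul, mul_sub, sub_mul, mul_one, one_mul, smul_mul_assoc,
      mul_smul_comm, e00, e11, e01, e10, smul_zero]
    module
  · simp only [star_sub, star_add, star_one, star_smul, s0, s1]
    norm_num
  · have e2 : V * (1 + E0 - (1 / 2 : ℂ) • E1) = (1 - (1 / 2 : ℂ) • E0 + E1) * V := by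
      simp only [mul_add, add_mul, mul_sub, sub_mul, mul_one, one_mul, smul_mul_assoc,
        mul_smul_comm, i1, i2]
      abel
    rw [mul_assoc, e2, ← mul_assoc]
    have e3 : (1 + E0 - (1 / 2 : ℂ) • E1) * (1 - (1 / 2 : ℂ) • E0 + E1) = 1 := by
      simp only [mul_add, add_mul, mul_sub, sub_mul, mul_one, one_mul, smul_mul_assoc,
        mul_smul_comm, e00, e11, e01, e10, smul_zero]
      module
    rw [e3, one_mul]
  · simp only [mul_add, add_mul, mul_sub, sub_mul, mul_one, one_mul, smul_mul_assoc,
      mul_smul_comm, p0, p1, p0', p1']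
  · show y + E0 y - (1 / 2 : ℂ) • E1 y = (2 : ℂ) • y
    rw [hE0y, hE1y, smul_zero, sub_zero, two_smul]

theorem polar_normal_of_unique {T : H →L[ℂ] H} (h : meanAluthge T = T)
    (hun : ∀ X, meanAluthge X = T → X = T) :
    polarPart T * star (polarPart T) = star (polarPart T) * polarPart T := by
  by_contra hne
  set S := CFC.abs T with hS
  set V := polarPart T with hVdef
  set Z := S ^ (1 / 2 : ℝ) with hZ
  set P := star V * V with hP
  have hSn : 0 ≤ S := CFC.abs_nonneg T
  have hZn : 0 ≤ Z := CFC.rpow_nonneg
  have hZs : star Z = Z := star_rpow S _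
  have hZZ : Z * Z = S := half_mul_half hSn
  have hYZ : Z * V * Z = aluthge (1 / 2) T := (aluthge_half T).symm
  have hPZ : P * Z = Z := supp_mul_abs_rpow T (by norm_num)
  have hZP : Z * P = Z := abs_rpow_mul_supp T (by norm_num)
  have hPV : P * V = V := fixD_PV h
  have hPs : star P = P := by rw [hP, star_mul, star_star]
  have hVVV : V * star V * V = V := polarPart_pi T
  have hPP : P * P = P := by
    calc P * P = star V * (V * star V * V) := by rw [hP]; noncomm_ring
      _ = P := by rw [hVVV]
  have hkillV : ∀ x, S x = 0 → V x = 0 := fun x hx =>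
    (polarPart_apply_eq_zero T x).2 ((abs_apply_eq_zero T x).1 hx)
  have hkillP : ∀ x, S x = 0 → P x = 0 := fun x hx => by
    rw [hP, mulA, hkillV x hx, map_zero]
  have hkerZ : ∀ x, Z x = 0 → S x = 0 := fun x hx =>
    apply_eq_zero_of_rpow hSn (by norm_num) (by norm_num) hx
  obtain ⟨u, hu⟩ : ∃ u, (P - V * star V) u ≠ 0 := by
    by_contra hcon
    push Not at hcon
    apply hne
    have : P - V * star V = 0 := by ext x; rw [hcon x]; rfl
    exact (sub_eq_zero.1 this).symm
  set y := (P - V * star V) u with hy
  have hVsP : star V * P = star V := by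
    have := congrArg star hPV
    rwa [star_mul P V, hPs] at this
  have hVsVVs : star V * (V * star V) = star V := by
    have := congrArg star hVVV
    simpa [star_mul, mul_assoc] using this
  have hy1 : star V y = 0 := by
    have : star V * (P - V * star V) = 0 := by rw [mul_sub, hVsP, hVsVVs, sub_self]
    exact congrArg (fun A : H →L[ℂ] H => A u) this
  have hy2 : P y = y := by
    have : P * (P - V * star V) = P - V * star V := by
      rw [mul_sub, hPP, ← mul_assoc, hPV]
    exact congrArg (fun A : H →L[ℂ] H => A u) this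
  obtain ⟨g, gi, hg1, hg2, hgs, hgV, hgP, hgy⟩ := exists_h hPV hy1 hy2
  set B := g * Z with hB
  set K := CFC.abs B with hK
  set U := polarPart B with hU
  have hKn : 0 ≤ K := CFC.abs_nonneg B
  have hKs : star K = K := hKn.star_eq
  have hUK : U * K = B := polarPart_mul_abs B
  have hKK : K * K = Z * g * g * Z := by
    rw [hK, CFC.abs_mul_abs, hB, star_mul g Z, hgs, hZs]; noncomm_ring
  have hUUK : star U * U * K = K := polarPart_isSupp B
  have hUUU : U * star U * U = U := polarPart_pi B
  have hkillU : ∀ x, K x = 0 → U x = 0 := fun x hx =>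
    (polarPart_apply_eq_zero B x).2 ((abs_apply_eq_zero B x).1 hx)
  have hUUP : U * star U * P = P := by
    have a1 : U * star U * B = B := by rw [← hUK, ← mul_assoc, hUUU]
    have a2 : (U * star U * g - g) * P = 0 := by
      refine cancel hZs ?_ ?_
      · rw [mul_assoc, hPZ, sub_mul, mul_assoc (U * star U), ← hB, a1, sub_self]
      · intro x hx
        rw [mulA, hkillP x (hkerZ x hx), map_zero]
    have a3 : U * star U * (g * P) = g * P := by
      have := sub_eq_zero.1 (show U * star U * g * P - g * P = 0 by rw [← sub_mul]; exact a2)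
      rw [← mul_assoc]; exact this
    have a4 : g * P * gi = P := by rw [← hgP, mul_assoc, hg1, mul_one]
    calc U * star U * P = U * star U * (g * P) * gi := by rw [mul_assoc _ (g * P), a4]
      _ = P := by rw [a3, a4]
  have hUUV : U * star U * V = V := by
    calc U * star U * V = U * star U * P * V := by rw [mul_assoc _ P V, hPV]
      _ = V := by rw [hUUP, hPV]
  have hPB : P * B = B := by rw [hB, ← mul_assoc, hgP, mul_assoc, hPZ]
  have hPU : P * U = U := by
    refine cancel_eq hKs ?_ ?_
    · rw [mul_assoc, hUK, hPB]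
    · intro x hx
      rw [mulA, hkillU x hx, map_zero]
  set V' := star U * V * U with hV'
  have hKKn : 0 ≤ K * K := by
    have := star_mul_self_nonneg K
    rwa [hKs] at this
  have hV'2 : star V' * V' * (K * K) = K * K := by
    have a1 : star V' * V' = star U * U := by
      calc star V' * V' = star U * star V * (U * star U * V) * U := by
            rw [hV']; simp only [star_mul, star_star]; noncomm_ring
        _ = star U * (P * U) := by rw [hUUV, hP]; noncomm_ring
        _ = star U * U := by rw [hPU]
    rw [a1, ← mul_assoc, hUUK]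
  have hV'3 : ∀ x, (K * K) x = 0 → V' x = 0 := by
    intro x hx
    have hKx : K x = 0 := by
      have : inner ℂ (K x) (K x) = 0 := by
        rw [← inner_star_right, hKs, ← mulA, hx, inner_zero_right]
      exact inner_self_eq_zero.1 this
    show (star U * V) (U x) = 0
    rw [hkillU x hKx, map_zero]
  have hhalf : (K * K) ^ (1 / 2 : ℝ) = K := by
    rw [← CFC.sqrt_eq_rpow, CFC.sqrt_mul_self K hKn]
  have hal : aluthge (1 / 2) (V' * (K * K)) = aluthge (1 / 2) T := by
    rw [aluthge_eq (1 / 2) hKKn rfl hV'2 hV'3, show (1 : ℝ) - 1 / 2 = 1 / 2 by norm_num, hhalf,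
      ← hYZ]
    calc K * V' * K = (K * star U) * V * (U * K) := by rw [hV']; noncomm_ring
      _ = star B * V * B := by rw [← hUK, star_mul U K, hKs]
      _ = Z * (g * V * g) * Z := by rw [hB, star_mul g Z, hgs, hZs]; noncomm_ring
      _ = Z * V * Z := by rw [hgV]
  have hT' : V' * (K * K) = T := by
    apply hun
    rw [meanAluthge, hal]; exact h
  have habs : K * K = S := by
    have := (polar_eq hKKn hT' hV'2 hV'3).1
    rw [hS, this]
  have h9 : (Z * (g * g - 1)) * P = 0 := by
    refine cancel hZs ?_ ?_
    · rw [mul_assoc, hPZ]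
      have : Z * (g * g - 1) * Z = Z * g * g * Z - Z * Z := by noncomm_ring
      rw [this, ← hKK, habs, hZZ, sub_self]
    · intro x hx
      rw [mulA, hkillP x (hkerZ x hx), map_zero]
  have h10 : Z ((3 : ℂ) • y) = 0 := by
    have h11 := congrArg (fun A : H →L[ℂ] H => A y) h9
    change Z (g (g (P y)) - P y) = 0 at h11
    rw [hy2, hgy, map_smul, hgy] at h11
    have : (3 : ℂ) • y = (2 : ℂ) • (2 : ℂ) • y - y := by
      rw [smul_smul]; module
    rw [this]; exact h11
  have h12 : Z y = 0 := by
    rw [map_smul] at h10
    exact (smul_eq_zero.1 h10).resolve_left (by norm_num)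
  have h13 : y = 0 := by rw [← hy2]; exact hkillP y (hkerZ y h12)
  exact hu h13

end Pool.Agent.Work.MP_11cc5c_an
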