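import Pool.Agent.Work.MP_11cc5c_an.Transforms

/-! Second order expansion of the transforms at the identity. -/

set_option linter.unusedSectionVars false

namespace Pool.Agent.Work.MP_11cc5c_an

open ContinuousLinearMap
open scoped NNReal

variable {H : Type*} [NormedAddCommGroup H] [InnerProductSpace ℂ H] [CompleteSpace H]

theorem scalar_bound {μ x : ℝ} (h0 : 0 ≤ μ) (h1 : μ ≤ 1) (hx : |x - 1| ≤ 1 / 2) :
    |x ^ μ - 1 - μ * (x - 1)| ≤ (x - 1) ^ 2 := by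
  obtain ⟨hx1, hx2⟩ := abs_le.1 hx
  set u := x - 1 with hu
  have hxu : x = 1 + u := by rw [hu]; ring
  have hxpos : 0 < x := by linarith
  have up := rpow_one_add_le_one_add_mul_self (s := u) (by linarith) h0 h1
  have up2 := rpow_one_add_le_one_add_mul_self (s := u) (p := 1 - μ) (by linarith)
    (by linarith) (by linarith)
  rw [← hxu] at up up2
  have hprod : x ^ μ * x ^ (1 - μ) = x := by
    rw [← Real.rpow_add hxpos, add_sub_cancel, Real.rpow_one]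
  have hd : 0 < 1 + (1 - μ) * u := by nlinarith
  have hlow : 1 + μ * u - u ^ 2 ≤ x ^ μ := by
    have hpos : 0 < x ^ μ := Real.rpow_pos_of_pos hxpos _
    have h3 : x ≤ x ^ μ * (1 + (1 - μ) * u) := by
      calc x = x ^ μ * x ^ (1 - μ) := hprod.symm
        _ ≤ _ := mul_le_mul_of_nonneg_left up2 hpos.le
    have h4 : (1 + μ * u - u ^ 2) * (1 + (1 - μ) * u) ≤ x := by
      rw [hxu]
      have : (1 + μ * u - u ^ 2) * (1 + (1 - μ) * u)
          = 1 + u + u ^ 2 * (μ * (1 - μ) - 1 - (1 - μ) * u) := by ring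
      rw [this]
      have h5 : μ * (1 - μ) - 1 - (1 - μ) * u ≤ 0 := by nlinarith [sq_nonneg (μ - 1 / 2)]
      nlinarith [sq_nonneg u]
    exact le_of_mul_le_mul_right (h4.trans h3) hd
  rw [abs_le]; constructor <;> nlinarith [sq_nonneg u]

theorem abs_rpow_eq (T : H →L[ℂ] H) {l : ℝ} (hl : 0 ≤ l) :
    CFC.abs T ^ l = (star T * T) ^ (l / 2) := by
  rw [CFC.abs, CFC.sqrt_eq_rpow, CFC.rpow_rpow_of_exponent_nonneg _ _ _ (by norm_num) hl
    (star_mul_self_nonneg T)]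
  congr 1; ring

/-- For invertible `|T|`, the Aluthge transform is a conjugation of `T`. -/
theorem aluthge_of_unit {T : H →L[ℂ] H} (hT : IsStrictlyPositive (CFC.abs T)) {l : ℝ} :
    aluthge l T = CFC.abs T ^ l * T * CFC.abs T ^ (-l) := by
  rw [aluthge, mul_assoc, mul_assoc]
  congr 1
  have h2 : CFC.abs T ^ (1 - l) = CFC.abs T * CFC.abs T ^ (-l) := by
    have := CFC.rpow_add (a := CFC.abs T) (x := 1) (y := -l) hT.isUnit
    rw [CFC.rpow_one _ (CFC.abs_nonneg T)] at this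
    rw [← this]; congr 1
  rw [h2, ← mul_assoc, polarPart_mul_abs]

theorem norm_star_mul_sub_one {Y : H →L[ℂ] H} (hY : ‖Y‖ ≤ 1 / 8) :
    ‖star (1 + Y) * (1 + Y) - 1‖ ≤ 17 / 8 * ‖Y‖ := by
  have h : star (1 + Y) * (1 + Y) - 1 = Y + star Y + star Y * Y := by
    simp only [star_add, star_one]; noncomm_ring
  rw [h]
  have h1 : ‖star Y * Y‖ ≤ ‖Y‖ * ‖Y‖ := by
    calc ‖star Y * Y‖ ≤ ‖star Y‖ * ‖Y‖ := norm_mul_le _ _
      _ = _ := by rw [norm_star]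
  calc ‖Y + star Y + star Y * Y‖ ≤ ‖Y‖ + ‖star Y‖ + ‖star Y * Y‖ := norm_add₃_le
    _ ≤ ‖Y‖ + ‖Y‖ + ‖Y‖ * ‖Y‖ := by rw [norm_star]; linarith
    _ ≤ 17 / 8 * ‖Y‖ := by nlinarith [norm_nonneg Y]

theorem mem_spectrum_bound {A : H →L[ℂ] H} {x : ℝ} (hx : x ∈ spectrum ℝ A) :
    |x - 1| ≤ ‖A - 1‖ := by
  have h : x - 1 ∈ spectrum ℝ (A - 1) := by
    rw [spectrum.mem_iff]
    rw [spectrum.mem_iff] at hx
    convert hx using 2
    simp
  rcases subsingleton_or_nontrivial H with hs | hn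
  · exfalso
    rw [spectrum.mem_iff] at hx
    exact hx (isUnit_of_subsingleton _)
  · have := spectrum.norm_le_norm_of_mem h
    rwa [Real.norm_eq_abs] at this

theorem isUnit_near {Y : H →L[ℂ] H} (hY : ‖Y‖ < 1) : IsUnit (1 + Y) := by
  have := (Units.oneSub (-Y) (by rwa [norm_neg])).isUnit
  rwa [Units.val_oneSub, sub_neg_eq_add] at this

theorem strictPos_of_unit {T : H →L[ℂ] H} (hT : IsUnit T) :
    IsStrictlyPositive (CFC.abs T) := by
  refine ⟨CFC.abs_nonneg _, ?_⟩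
  rw [CFC.abs, CFC.isUnit_sqrt_iff _ (star_mul_self_nonneg _)]
  exact hT.star.mul hT

theorem rpow_err {A : H →L[ℂ] H} (hA : 0 ≤ A) {μ ε : ℝ} (h0 : 0 ≤ μ) (h1 : μ ≤ 1)
    (hε : ‖A - 1‖ ≤ ε) (hε2 : ε ≤ 1 / 2) :
    ‖A ^ μ - 1 - μ • (A - 1)‖ ≤ ε ^ 2 := by
  have hc : ContinuousOn (fun x : ℝ => x ^ μ) (spectrum ℝ A) := by
    apply ContinuousOn.rpow_const continuousOn_id
    intro x _; exact Or.inr h0
  have e : A ^ μ - 1 - μ • (A - 1) = cfc (fun x : ℝ => x ^ μ - 1 - μ • (x - 1)) A := by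
    rw [cfc_sub (fun x : ℝ => x ^ μ - 1) (fun x : ℝ => μ • (x - 1)) A (by fun_prop) (by fun_prop),
      cfc_smul μ (fun x : ℝ => x - 1) A (by fun_prop),
      cfc_sub (fun x : ℝ => x) (fun _ : ℝ => 1) A (by fun_prop) (by fun_prop),
      cfc_sub (fun x : ℝ => x ^ μ) (fun _ : ℝ => 1) A (by fun_prop) (by fun_prop),
      cfc_id' ℝ A hA.isSelfAdjoint, cfc_const_one ℝ A hA.isSelfAdjoint, CFC.rpow_eq_cfc_real hA]
  rw [e]
  refine norm_cfc_le (by positivity) fun x hx => ?_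
  have hxb := (mem_spectrum_bound hx).trans hε
  rw [Real.norm_eq_abs, smul_eq_mul]
  refine (scalar_bound h0 h1 (hxb.trans hε2)).trans ?_
  rw [← sq_abs]
  exact pow_le_pow_left₀ (abs_nonneg _) hxb 2

theorem norm_comm_le (A B : H →L[ℂ] H) : ‖A * B - B * A‖ ≤ 2 * (‖A‖ * ‖B‖) := by
  calc ‖A * B - B * A‖ ≤ ‖A * B‖ + ‖B * A‖ := norm_sub_le _ _
    _ ≤ ‖A‖ * ‖B‖ + ‖B‖ * ‖A‖ := add_le_add (norm_mul_le _ _) (norm_mul_le _ _)
    _ = _ := by ring

theorem aluthge_expansion {Y : H →L[ℂ] H} (hY : ‖Y‖ ≤ 1 / 8) {l : ℝ} (h0 : 0 ≤ l) (h1 : l ≤ 1) :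
    ‖aluthge l (1 + Y) - (1 + Y) - (l / 2 : ℝ) • (star Y * Y - Y * star Y)‖ ≤ 28 * ‖Y‖ ^ 3 := by
  have hunit : IsUnit (1 + Y) := isUnit_near (by linarith)
  have hsp := strictPos_of_unit hunit
  set A := star (1 + Y) * (1 + Y) with hA
  have hAn : 0 ≤ A := star_mul_self_nonneg _
  set S := CFC.abs (1 + Y) with hS
  set μ : ℝ := l / 2 with hμ
  set G := S ^ l with hG
  set G' := S ^ (-l) with hG'
  have hGA : G = A ^ μ := abs_rpow_eq _ h0
  have hGG' : G * G' = 1 := CFC.rpow_mul_rpow_neg l hsp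
  set y := ‖Y‖ with hy
  have hy0 : 0 ≤ y := norm_nonneg _
  have hA1 : ‖A - 1‖ ≤ 17 / 8 * y := norm_star_mul_sub_one hY
  have hA1' : A - 1 = Y + star Y + star Y * Y := by
    rw [hA]; simp only [star_add, star_one]; noncomm_ring
  have herr := rpow_err hAn (μ := μ) (ε := 17 / 8 * y) (by positivity) (by linarith) hA1
    (by linarith)
  set E := G - 1 - μ • (Y + star Y) with hE
  have hEn : ‖E‖ ≤ 6 * y ^ 2 := by
    have : E = (A ^ μ - 1 - μ • (A - 1)) + μ • (star Y * Y) := by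
      rw [hE, hA1', hGA, smul_add μ (Y + star Y)]; abel
    rw [this]
    have h2 : ‖μ • (star Y * Y)‖ ≤ 1 / 2 * y ^ 2 := by
      rw [norm_smul, Real.norm_eq_abs, abs_of_nonneg (by positivity)]
      have : ‖star Y * Y‖ ≤ y ^ 2 := by
        calc ‖star Y * Y‖ ≤ ‖star Y‖ * ‖Y‖ := norm_mul_le _ _
          _ = y ^ 2 := by rw [norm_star]; ring
      have hμ2 : μ ≤ 1 / 2 := by rw [hμ]; linarith
      exact mul_le_mul hμ2 this (norm_nonneg _) (by norm_num)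
    calc _ ≤ ‖A ^ μ - 1 - μ • (A - 1)‖ + ‖μ • (star Y * Y)‖ := norm_add_le _ _
      _ ≤ (17 / 8 * y) ^ 2 + 1 / 2 * y ^ 2 := add_le_add herr h2
      _ ≤ 6 * y ^ 2 := by nlinarith [sq_nonneg y]
  have hG1 : ‖G - 1‖ ≤ 2 * y := by
    have : G - 1 = E + μ • (Y + star Y) := by rw [hE]; abel
    rw [this]
    have h2 : ‖μ • (Y + star Y)‖ ≤ y := by
      rw [norm_smul, Real.norm_eq_abs, abs_of_nonneg (by positivity)]
      have h3 : ‖Y + star Y‖ ≤ 2 * y := by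
        calc ‖Y + star Y‖ ≤ ‖Y‖ + ‖star Y‖ := norm_add_le _ _
          _ = 2 * y := by rw [norm_star]; ring
      have hμ2 : μ ≤ 1 / 2 := by rw [hμ]; linarith
      calc μ * ‖Y + star Y‖ ≤ 1 / 2 * (2 * y) := mul_le_mul hμ2 h3 (norm_nonneg _) (by norm_num)
        _ = y := by ring
    calc ‖E + μ • (Y + star Y)‖ ≤ ‖E‖ + ‖μ • (Y + star Y)‖ := norm_add_le _ _
      _ ≤ 6 * y ^ 2 + y := add_le_add hEn h2
      _ ≤ 2 * y := by nlinarith
  have hG'2 : ‖G'‖ ≤ 2 := by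
    have h2 : G' = 1 - (G - 1) * G' := by rw [sub_mul, hGG', one_mul]; abel
    have hone : ‖(1 : H →L[ℂ] H)‖ ≤ 1 := ContinuousLinearMap.norm_id_le
    have h3 : ‖G'‖ ≤ 1 + 2 * y * ‖G'‖ := by
      calc ‖G'‖ = ‖1 - (G - 1) * G'‖ := by rw [← h2]
        _ ≤ ‖(1 : H →L[ℂ] H)‖ + ‖(G - 1) * G'‖ := norm_sub_le _ _
        _ ≤ 1 + ‖G - 1‖ * ‖G'‖ := add_le_add hone (norm_mul_le _ _)
        _ ≤ _ := by gcongr
    nlinarith [norm_nonneg G']
  have hG'1 : ‖G' - 1‖ ≤ 4 * y := by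
    have h2 : G' - 1 = -((G - 1) * G') := by rw [sub_mul, hGG', one_mul]; abel
    rw [h2, norm_neg]
    calc ‖(G - 1) * G'‖ ≤ ‖G - 1‖ * ‖G'‖ := norm_mul_le _ _
      _ ≤ 2 * y * 2 := mul_le_mul hG1 hG'2 (norm_nonneg _) (by positivity)
      _ = 4 * y := by ring
  have hΔ : aluthge l (1 + Y) = G * (1 + Y) * G' := aluthge_of_unit hsp
  have hdecomp : aluthge l (1 + Y) - (1 + Y) - μ • (star Y * Y - Y * star Y)
      = ((G - 1) * Y - Y * (G - 1)) * (G' - 1) + (E * Y - Y * E) := by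
    have e1 : G * (1 + Y) * G' = (1 + Y) + (G * Y - Y * G) * G' := by
      have : (1 + Y) = (1 + Y) * (G * G') := by rw [hGG', mul_one]
      nth_rw 2 [this]; noncomm_ring
    have e2 : G * Y - Y * G = μ • (star Y * Y - Y * star Y) + (E * Y - Y * E) := by
      have : G = E + 1 + μ • (Y + star Y) := by rw [hE]; abel
      rw [this]
      simp only [add_mul, mul_add, smul_mul_assoc, mul_smul_comm, smul_add, smul_sub, one_mul,
        mul_one]
      abel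
    have e3 : (G - 1) * Y - Y * (G - 1) = G * Y - Y * G := by noncomm_ring
    rw [hΔ, e1, e3, mul_sub, mul_one]
    nth_rw 3 [e2]
    abel
  rw [hdecomp]
  calc ‖((G - 1) * Y - Y * (G - 1)) * (G' - 1) + (E * Y - Y * E)‖
      ≤ ‖((G - 1) * Y - Y * (G - 1))‖ * ‖G' - 1‖ + ‖E * Y - Y * E‖ :=
        (norm_add_le _ _).trans (add_le_add (norm_mul_le _ _) le_rfl)
    _ ≤ (2 * (2 * y * y)) * (4 * y) + 2 * (6 * y ^ 2 * y) := by
        refine add_le_add (mul_le_mul ?_ hG'1 (norm_nonneg _) (by positivity)) ?_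
        · refine (norm_comm_le _ _).trans ?_
          gcongr
        · refine (norm_comm_le _ _).trans ?_
          gcongr
    _ = 28 * y ^ 3 := by ring

theorem Mtr_expansion {Y : H →L[ℂ] H} (hY : ‖Y‖ ≤ 1 / 8) {l : ℝ} (h0 : 0 ≤ l) (h1 : l ≤ 1) :
    ‖Mtr l (1 + Y) - (1 + Y) - (1 / 4 : ℝ) • (star Y * Y - Y * star Y)‖ ≤ 28 * ‖Y‖ ^ 3 := by
  have e1 := aluthge_expansion hY h0 h1
  have e2 := aluthge_expansion hY (l := 1 - l) (by linarith) (by linarith)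
  set K := star Y * Y - Y * star Y
  have : Mtr l (1 + Y) - (1 + Y) - (1 / 4 : ℝ) • K
      = (1 / 2 : ℝ) • (aluthge l (1 + Y) - (1 + Y) - (l / 2 : ℝ) • K) +
        (1 / 2 : ℝ) • (aluthge (1 - l) (1 + Y) - (1 + Y) - ((1 - l) / 2 : ℝ) • K) := by
    have hc : ∀ X : H →L[ℂ] H, (1 / 2 : ℂ) • X = (1 / 2 : ℝ) • X := by
      intro X; rw [← Complex.coe_smul]; norm_num
    rw [Mtr, hc]
    module
  rw [this]
  refine (norm_add_le _ _).trans ?_
  rw [norm_smul, norm_smul, Real.norm_eq_abs, abs_of_pos (by norm_num : (0 : ℝ) < 1 / 2)]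
  linarith

theorem meanT_expansion {Y : H →L[ℂ] H} (hY : ‖Y‖ ≤ 1 / 8) :
    ‖meanT (1 + Y) - (1 + Y) - (1 / 4 : ℝ) • (star Y * Y - Y * star Y)‖ ≤ 28 * ‖Y‖ ^ 3 := by
  rw [← Mtr_zero]; exact Mtr_expansion hY le_rfl zero_le_one

theorem meanAluthge_expansion {Y : H →L[ℂ] H} (hY : ‖Y‖ ≤ 1 / 32) :
    ‖meanAluthge (1 + Y) - (1 + Y) - (1 / 2 : ℝ) • (star Y * Y - Y * star Y)‖
      ≤ 256 * ‖Y‖ ^ 3 := by
  set y := ‖Y‖ with hy
  have hy0 : 0 ≤ y := norm_nonneg _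
  have e1 := aluthge_expansion (Y := Y) (by linarith) (l := 1 / 2) (by norm_num) (by norm_num)
  rw [show ((1 : ℝ) / 2 / 2) = 1 / 4 by norm_num, ← hy] at e1
  set Y' := aluthge (1 / 2) (1 + Y) - 1 with hY'
  have hal : aluthge (1 / 2) (1 + Y) = 1 + Y' := by rw [hY']; abel
  set D := Y' - Y with hD
  set K := star Y * Y - Y * star Y with hK
  have hKn : ‖K‖ ≤ 2 * y ^ 2 := by
    refine (norm_comm_le (star Y) Y).trans ?_
    rw [norm_star, ← hy]; apply le_of_eq; ring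
  have e2 : ‖D - (1 / 4 : ℝ) • K‖ ≤ 28 * y ^ 3 := by
    have : D - (1 / 4 : ℝ) • K = aluthge (1 / 2) (1 + Y) - (1 + Y) - (1 / 4 : ℝ) • K := by
      rw [hal, hD]; abel
    rw [this]; exact e1
  have hDn : ‖D‖ ≤ 2 * y ^ 2 := by
    have : D = (D - (1 / 4 : ℝ) • K) + (1 / 4 : ℝ) • K := by abel
    rw [this]
    refine (norm_add_le _ _).trans ?_
    have h3 : ‖(1 / 4 : ℝ) • K‖ ≤ 1 / 2 * y ^ 2 := by
      rw [norm_smul, Real.norm_eq_abs, abs_of_pos (by norm_num : (0 : ℝ) < 1 / 4)]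
      linarith
    nlinarith [sq_nonneg y]
  have hY'n : ‖Y'‖ ≤ 2 * y := by
    have : Y' = Y + D := by rw [hD]; abel
    rw [this]
    refine (norm_add_le _ _).trans ?_
    rw [← hy]; nlinarith
  have e3 := meanT_expansion (Y := Y') (by linarith)
  have hdec : meanAluthge (1 + Y) - (1 + Y) - (1 / 2 : ℝ) • K
      = (meanT (1 + Y') - (1 + Y') - (1 / 4 : ℝ) • (star Y' * Y' - Y' * star Y'))
        + (D - (1 / 4 : ℝ) • K)
        + (1 / 4 : ℝ) • ((star D * Y' - Y' * star D) + (star Y * D - D * star Y)) := by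
    have h4 : star D = star Y' - star Y := by rw [hD, star_sub]
    rw [meanAluthge, hal, h4, hD, hK]
    have h5 : ((star Y' - star Y) * Y' - Y' * (star Y' - star Y)
        + (star Y * (Y' - Y) - (Y' - Y) * star Y))
        = (star Y' * Y' - Y' * star Y') - (star Y * Y - Y * star Y) := by noncomm_ring
    rw [h5]
    module
  rw [hdec]
  have h6 : ‖star D * Y' - Y' * star D‖ ≤ 8 * y ^ 3 := by
    refine (norm_comm_le (star D) Y').trans ?_
    rw [norm_star]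
    calc 2 * (‖D‖ * ‖Y'‖) ≤ 2 * ((2 * y ^ 2) * (2 * y)) := by gcongr
      _ = 8 * y ^ 3 := by ring
  have h7 : ‖star Y * D - D * star Y‖ ≤ 4 * y ^ 3 := by
    refine (norm_comm_le (star Y) D).trans ?_
    rw [norm_star, ← hy]
    calc 2 * (y * ‖D‖) ≤ 2 * (y * (2 * y ^ 2)) := by gcongr
      _ = 4 * y ^ 3 := by ring
  have h8 : ‖(1 / 4 : ℝ) • ((star D * Y' - Y' * star D) + (star Y * D - D * star Y))‖
      ≤ 3 * y ^ 3 := by
    rw [norm_smul, Real.norm_eq_abs, abs_of_pos (by norm_num : (0 : ℝ) < 1 / 4)]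
    have := norm_add_le (star D * Y' - Y' * star D) (star Y * D - D * star Y)
    linarith
  have h9 : 28 * ‖Y'‖ ^ 3 ≤ 224 * y ^ 3 := by
    calc 28 * ‖Y'‖ ^ 3 ≤ 28 * (2 * y) ^ 3 := by gcongr
      _ = 224 * y ^ 3 := by ring
  refine (norm_add₃_le).trans ?_
  linarith [pow_nonneg hy0 3]

/-! ### Membership in closed star subalgebras -/

theorem aluthge_mem {K : StarSubalgebra ℂ (H →L[ℂ] H)} (hK : IsClosed (K : Set (H →L[ℂ] H)))
    {T : H →L[ℂ] H} (hT : T ∈ K) (hu : IsUnit T) (l : ℝ) :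
    aluthge l T ∈ K := by
  have hA : star T * T ∈ K := mul_mem (star_mem hT) hT
  have hS : CFC.abs T ∈ K := by
    rw [CFC.abs, CFC.sqrt_eq_rpow, CFC.rpow_eq_cfc_real (star_mul_self_nonneg T)]
    exact cfc_mem (𝕜' := ℂ) (hs := hK) _ hA
  have hp : ∀ a : ℝ, CFC.abs T ^ a ∈ K := by
    intro a
    rw [CFC.rpow_eq_cfc_real (CFC.abs_nonneg T)]
    exact cfc_mem (𝕜' := ℂ) (hs := hK) _ hS
  rw [aluthge_of_unit (strictPos_of_unit hu)]
  exact mul_mem (mul_mem (hp _) hT) (hp _)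

theorem Mtr_mem {K : StarSubalgebra ℂ (H →L[ℂ] H)} (hK : IsClosed (K : Set (H →L[ℂ] H)))
    {T : H →L[ℂ] H} (hT : T ∈ K) (hu : IsUnit T) (l : ℝ) :
    Mtr l T ∈ K := by
  rw [Mtr]; exact SMulMemClass.smul_mem _ (add_mem (aluthge_mem hK hT hu _) (aluthge_mem hK hT hu _))

theorem isUnit_aluthge {T : H →L[ℂ] H} (hu : IsUnit T) (l : ℝ) : IsUnit (aluthge l T) := by
  have hsp := strictPos_of_unit hu
  rw [aluthge_of_unit hsp]
  exact ((hsp.isUnit.cfcRpow l (CFC.abs_nonneg T)).mul hu).mul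
    (hsp.isUnit.cfcRpow (-l) (CFC.abs_nonneg T))

theorem meanAluthge_mem {K : StarSubalgebra ℂ (H →L[ℂ] H)} (hK : IsClosed (K : Set (H →L[ℂ] H)))
    {T : H →L[ℂ] H} (hT : T ∈ K) (hu : IsUnit T) :
    meanAluthge T ∈ K := by
  rw [meanAluthge, ← Mtr_zero]
  exact Mtr_mem hK (aluthge_mem hK hT hu _) (isUnit_aluthge hu _) 0

end Pool.Agent.Work.MP_11cc5c_an
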