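import Pool.Agent.Work.MP_11cc5c_an.Struct

/-! The main theorem. -/

set_option linter.unusedSectionVars false

namespace Pool.Agent.Work.MP_11cc5c_an

open ContinuousLinearMap Filter
open scoped NNReal Topology ComplexConjugate

variable {H : Type*} [NormedAddCommGroup H] [InnerProductSpace ℂ H] [CompleteSpace H]

theorem scalar_of_eigenvectors {D : H →L[ℂ] H} (h : ∀ x, ‖x‖ = 1 → ∃ c : ℂ, D x = c • x) :
    ∃ c : ℂ, D = c • (1 : H →L[ℂ] H) := by
  have h' : ∀ x, ∃ c : ℂ, D x = c • x := by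
    intro x
    by_cases hx : x = 0
    · exact ⟨0, by rw [hx, map_zero, smul_zero]⟩
    have hxn : (‖x‖ : ℂ) ≠ 0 := by simpa using hx
    obtain ⟨c, hc⟩ := h (((‖x‖ : ℂ)⁻¹) • x) (by
      rw [norm_smul, norm_inv, Complex.norm_real, Real.norm_eq_abs, abs_norm]
      exact inv_mul_cancel₀ (norm_ne_zero_iff.2 hx))
    refine ⟨c, ?_⟩
    rw [map_smul, smul_comm] at hc
    exact smul_right_injective _ (inv_ne_zero hxn) hc
  by_cases hH : ∀ x : H, x = 0
  · exact ⟨0, by ext x; rw [hH x, map_zero, map_zero]⟩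
  push Not at hH
  obtain ⟨x₀, hx₀⟩ := hH
  obtain ⟨c₀, hc₀⟩ := h' x₀
  have hxx : (inner ℂ x₀ x₀ : ℂ) ≠ 0 := inner_self_ne_zero.mpr hx₀
  have key : ∀ v, inner ℂ x₀ v = 0 → D v = c₀ • v := by
    intro v hv
    obtain ⟨c₁, hc₁⟩ := h' (x₀ + v)
    obtain ⟨c₂, hc₂⟩ := h' v
    have h1 : c₀ • x₀ + c₂ • v = c₁ • x₀ + c₁ • v := by
      rw [← hc₀, ← hc₂, ← map_add, hc₁, smul_add]
    have h2 := congrArg (fun z => (inner ℂ x₀ z : ℂ)) h1
    simp only [inner_add_right, inner_smul_right, hv, mul_zero, add_zero] at h2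
    have h3 : c₀ = c₁ := mul_right_cancel₀ hxx h2
    rw [← h3] at h1
    rw [hc₂]
    exact add_left_cancel h1
  refine ⟨c₀, ?_⟩
  ext x
  set v := x - (inner ℂ x₀ x / inner ℂ x₀ x₀ : ℂ) • x₀ with hv
  have h1 : inner ℂ x₀ v = 0 := by
    rw [hv, inner_sub_right, inner_smul_right, div_mul_cancel₀ _ hxx, sub_self]
  have h2 := key v h1
  have h3 : x = (inner ℂ x₀ x / inner ℂ x₀ x₀ : ℂ) • x₀ + v := by rw [hv]; abel
  show D x = c₀ • x
  rw [h3, map_add, map_smul, hc₀, h2, smul_add, smul_comm]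

theorem exists_perp {x₀ v₀ : H} (hx₀ : ‖x₀‖ = 1) (hv₀ : ‖v₀‖ = 1) (h0 : inner ℂ v₀ x₀ = 0)
    (a : H) : ∃ b, ‖b‖ = 1 ∧ inner ℂ a b = 0 := by
  by_cases h1 : inner ℂ a x₀ = 0
  · exact ⟨x₀, hx₀, h1⟩
  set w : H := inner ℂ a x₀ • v₀ - inner ℂ a v₀ • x₀ with hw
  have hw1 : inner ℂ a w = 0 := by
    rw [hw, inner_sub_right, inner_smul_right, inner_smul_right]; ring
  have hw0 : w ≠ 0 := by
    intro h
    have h2 : inner ℂ v₀ w = inner ℂ a x₀ := by
      rw [hw, inner_sub_right, inner_smul_right, inner_smul_right, h0, inner_self_one hv₀]; ring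
    rw [h, inner_zero_right] at h2
    exact h1 h2.symm
  refine ⟨((‖w‖ : ℂ)⁻¹) • w, ?_, ?_⟩
  · rw [norm_smul, norm_inv, Complex.norm_real, Real.norm_eq_abs, abs_norm]
    exact inv_mul_cancel₀ (norm_ne_zero_iff.2 hw0)
  · rw [inner_smul_right, hw1, mul_zero]

/-- Conjugation by a unitary as a linear equivalence. -/
noncomputable def conjE (U : H →L[ℂ] H) (h1 : star U * U = 1) (h2 : U * star U = 1) :
    (H →L[ℂ] H) ≃ₗ[ℂ] (H →L[ℂ] H) where
  toFun X := star U * X * U
  invFun X := U * X * star U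
  map_add' X Y := by rw [mul_add, add_mul]
  map_smul' c X := by rw [mul_smul_comm, smul_mul_assoc]; rfl
  left_inv X := by
    show U * (star U * X * U) * star U = X
    calc U * (star U * X * U) * star U = (U * star U) * X * (U * star U) := by noncomm_ring
      _ = X := by rw [h2, one_mul, mul_one]
  right_inv X := by
    show star U * (U * X * star U) * U = X
    calc star U * (U * X * star U) * U = (star U * U) * X * (star U * U) := by noncomm_ring
      _ = X := by rw [h1, one_mul, mul_one]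

theorem normal_add_scalar {X : H →L[ℂ] H} (h : star X * X = X * star X) (c : ℂ) :
    star (X + c • (1 : H →L[ℂ] H)) * (X + c • 1) = (X + c • 1) * star (X + c • 1) := by
  simp only [star_add, star_smul, star_one, mul_add, add_mul, mul_smul_comm, smul_mul_assoc,
    mul_one, one_mul, h]
  module

theorem unit_line {A B : H →L[ℂ] H} (h : ∀ ζ : ℂ, ζ + conj ζ + ζ * conj ζ = 0 →
    star (A + ζ • B) * (A + ζ • B) = (A + ζ • B) * star (A + ζ • B)) :
    br A B = br B B := by
  have key : ∀ ζ : ℂ, ζ + conj ζ + ζ * conj ζ = 0 →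
      br A A + ζ • br A B + (conj ζ) • br B A + (ζ * conj ζ) • br B B = 0 := by
    intro ζ hζ
    rw [← sub_eq_zero.2 (h ζ hζ)]
    simp only [br, star_add, star_smul, mul_add, add_mul, smul_mul_assoc, mul_smul_comm,
      smul_smul, smul_add, smul_sub, Complex.star_def]
    module
  have h0 := key 0 (by simp)
  have h1 := key (-2) (by rw [map_neg, map_ofNat]; norm_num)
  have h2 := key (Complex.I - 1) (by
    rw [map_sub, Complex.conj_I, map_one]
    ring_nf; rw [Complex.I_sq]; ring)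
  rw [zero_smul, map_zero, zero_smul, zero_mul, zero_smul, add_zero, add_zero, add_zero] at h0
  have c2 : (conj (-2 : ℂ)) = -2 := by rw [map_neg, map_ofNat]
  have ci : (conj (Complex.I - 1)) = -Complex.I - 1 := by
    rw [map_sub, Complex.conj_I, map_one]
  have cii : (Complex.I - 1) * (-Complex.I - 1) = 2 := by
    ring_nf; rw [Complex.I_sq]; ring
  rw [h0, c2, zero_add] at h1
  rw [h0, ci, cii, zero_add] at h2
  have e1 : (2 * Complex.I) • (br A B - br B A) = 0 := by
    have : (2 * Complex.I) • (br A B - br B A)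
        = (2 : ℂ) • ((Complex.I - 1) • br A B + (-Complex.I - 1) • br B A + (2 : ℂ) • br B B)
          - ((-2 : ℂ) • br A B + (-2 : ℂ) • br B A + ((-2) * (-2) : ℂ) • br B B) := by module
    rw [this, h1, h2]; simp
  have e2 := (smul_eq_zero.1 e1).resolve_left (by simp)
  have e3 : br A B = br B A := sub_eq_zero.1 e2
  have e4 : (4 : ℂ) • (br A B - br B B) = 0 := by
    have : (4 : ℂ) • (br A B - br B B)
        = -((-2 : ℂ) • br A B + (-2 : ℂ) • br A B + ((-2) * (-2) : ℂ) • br B B) := by module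
    rw [this]
    nth_rw 2 [e3]
    rw [h1, neg_zero]
  exact sub_eq_zero.1 ((smul_eq_zero.1 e4).resolve_left (by norm_num))

section

variable {Λ : (H →L[ℂ] H) → (H →L[ℂ] H)} (hΛ : Good Λ)
  {e : (H →L[ℂ] H) ≃ₗ[ℂ] (H →L[ℂ] H)} (he : Adm Λ e)

include hΛ he

/-- Structure on finite rank operators: `e` is implemented by a unitary up to a scalar part. -/
theorem Adm.structure' {x₀ v₀ : H} (hx₀ : ‖x₀‖ = 1) (hv₀ : ‖v₀‖ = 1)
    (h0 : inner ℂ v₀ x₀ = 0) :
    ∃ (U : H →L[ℂ] H) (d : ℂ), star U * U = 1 ∧ U * star U = 1 ∧ ∀ a b : H,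
      e (rk a b) = rk (U a) (U b) + (inner ℂ b a : ℂ) • (d • (1 : H →L[ℂ] H)) := by
  obtain ⟨U, δ, hU⟩ := Adm.structure hΛ he hx₀ hv₀ h0
  have hUinner : ∀ v w, inner ℂ (U v) (U w) = inner ℂ v w := fun v w => U.inner_map_map v w
  -- `U` is onto
  have hsurj : ∀ a : H, ∃ x, U x = a := by
    intro a
    by_cases ha : a = 0
    · exact ⟨0, by rw [map_zero, ha]⟩
    obtain ⟨b, hb, hab⟩ := exists_perp hx₀ hv₀ h0 a
    obtain ⟨x, y, hx, hy, hxy, hs⟩ := Adm.rank_one' hΛ he.symm hb hab
    have h1 : rk a b = rk (U x) (U y) := by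
      have h2 : e (e.symm (rk a b)) = rk a b := LinearEquiv.apply_symm_apply _ _
      rw [← h2, hs, hU, inner_eq_zero_symm.1 hxy, zero_smul, add_zero]
    have h3 := congrArg (fun A : H →L[ℂ] H => A b) h1
    change inner ℂ b b • a = inner ℂ (U y) b • U x at h3
    rw [inner_self_one hb, one_smul] at h3
    exact ⟨inner ℂ (U y) b • x, by rw [map_smul, ← h3]⟩
  set Uc : H →L[ℂ] H := U.toContinuousLinearMap with hUc
  have hUc1 : star Uc * Uc = 1 := by
    ext x
    refine ext_inner_left ℂ fun y => ?_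
    rw [mulA, inner_star_right]
    exact hUinner y x
  have hUc2 : Uc * star Uc = 1 := by
    ext a
    obtain ⟨x, rfl⟩ := hsurj a
    have := congrArg (fun A : H →L[ℂ] H => A x) hUc1
    show Uc (star Uc (Uc x)) = Uc x
    exact congrArg Uc this
  -- `δ` is scalar
  have hδ : ∃ c : ℂ, star δ = c • (1 : H →L[ℂ] H) := by
    apply scalar_of_eigenvectors
    intro x hx
    obtain ⟨a, rfl⟩ := hsurj x
    obtain ⟨b, hb, hab⟩ := exists_perp hx₀ hv₀ h0 a
    have hba := inner_eq_zero_symm.1 hab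
    have hbr := Adm.br hΛ he (finSet_isSub ![x₀, a, b]) (mem_finSet ![x₀, a, b] 0 0)
      (mem_finSet ![x₀, a, b] 1 2)
    change e (MP_11cc5c_an.br (rk x₀ x₀) (rk a b))
      = MP_11cc5c_an.br (e (rk x₀ x₀)) (e (rk a b)) at hbr
    have hcomm : star δ * rk (U a) (U b) = rk (U a) (U b) * star δ := by
      simp only [MP_11cc5c_an.br, hU, rk_star, rk_rk, map_sub, map_smul, star_add,
        inner_self_one hx₀, one_smul, hba, zero_smul, add_zero, add_mul, mul_add, hUinner,
        smul_add] at hbr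
      have h2 : star δ * rk (U a) (U b) - rk (U a) (U b) * star δ = 0 := by
        have h3 := sub_eq_zero.2 hbr
        rw [← neg_eq_zero, ← h3]
        module
      exact sub_eq_zero.1 h2
    have h3 := congrArg (fun A : H →L[ℂ] H => A (U b)) hcomm
    change star δ (inner ℂ (U b) (U b) • U a) = inner ℂ (U b) (star δ (U b)) • U a at h3
    rw [hUinner, inner_self_one hb, one_smul] at h3
    exact ⟨_, h3⟩
  obtain ⟨c, hc⟩ := hδ
  have hδ' : δ = (star c) • (1 : H →L[ℂ] H) := by
    have := congrArg star hc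
    rwa [star_star, star_smul, star_one] at this
  refine ⟨Uc, star c, hUc1, hUc2, fun a b => ?_⟩
  rw [hU a b, hδ']; rfl

/-- On unitaries, `e` is the identity up to scalars, if it is so on rank one operators. -/
theorem Adm.unitary {d : ℂ} (hd : ∀ a b : H,
      e (rk a b) = rk a b + (inner ℂ b a : ℂ) • (d • (1 : H →L[ℂ] H)))
    {W : H →L[ℂ] H} (hW : W ∈ unitary (H →L[ℂ] H)) :
    ∃ c : ℂ, e W = W + c • (1 : H →L[ℂ] H) := by
  have hW1 : star W * W = 1 := Unitary.star_mul_self_of_mem hW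
  have hW2 : W * star W = 1 := Unitary.mul_star_self_of_mem hW
  suffices h : ∃ c : ℂ, e W - W = c • (1 : H →L[ℂ] H) by
    obtain ⟨c, hc⟩ := h
    exact ⟨c, by rw [← hc]; abel⟩
  apply scalar_of_eigenvectors
  intro x hx
  set B := rk (W x) x with hB
  have hxx := inner_self_one hx
  have hWx : inner ℂ (W x) (W x) = 1 := by
    rw [← inner_star_right, ← mulA, hW1]; exact hxx
  have k1 : star W * B = rk x x := by
    rw [hB, mul_rk, ← mulA, hW1]; rfl
  have k2 : star B * W = rk x x := by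
    rw [hB, rk_star, rk_mul, ← mulA, hW1]; rfl
  have k3 : star B * B = rk x x := by rw [hB, rk_star, rk_rk, hWx, one_smul]
  have k4 : B * star W = rk (W x) (W x) := by rw [hB, rk_mul, star_star]
  have k5 : W * star B = rk (W x) (W x) := by rw [hB, rk_star, mul_rk]
  have k6 : B * star B = rk (W x) (W x) := by rw [hB, rk_star, rk_rk, hxx, one_smul]
  have hnorm : ∀ ζ : ℂ, ζ + conj ζ + ζ * conj ζ = 0 →
      star (W + ζ • B) * (W + ζ • B) = (W + ζ • B) * star (W + ζ • B) := by
    intro ζ hζ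
    have a1 : star (W + ζ • B) * (W + ζ • B) = 1 + (ζ + conj ζ + ζ * conj ζ) • rk x x := by
      simp only [star_add, star_smul, mul_add, add_mul, smul_mul_assoc, mul_smul_comm, k1, k2,
        k3, hW1, Complex.star_def]
      module
    have a2 : (W + ζ • B) * star (W + ζ • B)
        = 1 + (ζ + conj ζ + ζ * conj ζ) • rk (W x) (W x) := by
      simp only [star_add, star_smul, mul_add, add_mul, smul_mul_assoc, mul_smul_comm, k4, k5,
        k6, hW2, Complex.star_def]
      module
    rw [a1, a2, hζ, zero_smul, zero_smul]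
  have hnorm' : ∀ ζ : ℂ, ζ + conj ζ + ζ * conj ζ = 0 →
      star (e W + ζ • B) * (e W + ζ • B) = (e W + ζ • B) * star (e W + ζ • B) := by
    intro ζ hζ
    have a1 := Adm.normal hΛ he (hnorm ζ hζ)
    rw [map_add, map_smul, hB, hd, ← hB] at a1
    have a2 := normal_add_scalar a1 (-(ζ * (inner ℂ x (W x) * d)))
    have a3 : e W + ζ • (B + (inner ℂ x (W x) : ℂ) • d • (1 : H →L[ℂ] H))
        + (-(ζ * (inner ℂ x (W x) * d))) • (1 : H →L[ℂ] H) = e W + ζ • B := by module
    rwa [a3] at a2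
  have e1 := unit_line hnorm
  have e2 := unit_line hnorm'
  set D := e W - W with hD
  have hcomm : star D * B = B * star D := by
    rw [← e1] at e2
    simp only [MP_11cc5c_an.br] at e2
    have : star D * B - B * star D
        = (star (e W) * B - B * star (e W)) - (star W * B - B * star W) := by
      rw [hD, star_sub]; noncomm_ring
    rw [e2, sub_self] at this
    exact sub_eq_zero.1 this
  rw [hB, mul_rk, rk_mul, star_star] at hcomm
  set z := D x - inner ℂ x (D x) • x with hz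
  have hxz : inner ℂ x z = 0 := by
    rw [hz, inner_sub_right, inner_smul_right, hxx, mul_one, sub_self]
  have h3 := congrArg (fun A : H →L[ℂ] H => A z) hcomm
  change inner ℂ x z • star D (W x) = inner ℂ (D x) z • W x at h3
  rw [hxz, zero_smul] at h3
  have hWx0 : W x ≠ 0 := by
    intro h
    rw [h, inner_zero_left] at hWx
    exact zero_ne_one hWx
  have h4 : inner ℂ (D x) z = 0 := (smul_eq_zero.1 h3.symm).resolve_right hWx0
  have h5 : inner ℂ z z = 0 := by
    nth_rw 1 [hz]
    rw [inner_sub_left, inner_smul_left, h4, hxz, mul_zero, sub_zero]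
  have h6 : z = 0 := inner_self_eq_zero.1 h5
  exact ⟨inner ℂ x (D x), sub_eq_zero.1 h6⟩

end

end Pool.Agent.Work.MP_11cc5c_an
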