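import Pool.Agent.Work.MP_11cc5c_an.FixM

/-! Fixed points of the mean-Aluthge transform. -/

set_option linter.unusedSectionVars false

namespace Pool.Agent.Work.MP_11cc5c_an

open ContinuousLinearMap Filter
open scoped NNReal Topology

variable {H : Type*} [NormedAddCommGroup H] [InnerProductSpace ℂ H] [CompleteSpace H]

theorem fixD_i1 : SMulCommClass ℝ (H →L[ℂ] H) (H →L[ℂ] H) := inferInstance
theorem fixD_i2 : IsScalarTower ℝ (H →L[ℂ] H) (H →L[ℂ] H) := inferInstance
theorem fixD_i3 : NonnegSpectrumClass ℝ (H →L[ℂ] H) := inferInstance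
theorem fixD_i4 : StarOrderedRing (H →L[ℂ] H) := inferInstance
theorem fixD_i5 : IsTopologicalRing (H →L[ℂ] H) := inferInstance

theorem fixD_i6 : NonUnitalContinuousFunctionalCalculus ℝ (H →L[ℂ] H) IsSelfAdjoint :=
  inferInstance
theorem fixD_i7 : T2Space (H →L[ℂ] H) := inferInstance
noncomputable abbrev fixD_i8 : Module ℝ (H →L[ℂ] H) := inferInstance
noncomputable abbrev fixD_i9 : Algebra ℂ (H →L[ℂ] H) := inferInstance
noncomputable abbrev fixD_i10 : HPow (H →L[ℂ] H) ℝ (H →L[ℂ] H) := inferInstance

attribute [local instance 10000] fixD_i1 fixD_i2 fixD_i3 fixD_i4 fixD_i5 fixD_i6 fixD_i7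

theorem fixD_real1 {a b : ℝ} (h1 : 4 * a ≤ b) (h2 : b ≤ a) (h0 : 0 ≤ a) : a = 0 := by
  linarith

theorem fixD_real2 {v : ℝ} (h0 : 0 ≤ v) (h3 : v * v * (v * v) = v * v) : v ≤ 1 := by
  by_contra hcon
  push Not at hcon
  have h1 : 1 < v * v := by nlinarith
  nlinarith

theorem fixD_real3 : |(4 : ℝ)| = 4 := abs_of_pos (by norm_num)

theorem half_mul_half {S : H →L[ℂ] H} (hS : 0 ≤ S) : S ^ (1 / 2 : ℝ) * S ^ (1 / 2 : ℝ) = S := by
  have := rpow_mul_rpow_sub hS (a := 1 / 2) (by norm_num) (by norm_num)
  rwa [show (1 : ℝ) - 1 / 2 = 1 / 2 by norm_num] at this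

theorem aluthge_half (T : H →L[ℂ] H) :
    aluthge (1 / 2) T = CFC.abs T ^ (1 / 2 : ℝ) * polarPart T * CFC.abs T ^ (1 / 2 : ℝ) := by
  rw [aluthge, show (1 : ℝ) - 1 / 2 = 1 / 2 by norm_num]

theorem fixD_eq {T : H →L[ℂ] H} (h : meanAluthge T = T) :
    polarPart (aluthge (1 / 2) T) * CFC.abs (aluthge (1 / 2) T) +
      CFC.abs (aluthge (1 / 2) T) * polarPart (aluthge (1 / 2) T) = T + T := by
  rw [polarPart_mul_abs]
  set Y := aluthge (1 / 2) T with hY
  have h1 : (1 / 2 : ℂ) • (Y + CFC.abs Y * polarPart Y) = T := h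
  rw [← h1, ← smul_add, ← two_smul ℂ (Y + CFC.abs Y * polarPart Y), smul_smul]
  norm_num

section

variable {T : H →L[ℂ] H} (h : meanAluthge T = T)

include h

theorem fixD_ker {x : H} : CFC.abs (aluthge (1 / 2) T) x = 0 ↔ CFC.abs T x = 0 := by
  constructor
  · intro hx
    have h1 := congrArg (fun A : H →L[ℂ] H => A x) (fixD_eq h)
    set Y := aluthge (1 / 2) T with hY
    have hW : polarPart Y x = 0 := (polarPart_apply_eq_zero Y x).2 ((abs_apply_eq_zero Y x).1 hx)
    change polarPart Y (CFC.abs Y x) + CFC.abs Y (polarPart Y x) = T x + T x at h1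
    rw [hx, hW, map_zero, map_zero, add_zero] at h1
    have h3 : (2 : ℂ) • T x = 0 := by rw [two_smul]; exact h1.symm
    exact (abs_apply_eq_zero T x).2 ((smul_eq_zero.1 h3).resolve_left (by norm_num))
  · intro hx
    rw [abs_apply_eq_zero, aluthge_half]
    have : (CFC.abs T ^ (1 / 2 : ℝ)) x = 0 :=
      rpow_apply_eq_zero (CFC.abs_nonneg T) (by norm_num) hx
    rw [mulA, this, map_zero]

theorem fixD_W_ker {x : H} (hx : CFC.abs T x = 0) : polarPart (aluthge (1 / 2) T) x = 0 :=
  (polarPart_apply_eq_zero _ x).2 ((abs_apply_eq_zero _ x).1 ((fixD_ker h).2 hx))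

theorem fixD_PW : star (polarPart T) * polarPart T * polarPart (aluthge (1 / 2) T)
    = polarPart (aluthge (1 / 2) T) := by
  refine cancel_eq (abs_isSA (aluthge (1 / 2) T)) ?_ ?_
  · rw [mul_assoc, polarPart_mul_abs, aluthge_half, ← mul_assoc, ← mul_assoc,
      supp_mul_abs_rpow T (by norm_num)]
  · intro x hx
    have := fixD_W_ker h ((fixD_ker h).1 hx)
    rw [mulA, this, map_zero]

theorem fixD_PR : star (polarPart T) * polarPart T * CFC.abs (aluthge (1 / 2) T)
    = CFC.abs (aluthge (1 / 2) T) := by
  have h1 : CFC.abs (aluthge (1 / 2) T) * (star (polarPart T) * polarPart T)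
      = CFC.abs (aluthge (1 / 2) T) := by
    ext z
    have h2 : CFC.abs T (z - (star (polarPart T) * polarPart T) z) = 0 := by
      have := congrArg (fun A : H →L[ℂ] H => A z) (abs_mul_star_polar_mul T)
      rw [map_sub, sub_eq_zero]
      exact this.symm
    have h3 := (fixD_ker h).2 h2
    rw [map_sub, sub_eq_zero] at h3
    exact h3.symm
  have := congrArg star h1
  simpa [star_mul, abs_isSA, mul_assoc] using this

theorem fixD_PT : star (polarPart T) * polarPart T * T = T := by
  have h1 := fixD_eq h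
  have h2 : star (polarPart T) * polarPart T * (T + T) = T + T := by
    nth_rw 1 [← h1]
    rw [mul_add, ← mul_assoc, fixD_PW h, ← mul_assoc, fixD_PR h, h1]
  rw [mul_add, ← two_smul ℂ, ← two_smul ℂ] at h2
  exact smul_right_injective _ (by norm_num : (2 : ℂ) ≠ 0) h2

theorem fixD_PV : star (polarPart T) * polarPart T * polarPart T = polarPart T := by
  refine cancel_eq (abs_isSA T) ?_ ?_
  · rw [mul_assoc, polarPart_mul_abs, fixD_PT h]
  · intro x hx
    rw [mulA, (polarPart_apply_eq_zero T x).2 ((abs_apply_eq_zero T x).1 hx), map_zero]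

theorem fixD_normal (hV : polarPart T * star (polarPart T) = star (polarPart T) * polarPart T) :
    star T * T = T * star T := by
  set S := CFC.abs T with hS
  set V := polarPart T with hVdef
  set Z := S ^ (1 / 2 : ℝ) with hZ
  set P := star V * V with hP
  set Y := aluthge (1 / 2) T with hY
  set R := CFC.abs Y with hR
  set W := polarPart Y with hW
  have hSn : 0 ≤ S := CFC.abs_nonneg T
  have hSs : star S = S := hSn.star_eq
  have hZn : 0 ≤ Z := CFC.rpow_nonneg
  have hZs : star Z = Z := star_rpow S _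
  have hZZ : Z * Z = S := half_mul_half hSn
  have hRs : star R = R := abs_isSA Y
  have hVS : V * S = T := polarPart_mul_abs T
  have hWR : W * R = Y := polarPart_mul_abs Y
  have hYZ : Z * V * Z = Y := (aluthge_half T).symm
  have hPZ : P * Z = Z := supp_mul_abs_rpow T (by norm_num)
  have hZP : Z * P = Z := abs_rpow_mul_supp T (by norm_num)
  have hPS : P * S = S := polarPart_isSupp T
  have hPV : P * V = V := fixD_PV h
  have hVP : V * P = V := by rw [hP, ← mul_assoc]; exact polarPart_pi T
  have hPR : P * R = R := fixD_PR h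
  have hfix : W * R + R * W = T + T := fixD_eq h
  have hkillV : ∀ x, S x = 0 → V x = 0 := fun x hx =>
    (polarPart_apply_eq_zero T x).2 ((abs_apply_eq_zero T x).1 hx)
  have hkillP : ∀ x, S x = 0 → P x = 0 := fun x hx => by
    rw [hP, mulA, hkillV x hx, map_zero]
  have hkerZ : ∀ x, Z x = 0 → S x = 0 := fun x hx =>
    apply_eq_zero_of_rpow hSn (by norm_num) (by norm_num) hx
  have hZker : ∀ x, S x = 0 → Z x = 0 := fun x hx =>
    rpow_apply_eq_zero hSn (by norm_num) hx
  -- `W W* P = P`
  have hWWP : W * star W * P = P := by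
    have a1 : W * star W * Y = Y := by
      rw [← hWR, ← mul_assoc, polarPart_pi Y]
    have a2 : W * star W * (Z * V) = Z * V := by
      refine cancel_eq hZs ?_ ?_
      · rw [mul_assoc, hYZ, a1]
      · intro x hx
        show (W * star W) (Z (V x)) = Z (V x)
        rw [hkillV x (hkerZ x hx), map_zero, map_zero]
    have a3 : W * star W * Z = Z := by
      calc W * star W * Z = W * star W * (Z * (V * star V)) := by rw [hV, hZP]
        _ = W * star W * (Z * V) * star V := by simp only [mul_assoc]
        _ = Z * (V * star V) := by rw [a2, mul_assoc]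
        _ = Z := by rw [hV, hZP]
    refine cancel_eq hZs ?_ ?_
    · rw [mul_assoc, hPZ, a3]
    · intro x hx
      have := hkillP x (hkerZ x hx)
      rw [mulA, this, map_zero]
  have hWWV : W * star W * V = V := by
    calc W * star W * V = W * star W * P * V := by rw [mul_assoc _ P V, hPV]
      _ = V := by rw [hWWP, hPV]
  -- `W = V`
  have hK : star W * V * S = (1 / 2 : ℝ) • (R + star W * R * W) := by
    have a1 : star W * V * S + star W * V * S = R + star W * R * W := by
      rw [mul_assoc, hVS, ← mul_add, ← hfix, mul_add, ← mul_assoc, ← mul_assoc,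
        polarPart_isSupp Y]
    rw [← a1, ← two_smul ℝ (star W * V * S), smul_smul]; norm_num
  have hKn : 0 ≤ star W * V * S := by
    rw [hK]
    exact smul_nonneg (by norm_num)
      (add_nonneg (CFC.abs_nonneg Y) (star_left_conjugate_nonneg (CFC.abs_nonneg Y) W))
  have hKS : star W * V * S = S := by
    have a1 : (star W * V * S) * (star W * V * S) = S * S := by
      calc (star W * V * S) * (star W * V * S) = star (star W * V * S) * (star W * V * S) := by
            rw [hKn.star_eq]
        _ = S * (star V * (W * star W * V)) * S := by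
            simp only [star_mul, star_star, hSs]; simp only [mul_assoc]
        _ = S * S := by rw [hWWV, ← hP, abs_mul_star_polar_mul T]
    calc star W * V * S = CFC.sqrt ((star W * V * S) * (star W * V * S)) :=
          (CFC.sqrt_mul_self _ hKn).symm
      _ = CFC.sqrt (S * S) := by rw [a1]
      _ = S := CFC.sqrt_mul_self S hSn
  have hVW : V = W := by
    refine cancel_eq hSs ?_ ?_
    · calc V * S = W * star W * V * S := by rw [hWWV]
        _ = W * (star W * V * S) := by simp only [mul_assoc]
        _ = W * S := by rw [hKS]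
    · intro x hx
      rw [hkillV x hx, fixD_W_ker h hx]
  rw [← hVW] at hWR hfix
  set b := star V * Z * V with hb
  have hbn : 0 ≤ b := star_left_conjugate_nonneg hZn V
  have hbs : star b = b := hbn.star_eq
  have hRb : b * Z = R := by
    calc b * Z = star V * (Z * V * Z) := by rw [hb]; simp only [mul_assoc]
      _ = star V * (V * R) := by rw [hYZ, hWR]
      _ = P * R := by rw [hP]; simp only [mul_assoc]
      _ = R := hPR
  have hbZ : Commute b Z := by
    have := congrArg star hRb
    rw [star_mul b Z, hZs, hbs, hRs, ← hRb] at this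
    exact this.symm
  set c := star V * b * V with hc
  have hPV' : star V * P = star V := by
    have := congrArg star hPV
    rw [star_mul] at this
    rwa [hP, star_mul, star_star, ← hP] at this
  have hVRV1 : star V * R * V = c * b := by
    calc star V * R * V = star V * b * (P * Z) * V := by rw [hPZ, ← hRb]; simp only [mul_assoc]
      _ = star V * b * (V * star V) * Z * V := by rw [hV, hP]; simp only [mul_assoc]
      _ = c * b := by rw [hc, hb]; simp only [mul_assoc]
  have hVRV2 : star V * R * V = b * c := by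
    calc star V * R * V = star V * (Z * P) * b * V := by rw [hZP, ← hRb, hbZ.eq]; simp only [mul_assoc]
      _ = star V * Z * (V * star V) * b * V := by rw [hV, hP]; simp only [mul_assoc]
      _ = b * c := by rw [hc, hb]; simp only [mul_assoc]
  have hcb : Commute c b := hVRV1.symm.trans hVRV2
  have h2S : S + S = b * Z + c * b := by
    have a1 := congrArg (fun A => star V * A) hfix
    simp only [mul_add] at a1
    rw [← hVS] at a1
    calc S + S = star V * (V * S) + star V * (V * S) := by rw [← mul_assoc, ← hP, hPS]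
      _ = star V * (V * R) + star V * (R * V) := a1.symm
      _ = P * R + star V * R * V := by rw [hP]; simp only [mul_assoc]
      _ = b * Z + c * b := by rw [hPR, hVRV1, hRb]
  set d0 := b - Z with hd0
  set d1 := c - b with hd1
  have hd0Z : Commute d0 Z := hbZ.sub_left (Commute.refl Z)
  have hd0b : Commute d0 b := (Commute.refl b).sub_left hbZ.symm
  have hd1b : d1 * b = -((Z + Z + b) * d0) := by
    have e1 : d1 * b = c * b - b * b := by rw [hd1, sub_mul]
    have e2 : c * b = Z * Z + Z * Z - b * Z := by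
      rw [hZZ, h2S]; abel
    rw [e1, e2, hd0]
    have : (Z + Z + b) * (b - Z) = (Z * b + Z * b - b * Z) + b * b - (Z * Z + Z * Z) := by
      noncomm_ring
    rw [this, hbZ.eq]; abel
  set u0 := Z * d0 with hu0
  have hd0s : star d0 = d0 := by rw [hd0, star_sub, hbs, hZs]
  have hu0s : star u0 = u0 := by rw [hu0, star_mul Z d0, hd0s, hZs]; exact hd0Z
  have hu0P : u0 * P = u0 := by rw [hu0, ← hd0Z.eq, mul_assoc, hZP]
  have hd1V : star V * d0 * V = d1 := by rw [hd1, hc, hd0, hb]; noncomm_ring
  have hu1 : star V * u0 * V = -((Z + Z + b) * d0) := by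
    calc star V * u0 * V = star V * (Z * P) * d0 * V := by rw [hZP, hu0]; simp only [mul_assoc]
      _ = star V * Z * (V * star V) * d0 * V := by rw [hV, hP]; simp only [mul_assoc]
      _ = b * (star V * d0 * V) := by rw [hb]; simp only [mul_assoc]
      _ = b * d1 := by rw [hd1V]
      _ = d1 * b := by rw [hd1]; exact ((hcb.sub_left (Commute.refl b)).eq).symm
      _ = _ := hd1b
  set g := Z + Z + b with hg
  have hgd : Commute g d0 := ((hd0Z.add_right hd0Z).add_right hd0b).symm
  have hu1sq : star V * (u0 * u0) * V = g * g * (d0 * d0) := by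
    calc star V * (u0 * u0) * V = star V * (u0 * P * u0) * V := by rw [hu0P]
      _ = star V * u0 * (V * star V) * u0 * V := by rw [hV, hP]; simp only [mul_assoc]
      _ = (star V * u0 * V) * (star V * u0 * V) := by simp only [mul_assoc]
      _ = (g * d0) * (g * d0) := by rw [hu1]; noncomm_ring
      _ = g * (d0 * g) * d0 := by simp only [mul_assoc]
      _ = g * (g * d0) * d0 := by rw [hgd.eq]
      _ = _ := by simp only [mul_assoc]
  have hu0sq : u0 * u0 = Z * Z * (d0 * d0) := by
    calc u0 * u0 = Z * (d0 * Z) * d0 := by rw [hu0]; simp only [mul_assoc]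
      _ = _ := by rw [hd0Z.eq]; simp only [mul_assoc]
  have hineq : (4 : ℝ) • (u0 * u0) ≤ star V * (u0 * u0) * V := by
    rw [hu1sq, hu0sq, ← sub_nonneg]
    have e3 : g * g * (d0 * d0) - (4 : ℝ) • (Z * Z * (d0 * d0))
        = ((4 : ℝ) • (Z * b) + b * b) * (d0 * d0) := by
      have : g * g = (4 : ℝ) • (Z * Z) + ((4 : ℝ) • (Z * b) + b * b) := by
        rw [hg]
        have e4 : (Z + Z + b) * (Z + Z + b) = (Z * Z + Z * Z + Z * Z + Z * Z) +
          ((Z * b + Z * b + b * Z + b * Z) + b * b) := by noncomm_ring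
        rw [e4, hbZ.eq]
        module
      rw [this, add_mul, smul_mul_assoc]; abel
    rw [e3]
    have c1 : Commute ((4 : ℝ) • (Z * b) + b * b) (d0 * d0) := by
      have k1 : Commute (Z * b) (d0 * d0) :=
        (hd0Z.symm.mul_left hd0b.symm).mul_right (hd0Z.symm.mul_left hd0b.symm)
      have k2 : Commute (b * b) (d0 * d0) :=
        (hd0b.symm.mul_left hd0b.symm).mul_right (hd0b.symm.mul_left hd0b.symm)
      exact (k1.smul_left _).add_left k2
    refine c1.mul_nonneg (add_nonneg (smul_nonneg (by norm_num)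
      (hbZ.symm.mul_nonneg hZn hbn)) ?_) ?_
    · have := star_mul_self_nonneg b
      rwa [hbs] at this
    · have := star_mul_self_nonneg d0
      rwa [hd0s] at this
  have hu0n : 0 ≤ u0 * u0 := by
    have := star_mul_self_nonneg u0
    rwa [hu0s] at this
  have hVn : ‖V‖ ≤ 1 := by
    have h1 : ‖star V * V‖ = ‖V‖ * ‖V‖ := CStarRing.norm_star_mul_self
    have h2 : ‖V‖ ≤ ‖V‖ * ‖V‖ * ‖V‖ := by
      calc ‖V‖ = ‖V * star V * V‖ := by rw [polarPart_pi T]
        _ ≤ ‖V * star V‖ * ‖V‖ := norm_mul_le _ _
        _ ≤ ‖V‖ * ‖star V‖ * ‖V‖ := by gcongr; exact norm_mul_le _ _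
        _ = _ := by rw [norm_star]
    have h3 : ‖P‖ * ‖P‖ = ‖P‖ := by
      have hPs : star P = P := by rw [hP, star_mul, star_star]
      have hPP : P * P = P := by
        calc P * P = star V * (V * star V * V) := by rw [hP]; simp only [mul_assoc]
          _ = P := by rw [polarPart_pi T]
      have h4 : ‖star P * P‖ = ‖P‖ * ‖P‖ := CStarRing.norm_star_mul_self
      rw [← h4, hPs, hPP]
    have h5 : ‖P‖ = ‖V‖ * ‖V‖ := h1
    rw [h5] at h3
    exact fixD_real2 (norm_nonneg V) h3
  have hu0z : u0 * u0 = 0 := by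
    have k1 : ‖(4 : ℝ) • (u0 * u0)‖ ≤ ‖star V * (u0 * u0) * V‖ :=
      CStarAlgebra.norm_le_norm_of_nonneg_of_le (smul_nonneg (by norm_num) hu0n) hineq
    have k2 : ‖star V * (u0 * u0) * V‖ ≤ ‖u0 * u0‖ := by
      calc ‖star V * (u0 * u0) * V‖ ≤ ‖star V * (u0 * u0)‖ * ‖V‖ := norm_mul_le _ _
        _ ≤ ‖star V‖ * ‖u0 * u0‖ * ‖V‖ := by gcongr; exact norm_mul_le _ _
        _ ≤ 1 * ‖u0 * u0‖ * 1 := by rw [norm_star]; gcongr
        _ = _ := by ring
    rw [norm_smul, Real.norm_eq_abs, fixD_real3] at k1
    exact norm_eq_zero.1 (fixD_real1 k1 k2 (norm_nonneg _))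
  have hu00 : u0 = 0 := by
    rw [← CStarRing.star_mul_self_eq_zero_iff, hu0s, hu0z]
  have hd00 : d0 = 0 := by
    refine cancel hZs (by rw [hd0Z.eq]; exact hu00) ?_
    intro x hx
    show star V (Z (V x)) - Z x = 0
    rw [hkillV x (hkerZ x hx), map_zero, map_zero, hx, sub_zero]
  have hbeq : star V * Z * V = Z := sub_eq_zero.1 hd00
  have hZV : Commute Z V := by
    have a1 : V * star V * (Z * V) = V * Z := by
      calc V * star V * (Z * V) = V * (star V * Z * V) := by simp only [mul_assoc]
        _ = V * Z := by rw [hbeq]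
    rw [hV, ← mul_assoc, hPZ] at a1
    exact a1
  have hSV : Commute S V := by rw [← hZZ]; exact hZV.mul_left hZV
  have hSVs : Commute S (star V) := by
    have := congrArg star hSV.eq
    rw [star_mul S V, star_mul V S, hSs] at this
    exact this.symm
  calc star T * T = S * S := (CFC.abs_mul_abs T).symm
    _ = P * S * S := by rw [hPS]
    _ = V * star V * S * S := by rw [hV]
    _ = V * (star V * S) * S := by simp only [mul_assoc]
    _ = V * (S * star V) * S := by rw [hSVs.eq]
    _ = V * S * (star V * S) := by simp only [mul_assoc]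
    _ = V * S * (S * star V) := by rw [hSVs.eq]
    _ = T * star T := by rw [← hVS, star_mul V S, hSs]

end

end Pool.Agent.Work.MP_11cc5c_an
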