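import Pool.Agent.Work.MP_11cc5c_an.Transforms

/-! Square-zero operators and the transforms. -/

set_option linter.unusedSectionVars false

namespace Pool.Agent.Work.MP_11cc5c_an

open ContinuousLinearMap
open scoped NNReal

variable {H : Type*} [NormedAddCommGroup H] [InnerProductSpace ℂ H] [CompleteSpace H]

theorem SVS_of_sq {T : H →L[ℂ] H} (h : T * T = 0) :
    CFC.abs T * polarPart T * CFC.abs T = 0 := by
  set S := CFC.abs T with hS
  set V := polarPart T with hV
  have hT : V * S = T := polarPart_mul_abs T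
  have h1 : V * (S * V * S) = 0 := by
    rw [← h, ← hT]; noncomm_ring
  have h2 : star V * V * S = S := polarPart_isSupp T
  calc S * V * S = star V * V * S * V * S := by rw [h2]
    _ = star V * (V * (S * V * S)) := by noncomm_ring
    _ = 0 := by rw [h1, mul_zero]

theorem SV_of_sq {T : H →L[ℂ] H} (h : T * T = 0) :
    CFC.abs T * polarPart T = 0 := by
  refine cancel (abs_isSA T) (SVS_of_sq h) ?_
  intro x hx
  rw [mulA, (polarPart_apply_eq_zero T x).2 ((abs_apply_eq_zero T x).1 hx), map_zero]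

theorem sq_of_SV {T : H →L[ℂ] H} (h : CFC.abs T * polarPart T = 0) : T * T = 0 := by
  calc T * T = polarPart T * CFC.abs T * (polarPart T * CFC.abs T) := by
        rw [polarPart_mul_abs T]
    _ = polarPart T * (CFC.abs T * polarPart T) * CFC.abs T := by noncomm_ring
    _ = 0 := by rw [h]; simp

theorem aluthge_of_sq {l : ℝ} (h0 : 0 < l) {T : H →L[ℂ] H} (h : T * T = 0) :
    aluthge l T = 0 := by
  set S := CFC.abs T with hS
  have hSn : 0 ≤ S := CFC.abs_nonneg T
  have key : S ^ l * polarPart T = 0 := by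
    ext x
    have : S (polarPart T x) = 0 := by
      have := congrArg (fun A : H →L[ℂ] H => A x) (SV_of_sq h)
      exact this
    exact rpow_apply_eq_zero hSn h0 this
  rw [aluthge, ← hS, key, zero_mul]

theorem meanT_of_sq {T : H →L[ℂ] H} (h : T * T = 0) : meanT T = (1 / 2 : ℂ) • T := by
  rw [meanT, SV_of_sq h, add_zero]

theorem sq_of_meanT {T : H →L[ℂ] H} (h : meanT T = (1 / 2 : ℂ) • T) : T * T = 0 := by
  apply sq_of_SV
  rw [meanT, smul_add, add_eq_left] at h
  exact (smul_eq_zero.1 h).resolve_left (by norm_num)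

theorem Mtr_of_sq {l : ℝ} (h0 : 0 < l) (h1 : l < 1) {T : H →L[ℂ] H} (h : T * T = 0) :
    Mtr l T = 0 := by
  rw [Mtr, aluthge_of_sq h0 h, aluthge_of_sq (by linarith) h]; simp

theorem meanAluthge_of_sq {T : H →L[ℂ] H} (h : T * T = 0) :
    meanAluthge T = 0 := by
  rw [meanAluthge, aluthge_of_sq (by norm_num) h]; simp [meanT, polarPart_zero]

theorem eq_zero_of_meanT {Y : H →L[ℂ] H} (h : meanT Y = 0) : Y = 0 := by
  set R := CFC.abs Y with hR
  set W := polarPart Y with hW
  have hWR : W * R = Y := polarPart_mul_abs Y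
  have h1 : W * R + R * W = 0 := by
    rw [meanT] at h
    rw [hWR]
    exact (smul_eq_zero.1 h).resolve_left (by norm_num)
  have h2 : R + star W * R * W = 0 := by
    have := congrArg (fun A => star W * A) h1
    simp only [mul_add, mul_zero, ← mul_assoc] at this
    rwa [polarPart_isSupp] at this
  have hRn : 0 ≤ R := CFC.abs_nonneg Y
  have h3 : 0 ≤ star W * R * W := star_left_conjugate_nonneg hRn W
  have h4 : R = 0 := by
    refine le_antisymm ?_ hRn
    rw [← h2]; exact le_add_of_nonneg_right h3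
  rw [← hWR, h4, mul_zero]

theorem sq_of_meanAluthge {T : H →L[ℂ] H} (h : meanAluthge T = 0) : T * T = 0 := by
  have h1 := eq_zero_of_meanT h
  set S := CFC.abs T with hS
  have hSn : 0 ≤ S := CFC.abs_nonneg T
  have hs : S ^ (1 / 2 : ℝ) * S ^ (1 / 2 : ℝ) = S := by
    have := rpow_mul_rpow_sub hSn (a := 1 / 2) (by norm_num) (by norm_num)
    rwa [show (1 : ℝ) - 1 / 2 = 1 / 2 by norm_num] at this
  rw [aluthge, show (1 : ℝ) - 1 / 2 = 1 / 2 by norm_num, ← hS] at h1
  calc T * T = polarPart T * S * (polarPart T * S) := by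
        rw [polarPart_mul_abs T]
    _ = polarPart T * (S ^ (1 / 2 : ℝ) * S ^ (1 / 2 : ℝ)) *
        (polarPart T * (S ^ (1 / 2 : ℝ) * S ^ (1 / 2 : ℝ))) := by rw [hs]
    _ = polarPart T * S ^ (1 / 2 : ℝ) * (S ^ (1 / 2 : ℝ) * polarPart T * S ^ (1 / 2 : ℝ))
        * S ^ (1 / 2 : ℝ) := by noncomm_ring
    _ = 0 := by rw [h1]; simp

theorem polar_kills_rpow {T : H →L[ℂ] H} (a : ℝ) {x : H} (hx : CFC.abs T x = 0) :
    polarPart T ((CFC.abs T ^ a) x) = 0 := by
  rw [polarPart_apply_eq_zero, ← abs_apply_eq_zero]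
  have h : CFC.abs T * CFC.abs T ^ a = CFC.abs T ^ a * CFC.abs T :=
    ((comm_rpow (Commute.refl (CFC.abs T)) a).symm).eq
  have := congrArg (fun A : H →L[ℂ] H => A x) h
  simp only [mulA] at this
  rw [this, hx, map_zero]

theorem sq_of_Mtr {l : ℝ} (h0 : 0 < l) (h1 : l ≤ 1 / 2) {T : H →L[ℂ] H} (h : Mtr l T = 0) :
    T * T = 0 := by
  set S := CFC.abs T with hS
  set V := polarPart T with hV
  have hSn : 0 ≤ S := CFC.abs_nonneg T
  have hxy : S ^ (1 - l) = S ^ (1 - 2 * l) * S ^ l := by
    rw [← rpow_add_nonneg (by linarith) h0.le]; congr 1; ring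
  have e1 : S ^ l * V * S ^ (1 - l) + S ^ (1 - l) * V * S ^ l = 0 := by
    rw [Mtr, aluthge, aluthge, show (1 : ℝ) - (1 - l) = l by ring] at h
    exact (smul_eq_zero.1 h).resolve_left (by norm_num)
  have e2 : S ^ l * V * S ^ (1 - 2 * l) + S ^ (1 - l) * V = 0 := by
    refine cancel (star_rpow S l) ?_ ?_
    · rw [add_mul, mul_assoc (S ^ l * V), ← hxy, e1]
    · intro x hx
      have hx' : S x = 0 := apply_eq_zero_of_rpow hSn h0.le (by linarith) hx
      have hV : V x = 0 := by rwa [polarPart_apply_eq_zero, ← abs_apply_eq_zero]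
      have hV2 : V ((S ^ (1 - 2 * l)) x) = 0 := polar_kills_rpow _ hx'
      show (S ^ l) (V ((S ^ (1 - 2 * l)) x)) + (S ^ (1 - l)) (V x) = 0
      rw [hV, hV2, map_zero, map_zero, add_zero]
  set a := star V * S ^ l * V with ha
  set b := star V * S ^ (1 - l) * V with hb
  have han : 0 ≤ a := star_left_conjugate_nonneg CFC.rpow_nonneg V
  have hbn : 0 ≤ b := star_left_conjugate_nonneg CFC.rpow_nonneg V
  have e3 : a * S ^ (1 - 2 * l) = -b := by
    have := congrArg (fun A => star V * A) e2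
    simp only [mul_add, mul_zero, ← mul_assoc] at this
    exact eq_neg_of_add_eq_zero_left this
  have hcomm : Commute a (S ^ (1 - 2 * l)) := by
    have := congrArg star e3
    rw [star_mul, star_neg, han.star_eq, hbn.star_eq, star_rpow, ← e3] at this
    exact this.symm
  have hb0 : b = 0 := by
    refine le_antisymm ?_ hbn
    have h5 : 0 ≤ a * S ^ (1 - 2 * l) := hcomm.mul_nonneg han CFC.rpow_nonneg
    rw [e3] at h5
    exact neg_nonneg.mp h5
  have hq : S ^ ((1 - l) / 2) * V = 0 := by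
    rw [← CStarRing.star_mul_self_eq_zero_iff, star_mul, star_rpow]
    have : S ^ ((1 - l) / 2) * S ^ ((1 - l) / 2) = S ^ (1 - l) := by
      rw [← rpow_add_nonneg (by linarith) (by linarith)]; congr 1; ring
    calc star V * S ^ ((1 - l) / 2) * (S ^ ((1 - l) / 2) * V)
        = star V * (S ^ ((1 - l) / 2) * S ^ ((1 - l) / 2)) * V := by noncomm_ring
      _ = 0 := by rw [this]; exact hb0
  apply sq_of_SV
  change S * V = 0
  have hS2 := rpow_sub_mul_rpow hSn (a := (1 - l) / 2) (by linarith) (by linarith)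
  calc S * V = S ^ (1 - (1 - l) / 2) * S ^ ((1 - l) / 2) * V := by rw [hS2]
    _ = 0 := by rw [mul_assoc, hq, mul_zero]

end Pool.Agent.Work.MP_11cc5c_an
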