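import Pool.Agent.Work.MP_11cc5c_an.Bern
import Pool.Agent.Work.MP_11cc5c_an.SquareZero

/-! Fixed points of `M_l` are quasinormal. -/

set_option linter.unusedSectionVars false

namespace Pool.Agent.Work.MP_11cc5c_an

open ContinuousLinearMap Filter
open scoped NNReal Topology unitInterval

variable {H : Type*} [NormedAddCommGroup H] [InnerProductSpace ℂ H] [CompleteSpace H]

theorem abs_rpow_mul_supp (T : H →L[ℂ] H) {a : ℝ} (ha : 0 < a) :
    CFC.abs T ^ a * (star (polarPart T) * polarPart T) = CFC.abs T ^ a := by
  ext z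
  set P := star (polarPart T) * polarPart T with hP
  have h1 : CFC.abs T (z - P z) = 0 := by
    have := congrArg (fun A : H →L[ℂ] H => A z) (abs_mul_star_polar_mul T)
    simp only [mulA] at this
    rw [map_sub, sub_eq_zero]
    exact this.symm
  have h2 := rpow_apply_eq_zero (CFC.abs_nonneg T) ha h1
  rw [map_sub, sub_eq_zero] at h2
  exact h2.symm

theorem supp_mul_abs_rpow (T : H →L[ℂ] H) {a : ℝ} (ha : 0 < a) :
    (star (polarPart T) * polarPart T) * CFC.abs T ^ a = CFC.abs T ^ a := by
  have := congrArg star (abs_rpow_mul_supp T ha)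
  simpa [star_mul, star_rpow, mul_assoc] using this

theorem comm_of_rpow {A S : H →L[ℂ] H} (hS : 0 ≤ S) {a : ℝ} (ha : 0 < a)
    (h : Commute (S ^ a) A) : Commute S A := by
  have := comm_rpow h (1 / a)
  rwa [CFC.rpow_rpow_of_exponent_nonneg S a (1 / a) ha.le (by positivity),
    mul_one_div_cancel ha.ne', CFC.rpow_one S hS] at this

/-- `(S^l - r^l)(S^(1-l) - r^(1-l)) ≥ 0`. -/
theorem cheb_pos {S : H →L[ℂ] H} (hS : 0 ≤ S) {l : ℝ} (h0 : 0 < l) (h1 : l < 1) {t : ℝ}
    (ht : 0 ≤ t) :
    0 ≤ S - (t ^ (1 - l)) • S ^ l - (t ^ l) • S ^ (1 - l) + t • (1 : H →L[ℂ] H) := by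
  have hpw : ∀ a : ℝ, 0 < a → ContinuousOn (fun x : ℝ => x ^ a) (spectrum ℝ S) := by
    intro a ha
    apply ContinuousOn.rpow_const continuousOn_id
    intro x _; exact Or.inr ha.le
  have hl := hpw l h0
  have hl' := hpw (1 - l) (by linarith)
  have e : S - (t ^ (1 - l)) • S ^ l - (t ^ l) • S ^ (1 - l) + t • (1 : H →L[ℂ] H)
      = cfc (fun x : ℝ => x - t ^ (1 - l) • x ^ l - t ^ l • x ^ (1 - l) + t • 1) S := by
    rw [cfc_add (a := S) (fun x : ℝ => x - t ^ (1 - l) • x ^ l - t ^ l • x ^ (1 - l))
        (fun _ : ℝ => t • (1 : ℝ)) (by fun_prop) (by fun_prop),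
      cfc_sub (fun x : ℝ => x - t ^ (1 - l) • x ^ l) (fun x : ℝ => t ^ l • x ^ (1 - l)) S
        (by fun_prop) (by fun_prop),
      cfc_sub (fun x : ℝ => x) (fun x : ℝ => t ^ (1 - l) • x ^ l) S
        (by fun_prop) (by fun_prop),
      cfc_smul (t ^ (1 - l)) (fun x : ℝ => x ^ l) S hl, cfc_smul (t ^ l) (fun x : ℝ => x ^ (1 - l)) S hl',
      cfc_smul t (fun _ : ℝ => (1 : ℝ)) S (by fun_prop), cfc_const_one ℝ S hS.isSelfAdjoint,
      cfc_id' ℝ S hS.isSelfAdjoint, CFC.rpow_eq_cfc_real hS, CFC.rpow_eq_cfc_real hS]
  rw [e]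
  refine cfc_nonneg fun x hx => ?_
  have hx0 : 0 ≤ x := spectrum_nonneg_of_nonneg hS hx
  have hxx : x ^ l * x ^ (1 - l) = x := by
    rw [← Real.rpow_add_of_nonneg hx0 h0.le (by linarith), add_sub_cancel, Real.rpow_one]
  have htt : t ^ l * t ^ (1 - l) = t := by
    rw [← Real.rpow_add_of_nonneg ht h0.le (by linarith), add_sub_cancel, Real.rpow_one]
  have e2 : x - t ^ (1 - l) • x ^ l - t ^ l • x ^ (1 - l) + t • 1
      = (x ^ l - t ^ l) * (x ^ (1 - l) - t ^ (1 - l)) := by
    simp only [smul_eq_mul]
    nth_rw 1 [← hxx]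
    nth_rw 3 [← htt]
    ring
  rw [e2]
  rcases le_total x t with h | h
  · have a1 : x ^ l ≤ t ^ l := Real.rpow_le_rpow hx0 h h0.le
    have a2 : x ^ (1 - l) ≤ t ^ (1 - l) := Real.rpow_le_rpow hx0 h (by linarith)
    nlinarith
  · have a1 : t ^ l ≤ x ^ l := Real.rpow_le_rpow ht h h0.le
    have a2 : t ^ (1 - l) ≤ x ^ (1 - l) := Real.rpow_le_rpow ht h (by linarith)
    nlinarith

theorem fixM_comm_interior {l : ℝ} (h0 : 0 < l) (h1 : l < 1 / 2) {T : H →L[ℂ] H}
    (h : Mtr l T = T) : Commute (CFC.abs T) (polarPart T) := by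
  set S := CFC.abs T with hS
  set V := polarPart T with hV
  have hSn : 0 ≤ S := CFC.abs_nonneg T
  set x := S ^ l with hx
  set y := S ^ (1 - l) with hy
  set m := S ^ (1 - 2 * l) with hm
  set P := star V * V with hP
  have hxs : star x = x := star_rpow S l
  have hys : star y = y := star_rpow S _
  have hms : star m = m := star_rpow S _
  have hmx : m * x = y := by
    rw [hm, hx, hy, ← rpow_add_nonneg (by linarith) h0.le]; congr 1; ring
  have hxm : x * m = y := by
    rw [hm, hx, hy, ← rpow_add_nonneg h0.le (by linarith)]; congr 1; ring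
  have hxy : x * y = S := rpow_mul_rpow_sub hSn h0.le (by linarith)
  have hyx : y * x = S := rpow_sub_mul_rpow hSn h0.le (by linarith)
  have hPy : P * y = y := supp_mul_abs_rpow T (by linarith)
  have hPx : P * x = x := supp_mul_abs_rpow T h0
  have hVT : V * S = T := polarPart_mul_abs T
  have hkill : ∀ z, S z = 0 → V z = 0 := fun z hz =>
    (polarPart_apply_eq_zero T z).2 ((abs_apply_eq_zero T z).1 hz)
  -- (1)
  have e1 : x * V * y + y * V * x = V * S + V * S := by
    rw [Mtr, aluthge, aluthge, show (1 : ℝ) - (1 - l) = l by ring] at h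
    change (1 / 2 : ℂ) • (x * V * y + y * V * x) = T at h
    rw [hVT, ← h, ← smul_add, ← two_smul ℂ (x * V * y + y * V * x), smul_smul]
    norm_num
  -- (6)
  have e6 : y * V + x * V * m = V * y + V * y := by
    refine cancel_eq hxs ?_ ?_
    · calc (y * V + x * V * m) * x = x * V * (m * x) + y * V * x := by noncomm_ring
        _ = V * S + V * S := by rw [hmx, e1]
        _ = (V * y + V * y) * x := by rw [← hyx]; noncomm_ring
    · intro z hz
      have hz' : S z = 0 := apply_eq_zero_of_rpow hSn h0.le (by linarith) hz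
      have a1 : V z = 0 := hkill z hz'
      have a2 : V (m z) = 0 := polar_kills_rpow _ hz'
      have a3 : V (y z) = 0 := polar_kills_rpow _ hz'
      show y (V z) + x (V (m z)) = V (y z) + V (y z)
      rw [a1, a2, a3, map_zero, map_zero]
  set A := star V * x * V with hA
  set G := star V * y * V with hG
  have hAs : star A = A := by simp only [hA, star_mul, star_star, hxs, mul_assoc]
  have hGs : star G = G := by simp only [hG, star_mul, star_star, hys, mul_assoc]
  have e7 : G + A * m = y + y := by
    have := congrArg (fun B => star V * B) e6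
    simp only [mul_add, ← mul_assoc] at this
    change G + A * m = P * y + P * y at this
    rwa [hPy] at this
  have hmA : Commute m A := by
    have h2 : A * m = y + y - G := by rw [← e7]; abel
    have h3 := congrArg star h2
    rw [star_mul, hAs, hms, star_sub, star_add, hys, hGs, ← h2] at h3
    exact h3
  have hSA : Commute S A := comm_of_rpow hSn (by linarith) hmA
  have hmm : Commute S m := (comm_rpow (Commute.refl S) _).symm
  have hSy : Commute S y := (comm_rpow (Commute.refl S) _).symm
  have hSx : Commute S x := (comm_rpow (Commute.refl S) _).symm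
  have hSG : Commute S G := by
    have h2 : G = y + y - A * m := by rw [← e7]; abel
    rw [h2]
    exact (hSy.add_right hSy).sub_right (hSA.mul_right hmm)
  have hxA : Commute x A := comm_rpow hSA l
  have hyA : Commute y A := comm_rpow hSA _
  -- E1 and B
  set E1 := star V * S * V with hE1
  set B := star V * (x * x) * V with hB
  have hE1s : star E1 = E1 := by
    simp only [hE1, star_mul, star_star, abs_isSA T, hS, mul_assoc]
  have hBs : star B = B := by simp only [hB, star_mul, star_star, hxs, mul_assoc]
  have e8 : E1 + B * m = A * y + A * y := by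
    have := congrArg (fun B => star V * x * B) e6
    simp only [mul_add] at this
    rw [show star V * x * (y * V) = star V * (x * y) * V by noncomm_ring, hxy,
      show star V * x * (x * V * m) = B * m by rw [hB]; noncomm_ring,
      show star V * x * (V * y) = A * y by rw [hA]; noncomm_ring] at this
    exact this
  have hAy : star (A * y) = A * y := by rw [star_mul, hAs, hys]; exact hyA
  have hmB : Commute m B := by
    have h2 : B * m = A * y + A * y - E1 := by rw [← e8]; abel
    have h3 := congrArg star h2
    rw [star_mul, hBs, hms, star_sub, star_add, hAy, hE1s, ← h2] at h3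
    exact h3
  have hSB : Commute S B := comm_of_rpow hSn (by linarith) hmB
  have hSE : Commute S E1 := by
    have h2 : E1 = A * y + A * y - B * m := by rw [← e8]; abel
    rw [h2]
    have h4 := hSA.mul_right hSy
    exact (h4.add_right h4).sub_right (hSB.mul_right hmm)
  -- C and D
  set C := x * V - V * x with hC
  have hD : y * V - V * y = -(C * m) := by
    have : y * V = V * y + V * y - x * V * m := by rw [← e6]; abel
    rw [this, hC, sub_mul, mul_assoc V x m, hxm]; abel
  have hCC : star C * C = B - (A * x + A * x) + x * x := by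
    have h2 : star C = star V * x - x * star V := by
      rw [hC, star_sub, star_mul, star_mul, hxs]
    have h3 : star C * C = B - A * x - x * A + x * (P * x) := by
      rw [h2, hC, hB, hA, hP]; noncomm_ring
    rw [h3, hPx, hxA.eq]; abel
  have hCD : star C * (y * V - V * y) = E1 - y * A - x * G + S * P := by
    have h2 : star C = star V * x - x * star V := by
      rw [hC, star_sub, star_mul, star_mul, hxs]
    have h3 : star C * (y * V - V * y) = star V * (x * y) * V - A * y - x * G + x * (P * y) := by
      rw [h2, hA, hG, hP]; noncomm_ring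
    rw [h3, hPy, hxy, hyA.eq, abs_mul_star_polar_mul T]
  -- positivity
  have hF : 0 ≤ E1 - y * A - x * G + S * P := by
    refine substitute hSn (α := 1 - l) (β := l) (by linarith) h0 hSE hSA hSG ?_ ?_
    · have a1 : S * P = S := abs_mul_star_polar_mul T
      have a2 : P * S = S := polarPart_isSupp T
      exact a1.trans a2.symm
    · intro t ht
      have h3 := star_left_conjugate_nonneg (cheb_pos hSn h0 (by linarith) ht) V
      have h4 : star V * (S - (t ^ (1 - l)) • S ^ l - (t ^ l) • S ^ (1 - l)
          + t • (1 : H →L[ℂ] H)) * V = E1 - (t ^ (1 - l)) • A - (t ^ l) • G + t • P := by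
        simp only [mul_add, mul_sub, add_mul, sub_mul, mul_smul_comm, smul_mul_assoc, mul_one]
        rfl
      rwa [h4] at h3
  have hCCm : Commute (star C * C) m := by
    rw [hCC]
    have hxm' : Commute m x := hmx.trans hxm.symm
    have h5 : Commute m (A * x) := hmA.mul_right hxm'
    exact ((hmB.sub_right (h5.add_right h5)).add_right (hxm'.mul_right hxm')).symm
  have hzero : star C * C * m = 0 := by
    have h6 : 0 ≤ star C * C * m := hCCm.mul_nonneg (star_mul_self_nonneg C) CFC.rpow_nonneg
    have h7 : 0 ≤ -(star C * C * m) := by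
      have : star C * (y * V - V * y) = -(star C * C * m) := by rw [hD]; noncomm_ring
      rw [← this, hCD]; exact hF
    exact le_antisymm (neg_nonneg.mp h7) h6
  have hCm : C * m = 0 := by
    rw [← CStarRing.star_mul_self_eq_zero_iff, star_mul, hms]
    calc m * star C * (C * m) = m * (star C * C * m) := by noncomm_ring
      _ = 0 := by rw [hzero, mul_zero]
  have hC0 : C = 0 := by
    refine cancel hms hCm ?_
    intro z hz
    have hz' : S z = 0 := apply_eq_zero_of_rpow hSn (by linarith) (by linarith) hz
    have a1 : V z = 0 := hkill z hz'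
    have a2 : V (x z) = 0 := polar_kills_rpow _ hz'
    show x (V z) - V (x z) = 0
    rw [a1, a2, map_zero, sub_zero]
  have hxV : Commute x V := sub_eq_zero.mp hC0
  exact comm_of_rpow hSn h0 hxV

theorem fixM_comm {l : ℝ} (h0 : 0 ≤ l) (h1 : l ≤ 1 / 2) {T : H →L[ℂ] H}
    (h : Mtr l T = T) : Commute (CFC.abs T) (polarPart T) := by
  rcases h0.eq_or_lt with rfl | h0
  · rw [Mtr_zero, meanT] at h
    have h2 : T + CFC.abs T * polarPart T = T + T := by
      have h3 := congrArg (fun A => (2 : ℂ) • A) h
      simp only [smul_smul] at h3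
      rw [show (2 : ℂ) * (1 / 2) = 1 by norm_num, one_smul, two_smul] at h3
      exact h3
    have h3 : CFC.abs T * polarPart T = T := add_left_cancel h2
    rw [Commute, SemiconjBy, h3, polarPart_mul_abs]
  rcases h1.eq_or_lt with rfl | h1
  · rw [Mtr_half, aluthge, show (1 : ℝ) - 1 / 2 = 1 / 2 by norm_num] at h
    set S := CFC.abs T with hS
    set V := polarPart T with hV
    have hSn : 0 ≤ S := CFC.abs_nonneg T
    have hs : S ^ (1 / 2 : ℝ) * S ^ (1 / 2 : ℝ) = S := by
      have := rpow_mul_rpow_sub hSn (a := 1 / 2) (by norm_num) (by norm_num)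
      rwa [show (1 : ℝ) - 1 / 2 = 1 / 2 by norm_num] at this
    have h2 : Commute (S ^ (1 / 2 : ℝ)) V := by
      refine cancel_eq (star_rpow S (1 / 2)) ?_ ?_
      · rw [h, mul_assoc, hs, polarPart_mul_abs]
      · intro z hz
        have hz' : S z = 0 := apply_eq_zero_of_rpow hSn (by norm_num) (by norm_num) hz
        have a1 : V z = 0 := (polarPart_apply_eq_zero T z).2 ((abs_apply_eq_zero T z).1 hz')
        rw [mulA, mulA, a1, hz, map_zero, map_zero]
    exact comm_of_rpow hSn (by norm_num) h2
  · exact fixM_comm_interior h0 h1 h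

end Pool.Agent.Work.MP_11cc5c_an
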