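import Pool.Agent.Work.MP_11cc5c_an.ScalarD

/-! The list of properties of the transforms that the main argument uses, and their
verification. -/

set_option linter.unusedSectionVars false

namespace Pool.Agent.Work.MP_11cc5c_an

open ContinuousLinearMap Filter
open scoped NNReal Topology

variable {H : Type*} [NormedAddCommGroup H] [InnerProductSpace ℂ H] [CompleteSpace H]

/-- The properties of a transform used in the main argument. -/
structure Good (Λ : (H →L[ℂ] H) → (H →L[ℂ] H)) : Prop where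
  smul : ∀ (c : ℂ) T, Λ (c • T) = c • Λ T
  conj : ∀ U ∈ unitary (H →L[ℂ] H), ∀ T, Λ (U * T * star U) = U * Λ T * star U
  normal : ∀ T, star T * T = T * star T → Λ T = T
  sq : ∃ θ : ℂ, (∀ T, T * T = 0 → Λ T = θ • T) ∧ ∀ T, Λ T = θ • T → T * T = 0
  shift : ∃ κ₁ κ₂ : ℂ, κ₁ ≠ κ₂ ∧ ∀ a b c : H, ‖a‖ = 1 → ‖b‖ = 1 → ‖c‖ = 1 → inner ℂ a b = 0 →
    inner ℂ b c = 0 → inner ℂ a c = 0 → Λ (rk a b + rk b c) = κ₁ • rk b c + κ₂ • rk a b
  exp : ∃ κ C : ℝ, 0 < κ ∧ 0 ≤ C ∧ ∀ Y : H →L[ℂ] H, ‖Y‖ ≤ 1 / 32 →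
    ‖Λ (1 + Y) - (1 + Y) - κ • (star Y * Y - Y * star Y)‖ ≤ C * ‖Y‖ ^ 3
  mem : ∀ K : StarSubalgebra ℂ (H →L[ℂ] H), IsClosed (K : Set (H →L[ℂ] H)) →
    ∀ T ∈ K, IsUnit T → Λ T ∈ K
  scalar : ∀ Φ : (H →L[ℂ] H) →ₗ[ℂ] (H →L[ℂ] H), Function.Bijective Φ →
    (∀ T, Φ (Λ T) = Λ (Φ T)) → ∃ c : ℂ, Φ 1 = c • (1 : H →L[ℂ] H)

theorem good_Mtr {l : ℝ} (h0 : 0 ≤ l) (h1 : l ≤ 1 / 2) :
    Good (Mtr l : (H →L[ℂ] H) → (H →L[ℂ] H)) where
  smul := Mtr_smul h0 (by linarith)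
  conj := fun U hU T => Mtr_conj h0 (by linarith) hU T
  normal := fun T hT => Mtr_of_normal h0 (by linarith) hT
  sq := by
    rcases h0.eq_or_lt with rfl | h0
    · refine ⟨1 / 2, fun T hT => ?_, fun T hT => ?_⟩
      · rw [Mtr_zero]; exact meanT_of_sq hT
      · rw [Mtr_zero] at hT; exact sq_of_meanT hT
    · refine ⟨0, fun T hT => ?_, fun T hT => ?_⟩
      · rw [Mtr_of_sq h0 (by linarith) hT, zero_smul]
      · rw [zero_smul] at hT; exact sq_of_Mtr h0 h1 hT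
  shift := by
    rcases h0.eq_or_lt with rfl | h0
    · refine ⟨1, 1 / 2, by norm_num, fun a b c ha hb hc hab hbc hac => ?_⟩
      rw [Mtr_zero, meanT_shift ha hb hc hab hbc hac, one_smul, add_comm]
    · refine ⟨1, 0, by norm_num, fun a b c ha hb hc hab hbc hac => ?_⟩
      rw [Mtr_shift ha hb hc hab hbc hac h0 (by linarith), one_smul, zero_smul, add_zero]
  exp := ⟨1 / 4, 28, by norm_num, by norm_num, fun Y hY =>
    Mtr_expansion (by linarith) h0 (by linarith)⟩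
  mem := fun K hK T hT hu => Mtr_mem hK hT hu l
  scalar := fun Φ hΦ hc => Mtr_scalar h0 h1 Φ hΦ hc

theorem good_meanAluthge : Good (meanAluthge : (H →L[ℂ] H) → (H →L[ℂ] H)) where
  smul := meanAluthge_smul
  conj := fun U hU T => meanAluthge_conj hU T
  normal := fun T hT => meanAluthge_of_normal hT
  sq := by
    refine ⟨0, fun T hT => ?_, fun T hT => ?_⟩
    · rw [meanAluthge_of_sq hT, zero_smul]
    · rw [zero_smul] at hT; exact sq_of_meanAluthge hT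
  shift := by
    refine ⟨1 / 2, 0, by norm_num, fun a b c ha hb hc hab hbc hac => ?_⟩
    rw [meanAluthge_shift ha hb hc hab hbc hac, zero_smul, add_zero]
  exp := ⟨1 / 2, 256, by norm_num, by norm_num, fun Y hY => meanAluthge_expansion hY⟩
  mem := fun K hK T hT hu => meanAluthge_mem hK hT hu
  scalar := fun Φ hΦ hc => meanAluthge_scalar Φ hΦ hc

/-! ### Consequences of the expansion -/

theorem le_zero_of_forall_small {a b t₀ : ℝ} (ht₀ : 0 < t₀)
    (h : ∀ t, 0 < t → t ≤ t₀ → a ≤ b * t) : a ≤ 0 := by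
  by_contra hcon
  push Not at hcon
  set t := min t₀ (a / (2 * (|b| + 1))) with ht
  have htpos : 0 < t := lt_min ht₀ (by positivity)
  have h1 := h t htpos (min_le_left _ _)
  have h2 : b * t ≤ (|b| + 1) * (a / (2 * (|b| + 1))) := by
    calc b * t ≤ (|b| + 1) * t := by
          apply mul_le_mul_of_nonneg_right _ htpos.le
          linarith [le_abs_self b]
      _ ≤ _ := by
          apply mul_le_mul_of_nonneg_left (min_le_right _ _) (by positivity)
  have h3 : (|b| + 1) * (a / (2 * (|b| + 1))) = a / 2 := by field_simp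
  linarith

variable {Λ : (H →L[ℂ] H) → (H →L[ℂ] H)} (hΛ : Good Λ)

include hΛ

theorem Good.exists_bound : ∃ κ : ℝ, 0 < κ ∧ ∀ X : H →L[ℂ] H,
    ∃ C t₀ : ℝ, 0 ≤ C ∧ 0 < t₀ ∧ ∀ t : ℝ, 0 < t → t ≤ t₀ →
    ‖t • X‖ ≤ 1 / 32 ∧
    ‖Λ (1 + t • X) - (1 + t • X) - (κ * t ^ 2) • (star X * X - X * star X)‖ ≤ C * t ^ 3 := by
  obtain ⟨κ, C, hκ, hC, h⟩ := hΛ.exp
  refine ⟨κ, hκ, fun X => ⟨C * ‖X‖ ^ 3, 1 / (32 * (‖X‖ + 1)), by positivity, by positivity,
    fun t ht0 ht => ?_⟩⟩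
  have hn : ‖t • X‖ ≤ 1 / 32 := by
    rw [norm_smul, Real.norm_eq_abs, abs_of_pos ht0]
    calc t * ‖X‖ ≤ 1 / (32 * (‖X‖ + 1)) * (‖X‖ + 1) := by
          gcongr; linarith
      _ = 1 / 32 := by field_simp
  refine ⟨hn, ?_⟩
  have h1 := h (t • X) hn
  have h2 : κ • (star (t • X) * (t • X) - (t • X) * star (t • X))
      = (κ * t ^ 2) • (star X * X - X * star X) := by
    rw [star_smul, star_trivial, smul_mul_smul_comm, smul_mul_smul_comm, ← smul_sub, smul_smul]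
    congr 1; ring
  rw [h2] at h1
  refine h1.trans (le_of_eq ?_)
  rw [norm_smul, Real.norm_eq_abs, abs_of_pos ht0]; ring

theorem Good.normal_of_fixed {X : H →L[ℂ] H} (h : ∀ t : ℝ, 0 < t → Λ (1 + t • X) = 1 + t • X) :
    star X * X = X * star X := by
  obtain ⟨κ, hκ, hb⟩ := hΛ.exists_bound
  obtain ⟨C, t₀, hC, ht₀, hb⟩ := hb X
  have key : κ * ‖star X * X - X * star X‖ ≤ 0 := by
    refine le_zero_of_forall_small (b := C) ht₀ fun t ht ht' => ?_
    obtain ⟨-, h1⟩ := hb t ht ht'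
    rw [h t ht, sub_self, zero_sub, norm_neg, norm_smul, Real.norm_eq_abs,
      abs_of_pos (by positivity)] at h1
    have h2 : 0 < t ^ 2 := by positivity
    have h3 : t ^ 2 * (κ * ‖star X * X - X * star X‖) ≤ t ^ 2 * (C * t) := by
      calc _ = κ * t ^ 2 * ‖star X * X - X * star X‖ := by ring
        _ ≤ C * t ^ 3 := h1
        _ = _ := by ring
    exact le_of_mul_le_mul_left h3 h2
  have h0 : ‖star X * X - X * star X‖ = 0 := by
    nlinarith [norm_nonneg (star X * X - X * star X)]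
  exact sub_eq_zero.1 (norm_eq_zero.1 h0)

end Pool.Agent.Work.MP_11cc5c_an
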