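import Pool.Agent.Work.MP_11cc5c_an.Final

/-! The main theorem. -/

set_option linter.unusedSectionVars false

namespace Pool.Agent.Work.MP_11cc5c_an

open ContinuousLinearMap Filter
open scoped NNReal Topology ComplexConjugate

variable {H : Type*} [NormedAddCommGroup H] [InnerProductSpace ℂ H] [CompleteSpace H]

section

variable {Λ : (H →L[ℂ] H) → (H →L[ℂ] H)} (hΛ : Good Λ)

include hΛ

theorem Good.rem_bound (T : H →L[ℂ] H) : ∃ C s₀ : ℝ, 0 < s₀ ∧ ∀ s : ℂ, s₀ ≤ ‖s‖ →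
    ‖Λ (s • 1 + T) - (s • 1 + T)‖ ≤ C / ‖s‖ := by
  obtain ⟨κ, C, hκ, hC, h⟩ := hΛ.exp
  refine ⟨(2 * κ + C) * ‖T‖ ^ 2, 32 * (‖T‖ + 1), by positivity, fun s hs => ?_⟩
  have hsn : 0 < ‖s‖ := lt_of_lt_of_le (by positivity) hs
  have hs0 : s ≠ 0 := norm_pos_iff.1 hsn
  set Y : H →L[ℂ] H := s⁻¹ • T with hY
  have hYn : ‖Y‖ = ‖T‖ / ‖s‖ := by rw [hY, norm_smul, norm_inv]; ring
  have hY32 : ‖Y‖ ≤ 1 / 32 := by
    rw [hYn, div_le_iff₀ hsn]; linarith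
  have e1 : s • (1 : H →L[ℂ] H) + T = s • (1 + Y) := by
    rw [hY, smul_add, smul_smul, mul_inv_cancel₀ hs0, one_smul]
  have h1 := h Y hY32
  have h2 : ‖Λ (1 + Y) - (1 + Y)‖ ≤ (2 * κ + C) * ‖Y‖ ^ 2 := by
    have h3 : Λ (1 + Y) - (1 + Y) = (Λ (1 + Y) - (1 + Y) - κ • (star Y * Y - Y * star Y))
        + κ • (star Y * Y - Y * star Y) := by abel
    rw [h3]
    have h4 : ‖κ • (star Y * Y - Y * star Y)‖ ≤ 2 * κ * ‖Y‖ ^ 2 := by
      rw [norm_smul, Real.norm_eq_abs, abs_of_pos hκ]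
      have := norm_comm_le (star Y) Y
      rw [norm_star] at this
      nlinarith
    have h5 : C * ‖Y‖ ^ 3 ≤ C * ‖Y‖ ^ 2 := by
      apply mul_le_mul_of_nonneg_left _ hC
      have : ‖Y‖ ≤ 1 := by linarith
      calc ‖Y‖ ^ 3 = ‖Y‖ ^ 2 * ‖Y‖ := by ring
        _ ≤ ‖Y‖ ^ 2 * 1 := by gcongr
        _ = ‖Y‖ ^ 2 := mul_one _
    calc _ ≤ ‖Λ (1 + Y) - (1 + Y) - κ • (star Y * Y - Y * star Y)‖
          + ‖κ • (star Y * Y - Y * star Y)‖ := norm_add_le _ _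
      _ ≤ C * ‖Y‖ ^ 2 + 2 * κ * ‖Y‖ ^ 2 := add_le_add (h1.trans h5) h4
      _ = _ := by ring
  rw [e1, hΛ.smul, ← smul_sub, norm_smul]
  calc ‖s‖ * ‖Λ (1 + Y) - (1 + Y)‖ ≤ ‖s‖ * ((2 * κ + C) * ‖Y‖ ^ 2) := by gcongr
    _ = (2 * κ + C) * ‖T‖ ^ 2 / ‖s‖ := by
        rw [hYn]; field_simp

variable {e : (H →L[ℂ] H) ≃ₗ[ℂ] (H →L[ℂ] H)} (he : Adm Λ e)

include he

theorem Adm.normal_of_shift (hall : ∀ T, ∃ c : ℂ, e T = T + c • (1 : H →L[ℂ] H))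
    {T : H →L[ℂ] H} {μ : ℂ} (hμ : μ ≠ 0) (hT : e T = T + μ • (1 : H →L[ℂ] H)) :
    star T * T = T * star T := by
  obtain ⟨C, s₀, hs₀, hb⟩ := hΛ.rem_bound T
  set F : ℂ → (H →L[ℂ] H) := fun s => Λ (s • 1 + T) - (s • 1 + T) with hF
  have heF : ∀ s : ℂ, Λ ((s + μ) • 1 + T) = e (Λ (s • 1 + T)) := by
    intro s
    rw [he.comm, map_add, map_smul, he.one, hT]
    congr 1
    rw [add_smul]; abel
  -- the remainder tends to zero
  have hlim : ∀ s : ℂ, Tendsto (fun n : ℕ => F (s + (n : ℂ) * μ)) atTop (𝓝 0) := by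
    intro s
    have hn : Tendsto (fun n : ℕ => ‖s + (n : ℂ) * μ‖) atTop atTop := by
      have h1 : Tendsto (fun n : ℕ => (n : ℝ) * ‖μ‖ - ‖s‖) atTop atTop := by
        apply tendsto_atTop_add_const_right
        exact tendsto_natCast_atTop_atTop.atTop_mul_const (norm_pos_iff.2 hμ)
      refine tendsto_atTop_mono (fun n => ?_) h1
      have h2 : ‖(n : ℂ) * μ‖ = (n : ℝ) * ‖μ‖ := by rw [norm_mul, Complex.norm_natCast]
      have h3 : ‖(n : ℂ) * μ‖ ≤ ‖s + (n : ℂ) * μ‖ + ‖s‖ := by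
        calc ‖(n : ℂ) * μ‖ = ‖(s + (n : ℂ) * μ) - s‖ := by congr 1; ring
          _ ≤ _ := norm_sub_le _ _
      linarith
    have h4 : Tendsto (fun n : ℕ => C / ‖s + (n : ℂ) * μ‖) atTop (𝓝 0) :=
      tendsto_const_nhds.div_atTop hn
    refine squeeze_zero_norm' ?_ h4
    filter_upwards [hn.eventually_ge_atTop s₀] with n hn'
    exact hb _ hn'
  -- the remainder is a scalar
  have hstep : ∀ s : ℂ, ∃ γ : ℂ, F (s + μ) = F s + γ • (1 : H →L[ℂ] H) := by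
    intro s
    obtain ⟨c, hc⟩ := hall (Λ (s • 1 + T))
    refine ⟨c - μ, ?_⟩
    simp only [hF]
    rw [heF, hc]
    module
  have hiter : ∀ (s : ℂ) (n : ℕ), F (s + (n : ℂ) * μ) - F s ∈
      Submodule.span ℂ {(1 : H →L[ℂ] H)} := by
    intro s n
    induction n with
    | zero => simp
    | succ n ih =>
      obtain ⟨γ, hγ⟩ := hstep (s + (n : ℂ) * μ)
      have h1 : s + ((n + 1 : ℕ) : ℂ) * μ = s + (n : ℂ) * μ + μ := by push_cast; ring
      rw [h1, hγ, add_sub_right_comm]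
      exact Submodule.add_mem _ ih (Submodule.smul_mem _ _ (Submodule.mem_span_singleton_self _))
  have hscal : ∀ s : ℂ, ∃ γ : ℂ, F s = γ • (1 : H →L[ℂ] H) := by
    intro s
    have hcl : IsClosed (Submodule.span ℂ {(1 : H →L[ℂ] H)} : Set (H →L[ℂ] H)) :=
      Submodule.closed_of_finiteDimensional _
    have h1 : Tendsto (fun n : ℕ => F (s + (n : ℂ) * μ) - F s) atTop (𝓝 (0 - F s)) :=
      (hlim s).sub_const _
    have h2 := hcl.mem_of_tendsto h1 (Eventually.of_forall (hiter s))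
    rw [zero_sub] at h2
    obtain ⟨γ, hγ⟩ := Submodule.mem_span_singleton.1 h2
    exact ⟨-γ, by rw [neg_smul, hγ, neg_neg]⟩
  have hper : ∀ s : ℂ, F (s + μ) = F s := by
    intro s
    obtain ⟨γ, hγ⟩ := hscal s
    have h1 : Λ (s • 1 + T) = γ • (1 : H →L[ℂ] H) + (s • 1 + T) := by
      rw [← hγ]; simp only [hF]; abel
    have h2 : e (Λ (s • 1 + T)) = Λ (s • 1 + T) + μ • (1 : H →L[ℂ] H) := by
      rw [h1, map_add, map_add, map_smul, map_smul, he.one, hT]; abel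
    simp only [hF]
    rw [heF, h2]
    module
  have hzero : ∀ s : ℂ, F s = 0 := by
    intro s
    have h1 : ∀ n : ℕ, F (s + (n : ℂ) * μ) = F s := by
      intro n
      induction n with
      | zero => simp
      | succ n ih =>
        have h1 : s + ((n + 1 : ℕ) : ℂ) * μ = s + (n : ℂ) * μ + μ := by push_cast; ring
        rw [h1, hper, ih]
    have h2 := hlim s
    simp only [h1] at h2
    exact tendsto_nhds_unique tendsto_const_nhds h2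
  apply hΛ.normal_of_fixed
  intro t ht
  have ht0 : (t : ℂ) ≠ 0 := by exact_mod_cast ht.ne'
  have h1 := sub_eq_zero.1 (hzero (t : ℂ)⁻¹)
  have h2 := congrArg (fun A => (t : ℂ) • A) h1
  change (t : ℂ) • Λ ((t : ℂ)⁻¹ • (1 : H →L[ℂ] H) + T)
    = (t : ℂ) • ((t : ℂ)⁻¹ • (1 : H →L[ℂ] H) + T) at h2
  rw [← hΛ.smul] at h2
  have h3 : (t : ℂ) • ((t : ℂ)⁻¹ • (1 : H →L[ℂ] H) + T) = 1 + t • T := by
    rw [smul_add, smul_smul, mul_inv_cancel₀ ht0, one_smul, Complex.coe_smul]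
  rwa [h3] at h2

theorem Adm.eq_id {x₀ v₀ : H} (hx₀ : ‖x₀‖ = 1) (hv₀ : ‖v₀‖ = 1) (h0 : inner ℂ v₀ x₀ = 0)
    (hall : ∀ T, ∃ c : ℂ, e T = T + c • (1 : H →L[ℂ] H)) (N : H →L[ℂ] H) : e N = N := by
  have hnn : ∀ T : H →L[ℂ] H, ¬ (star T * T = T * star T) → e T = T := by
    intro T hT
    obtain ⟨c, hc⟩ := hall T
    by_cases hc0 : c = 0
    · rw [hc, hc0, zero_smul, add_zero]
    · exact absurd (Adm.normal_of_shift hΛ he hall hc0 hc) hT
  set T₀ := rk x₀ v₀ with hT₀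
  have hT₀n : ¬ (star T₀ * T₀ = T₀ * star T₀) := by
    intro h
    rw [hT₀, rk_star, rk_rk, rk_rk, inner_self_one hx₀, inner_self_one hv₀, one_smul,
      one_smul] at h
    have h1 := congrArg (fun A : H →L[ℂ] H => A v₀) h
    change inner ℂ v₀ v₀ • v₀ = inner ℂ x₀ v₀ • x₀ at h1
    rw [inner_eq_zero_symm.1 h0, inner_self_one hv₀, zero_smul, one_smul] at h1
    rw [h1, norm_zero] at hv₀
    exact zero_ne_one hv₀
  have hT₀e := hnn T₀ hT₀n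
  by_contra hN
  have hall' : ∀ t : ℂ, t ≠ 0 → star (T₀ + t • N) * (T₀ + t • N)
      = (T₀ + t • N) * star (T₀ + t • N) := by
    intro t ht
    by_contra hcon
    have h1 := hnn _ hcon
    rw [map_add, map_smul, hT₀e] at h1
    exact hN (smul_right_injective _ ht (add_left_cancel h1))
  have h1 := sub_eq_zero.2 (hall' 1 (by norm_num))
  have h2 := sub_eq_zero.2 (hall' 2 (by norm_num))
  have h3 := sub_eq_zero.2 (hall' 3 (by norm_num))
  apply hT₀n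
  apply sub_eq_zero.1
  have c2 : star (2 : ℂ) = 2 := by simp
  have c3 : star (3 : ℂ) = 3 := by simp
  have h4 : star T₀ * T₀ - T₀ * star T₀
      = (3 : ℂ) • (star (T₀ + (1 : ℂ) • N) * (T₀ + (1 : ℂ) • N)
          - (T₀ + (1 : ℂ) • N) * star (T₀ + (1 : ℂ) • N))
        - (3 : ℂ) • (star (T₀ + (2 : ℂ) • N) * (T₀ + (2 : ℂ) • N)
          - (T₀ + (2 : ℂ) • N) * star (T₀ + (2 : ℂ) • N))
        + (star (T₀ + (3 : ℂ) • N) * (T₀ + (3 : ℂ) • N)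
          - (T₀ + (3 : ℂ) • N) * star (T₀ + (3 : ℂ) • N)) := by
    simp only [star_add, star_smul, star_one, c2, c3, mul_add, add_mul, smul_mul_assoc,
      mul_smul_comm, smul_add, one_smul]
    module
  rw [h4, h1, h2, h3]; simp

theorem Adm.main {x₀ v₀ : H} (hx₀ : ‖x₀‖ = 1) (hv₀ : ‖v₀‖ = 1) (h0 : inner ℂ v₀ x₀ = 0) :
    ∃ U ∈ _root_.unitary (H →L[ℂ] H), ∀ T, e T = U * T * star U := by
  obtain ⟨U, d, hU1, hU2, hU⟩ := Adm.structure' hΛ he hx₀ hv₀ h0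
  set Ψ := e.trans (conjE U hU1 hU2) with hΨ
  have hΨa : ∀ T, Ψ T = star U * e T * U := fun T => rfl
  have hUs : star U ∈ _root_.unitary (H →L[ℂ] H) :=
    Unitary.mem_iff.2 ⟨by rw [star_star, hU2], by rw [star_star, hU1]⟩
  have hadm : Adm Λ Ψ := by
    refine ⟨fun T => ?_, ?_⟩
    · rw [hΨa, hΨa, he.comm]
      have := hΛ.conj (star U) hUs (e T)
      rw [star_star] at this
      exact this.symm
    · rw [hΨa, he.one, mul_one, hU1]
  have hrk : ∀ a b : H, Ψ (rk a b) = rk a b + (inner ℂ b a : ℂ) • (d • (1 : H →L[ℂ] H)) := by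
    intro a b
    have k : ∀ x, star U (U x) = x := fun x => congrArg (fun A : H →L[ℂ] H => A x) hU1
    rw [hΨa, hU, mul_add, add_mul, mul_rk, rk_mul, k, k]
    simp only [mul_smul_comm, smul_mul_assoc, mul_one, hU1]
  have hall : ∀ T, ∃ c : ℂ, Ψ T = T + c • (1 : H →L[ℂ] H) := by
    intro T
    have hT : T ∈ Submodule.span ℂ ((_root_.unitary (H →L[ℂ] H) : Submonoid (H →L[ℂ] H)) :
        Set (H →L[ℂ] H)) := by
      rw [CStarAlgebra.span_unitary]; trivial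
    induction hT using Submodule.span_induction with
    | mem W hW => exact Adm.unitary hΛ hadm hrk hW
    | zero => exact ⟨0, by simp⟩
    | add X Y _ _ hX hY =>
      obtain ⟨c₁, h₁⟩ := hX
      obtain ⟨c₂, h₂⟩ := hY
      exact ⟨c₁ + c₂, by rw [map_add, h₁, h₂]; module⟩
    | smul r X _ hX =>
      obtain ⟨c₁, h₁⟩ := hX
      exact ⟨r * c₁, by rw [map_smul, h₁]; module⟩
  have hid := Adm.eq_id hΛ hadm hx₀ hv₀ h0 hall
  refine ⟨U, Unitary.mem_iff.2 ⟨hU1, hU2⟩, fun T => ?_⟩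
  have h1 := hid T
  rw [hΨa] at h1
  calc e T = (U * star U) * e T * (U * star U) := by rw [hU2, one_mul, mul_one]
    _ = U * (star U * e T * U) * star U := by noncomm_ring
    _ = U * T * star U := by rw [h1]

end

/-- If there is no orthonormal pair, every operator is a scalar. -/
theorem scalar_of_small (h : ¬ ∃ x₀ v₀ : H, ‖x₀‖ = 1 ∧ ‖v₀‖ = 1 ∧ inner ℂ v₀ x₀ = 0)
    (T : H →L[ℂ] H) : ∃ c : ℂ, T = c • (1 : H →L[ℂ] H) := by
  apply scalar_of_eigenvectors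
  intro x hx
  refine ⟨inner ℂ x (T x), ?_⟩
  by_contra hne
  set v := T x - inner ℂ x (T x) • x with hv
  have hv0 : v ≠ 0 := fun h0 => hne (sub_eq_zero.1 h0)
  have hxv : inner ℂ x v = 0 := by
    rw [hv, inner_sub_right, inner_smul_right, inner_self_one hx, mul_one, sub_self]
  apply h
  refine ⟨x, ((‖v‖ : ℂ)⁻¹) • v, hx, ?_, ?_⟩
  · rw [norm_smul, norm_inv, Complex.norm_real, Real.norm_eq_abs, abs_norm]
    exact inv_mul_cancel₀ (norm_ne_zero_iff.2 hv0)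
  · rw [inner_smul_left, inner_eq_zero_symm.1 hxv, mul_zero]

theorem main_good {Λ : (H →L[ℂ] H) → (H →L[ℂ] H)} (hΛ : Good Λ)
    (Φ : (H →L[ℂ] H) →ₗ[ℂ] (H →L[ℂ] H)) (hΦ : Function.Bijective Φ) :
    (∀ T, Φ (Λ T) = Λ (Φ T)) ↔
      ∃ c : ℂ, c ≠ 0 ∧ ∃ U ∈ unitary (H →L[ℂ] H), ∀ T, Φ T = c • (U * T * star U) := by
  constructor
  · intro hc
    obtain ⟨c, hc1⟩ := hΛ.scalar Φ hΦ hc
    rcases subsingleton_or_nontrivial H with hs | hn
    · refine ⟨1, one_ne_zero, 1, one_mem _, fun T => ?_⟩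
      ext x; exact Subsingleton.elim _ _
    have hc0 : c ≠ 0 := by
      rintro rfl
      rw [zero_smul] at hc1
      have h1 : (1 : H →L[ℂ] H) = 0 := hΦ.1 (by rw [hc1, map_zero])
      exact one_ne_zero h1
    refine ⟨c, hc0, ?_⟩
    by_cases hsmall : ∃ x₀ v₀ : H, ‖x₀‖ = 1 ∧ ‖v₀‖ = 1 ∧ inner ℂ v₀ x₀ = 0
    · obtain ⟨x₀, v₀, hx₀, hv₀, h0⟩ := hsmall
      let e₀ : (H →L[ℂ] H) ≃ₗ[ℂ] (H →L[ℂ] H) := LinearEquiv.ofBijective Φ hΦ
      let e : (H →L[ℂ] H) ≃ₗ[ℂ] (H →L[ℂ] H) :=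
        e₀.trans (LinearEquiv.smulOfNeZero ℂ (H →L[ℂ] H) c⁻¹ (inv_ne_zero hc0))
      have hee : ∀ T, e T = c⁻¹ • Φ T := fun T => rfl
      have hadm : Adm Λ e := by
        refine ⟨fun T => ?_, ?_⟩
        · rw [hee, hee, hc, hΛ.smul]
        · rw [hee, hc1, smul_smul, inv_mul_cancel₀ hc0, one_smul]
      obtain ⟨U, hU, hUT⟩ := Adm.main hΛ hadm hx₀ hv₀ h0
      refine ⟨U, hU, fun T => ?_⟩
      rw [← hUT, hee, smul_smul, mul_inv_cancel₀ hc0, one_smul]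
    · refine ⟨1, one_mem _, fun T => ?_⟩
      obtain ⟨t, ht⟩ := scalar_of_small hsmall T
      rw [one_mul, star_one, mul_one]
      nth_rw 1 [ht]
      rw [map_smul, hc1, ht, smul_comm]
  · rintro ⟨c, -, U, hU, h⟩ T
    rw [h, h, hΛ.smul, hΛ.conj U hU]

theorem main (Λ : (H →L[ℂ] H) → (H →L[ℂ] H))
    (hΛ : Λ = meanAluthge ∨ ∃ l : ℝ, 0 ≤ l ∧ l ≤ 1 / 2 ∧ Λ = Mtr l)
    (Φ : (H →L[ℂ] H) →ₗ[ℂ] (H →L[ℂ] H)) (hΦ : Function.Bijective Φ) :
    (∀ T, Φ (Λ T) = Λ (Φ T)) ↔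
      ∃ c : ℂ, c ≠ 0 ∧ ∃ U ∈ unitary (H →L[ℂ] H), ∀ T, Φ T = c • (U * T * star U) := by
  rcases hΛ with rfl | ⟨l, h0, h1, rfl⟩
  · exact main_good good_meanAluthge Φ hΦ
  · exact main_good (good_Mtr h0 h1) Φ hΦ

end Pool.Agent.Work.MP_11cc5c_an
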