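import Mathlib

/-! Polar decomposition of bounded operators on a complex Hilbert space. -/

set_option linter.unusedSectionVars false

namespace Pool.Agent.Work.MP_11cc5c_an

open ContinuousLinearMap

variable {H : Type*} [NormedAddCommGroup H] [InnerProductSpace ℂ H] [CompleteSpace H]

theorem mulA (A B : H →L[ℂ] H) (x : H) : (A * B) x = A (B x) := rfl

theorem oneA (x : H) : (1 : H →L[ℂ] H) x = x := rfl

theorem inner_star_left (T : H →L[ℂ] H) (x y : H) :
    inner ℂ (star T x) y = inner ℂ x (T y) := by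
  rw [star_eq_adjoint, adjoint_inner_left]

theorem inner_star_right (T : H →L[ℂ] H) (x y : H) :
    inner ℂ x (star T y) = inner ℂ (T x) y := by
  rw [star_eq_adjoint, adjoint_inner_right]

/-- Cancellation: an operator vanishing on the range and on the kernel of a self-adjoint operator
is zero. -/
theorem cancel {B S : H →L[ℂ] H} (hS : star S = S) (h : B * S = 0)
    (hk : ∀ x, S x = 0 → B x = 0) : B = 0 := by
  ext x
  set K : Submodule ℂ H := S.range.topologicalClosure with hK
  have hKB : ∀ y ∈ K, B y = 0 := by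
    intro y hy
    have hcl : IsClosed {y : H | B y = 0} := isClosed_eq B.continuous continuous_const
    have hsub : (S.range : Set H) ⊆ {y : H | B y = 0} := by
      rintro _ ⟨z, rfl⟩
      have := congrArg (fun A : H →L[ℂ] H => A z) h
      simpa using this
    have hy' : y ∈ closure (S.range : Set H) := by
      rw [← Submodule.topologicalClosure_coe]; exact hy
    exact (closure_minimal hsub hcl) hy'
  have : CompleteSpace K := (Submodule.isClosed_topologicalClosure _).completeSpace_coe
  have h1 : x - K.starProjection x ∈ Kᗮ := Submodule.sub_starProjection_mem_orthogonal x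
  have h2 : Kᗮ = S.ker := by
    rw [hK, Submodule.orthogonal_closure, orthogonal_range, ← star_eq_adjoint, hS]
  have h3 : S (x - K.starProjection x) = 0 := by
    rw [h2] at h1; simpa using h1
  have h4 := hk _ h3
  have h5 : B (K.starProjection x) = 0 := hKB _ (Submodule.starProjection_apply_mem K x)
  rw [map_sub, h5, sub_zero] at h4
  simpa using h4

theorem cancel_eq {B C S : H →L[ℂ] H} (hS : star S = S) (h : B * S = C * S)
    (hk : ∀ x, S x = 0 → B x = C x) : B = C := by
  have := cancel (B := B - C) hS (by rw [sub_mul, h, sub_self])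
    (fun x hx => by simp [hk x hx])
  exact sub_eq_zero.mp this

theorem norm_abs_apply (T : H →L[ℂ] H) (x : H) : ‖CFC.abs T x‖ = ‖T x‖ := by
  have h1 : ∀ A : H →L[ℂ] H, ((‖A x‖ : ℝ) ^ 2 : ℝ) = RCLike.re (inner ℂ x ((star A * A) x)) := by
    intro A
    rw [← inner_self_eq_norm_sq (𝕜 := ℂ)]
    rw [mulA, inner_star_right]
  have h2 := h1 T
  have h3 := h1 (CFC.abs T)
  rw [(CFC.abs_nonneg T).star_eq, CFC.abs_mul_abs, ← h2] at h3
  exact (sq_eq_sq₀ (norm_nonneg _) (norm_nonneg _)).mp h3

theorem abs_apply_eq_zero (T : H →L[ℂ] H) (x : H) : CFC.abs T x = 0 ↔ T x = 0 := by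
  rw [← norm_eq_zero, norm_abs_apply, norm_eq_zero]

theorem exists_polar (T : H →L[ℂ] H) :
    ∃ V : H →L[ℂ] H, V * CFC.abs T = T ∧ V * star V * V = V ∧ ∀ x, V x = 0 ↔ T x = 0 := by
  set S := CFC.abs T with hSdef
  have hS : star S = S := (CFC.abs_nonneg T).star_eq
  set K : Submodule ℂ H := S.range.topologicalClosure with hK
  have : CompleteSpace K := (Submodule.isClosed_topologicalClosure _).completeSpace_coe
  have hmem : ∀ x, S x ∈ K := fun x => Submodule.le_topologicalClosure _ ⟨x, rfl⟩
  let e : H →ₗ[ℂ] K := (S : H →ₗ[ℂ] H).codRestrict K hmem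
  have hdense : DenseRange e := by
    rw [DenseRange, dense_iff_closure_eq, Set.eq_univ_iff_forall]
    rintro ⟨y, hy⟩
    rw [closure_subtype]
    have : ((↑) '' (Set.range e) : Set H) = (S.range : Set H) := by
      ext z
      constructor
      · rintro ⟨_, ⟨w, rfl⟩, rfl⟩
        exact ⟨w, rfl⟩
      · rintro ⟨w, rfl⟩
        exact ⟨e w, ⟨w, rfl⟩, rfl⟩
    rw [this, ← Submodule.topologicalClosure_coe]
    exact hy
  have hnorm : ∀ x, ‖(T : H →ₗ[ℂ] H) x‖ ≤ 1 * ‖e x‖ := by
    intro x
    have : ‖e x‖ = ‖S x‖ := rfl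
    rw [this, one_mul, norm_abs_apply]; rfl
  let V0 : K →L[ℂ] H := (T : H →ₗ[ℂ] H).extendOfNorm e
  have hV0 : ∀ x, V0 (e x) = T x := fun x =>
    LinearMap.extendOfNorm_eq (f := (T : H →ₗ[ℂ] H)) hdense ⟨1, hnorm⟩ x
  have hiso : ∀ k : K, ‖V0 k‖ = ‖k‖ := by
    intro k
    have hc : IsClosed {k : K | ‖V0 k‖ = ‖k‖} :=
      isClosed_eq (V0.continuous.norm) continuous_norm
    refine hdense.induction_on k hc ?_
    intro x
    show ‖V0 (e x)‖ = ‖e x‖
    rw [hV0]
    have : ‖e x‖ = ‖S x‖ := rfl
    rw [this, norm_abs_apply]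
  let V : H →L[ℂ] H := V0 ∘L K.orthogonalProjectionOnto
  have hVS : V * S = T := by
    ext x
    show V0 (K.orthogonalProjectionOnto (S x)) = T x
    have : K.orthogonalProjectionOnto (S x) = e x := by
      have := Submodule.orthogonalProjectionOnto_mem_subspace_eq_self (K := K) (e x)
      exact this
    rw [this, hV0]
  have hker : ∀ x, V x = 0 ↔ T x = 0 := by
    intro x
    have h1 : V x = 0 ↔ K.orthogonalProjectionOnto x = 0 := by
      show V0 (K.orthogonalProjectionOnto x) = 0 ↔ _
      rw [← norm_eq_zero, hiso, norm_eq_zero]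
    rw [h1, Submodule.orthogonalProjectionOnto_eq_zero_iff, hK, Submodule.orthogonal_closure,
      orthogonal_range, ← star_eq_adjoint, hS]
    simp only [LinearMap.mem_ker, coe_coe]
    exact abs_apply_eq_zero T x
  have hVVS : star V * V * S = S := by
    ext x
    refine ext_inner_left ℂ (fun y => ?_)
    have h1 : inner ℂ y ((star V * V * S) x) = inner ℂ (V y) (V (S x)) := by
      rw [mulA, mulA, inner_star_right]
    have h2 : inner ℂ (V y) (V (S x)) =
        inner ℂ (K.orthogonalProjectionOnto y) (K.orthogonalProjectionOnto (S x)) := by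
      let L : K →ₗᵢ[ℂ] H := ⟨(V0 : K →ₗ[ℂ] H), hiso⟩
      exact L.inner_map_map (K.orthogonalProjectionOnto y) (K.orthogonalProjectionOnto (S x))
    have h3 : K.orthogonalProjectionOnto (S x) = e x :=
      Submodule.orthogonalProjectionOnto_mem_subspace_eq_self (K := K) (e x)
    rw [h1, h2, h3]
    have := Submodule.inner_orthogonalProjectionOnto_eq_of_mem_right (K := K) (e x) y
    rw [this]
    rfl
  refine ⟨V, hVS, ?_, hker⟩
  refine cancel_eq hS ?_ ?_
  · rw [mul_assoc, mul_assoc, ← mul_assoc (star V) V S, hVVS]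
  · intro x hx
    have : V x = 0 := (hker x).2 ((abs_apply_eq_zero T x).1 hx)
    simp [this]

/-- The partial isometry in the polar decomposition of `T`. -/
noncomputable def polarPart (T : H →L[ℂ] H) : H →L[ℂ] H := (exists_polar T).choose

theorem polarPart_mul_abs (T : H →L[ℂ] H) : polarPart T * CFC.abs T = T :=
  (exists_polar T).choose_spec.1

theorem polarPart_pi (T : H →L[ℂ] H) : polarPart T * star (polarPart T) * polarPart T = polarPart T :=
  (exists_polar T).choose_spec.2.1

theorem polarPart_apply_eq_zero (T : H →L[ℂ] H) (x : H) : polarPart T x = 0 ↔ T x = 0 :=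
  (exists_polar T).choose_spec.2.2 x

theorem abs_isSA (T : H →L[ℂ] H) : star (CFC.abs T) = CFC.abs T := (CFC.abs_nonneg T).star_eq

end Pool.Agent.Work.MP_11cc5c_an
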