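import Pool.Agent.Work.MP_11cc5c_an.Polar

/-! Facts on real powers of positive operators, and uniqueness of the polar decomposition. -/

set_option linter.unusedSectionVars false

namespace Pool.Agent.Work.MP_11cc5c_an

open ContinuousLinearMap
open scoped NNReal

variable {H : Type*} [NormedAddCommGroup H] [InnerProductSpace ℂ H] [CompleteSpace H]

theorem polar_eq {T V S : H →L[ℂ] H} (hS : 0 ≤ S) (h1 : V * S = T) (h2 : star V * V * S = S)
    (h3 : ∀ x, S x = 0 → V x = 0) : CFC.abs T = S ∧ polarPart T = V := by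
  have hSs : star S = S := hS.star_eq
  have habs : CFC.abs T = S := by
    have : star T * T = S * S := by
      rw [← h1, star_mul, hSs, mul_assoc, ← mul_assoc (star V), h2]
    rw [CFC.abs, this, CFC.sqrt_mul_self S hS]
  refine ⟨habs, ?_⟩
  refine cancel_eq (S := S) hSs ?_ ?_
  · rw [h1]; nth_rw 1 [← habs]; exact polarPart_mul_abs T
  · intro x hx
    rw [h3 x hx, polarPart_apply_eq_zero, ← abs_apply_eq_zero, habs, hx]

theorem polarPart_isSupp (T : H →L[ℂ] H) :
    star (polarPart T) * polarPart T * CFC.abs T = CFC.abs T := by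
  set V := polarPart T
  set S := CFC.abs T with hS
  have hSs : star S = S := abs_isSA T
  -- `S (V*V - 1) S = 0`
  have h1 : S * (star V * V * S - S) = 0 := by
    have e1 : S * (star V * V * S) = S * S := by
      have : star T * T = S * S := (CFC.abs_mul_abs T).symm
      rw [← this]
      nth_rw 2 [← polarPart_mul_abs T]
      nth_rw 1 [← polarPart_mul_abs T]
      rw [star_mul]
      change _ = star S * star V * (V * S)
      rw [hSs]; simp only [mul_assoc]
    rw [mul_sub, e1, sub_self]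
  -- so `(V*V S - S)` has range in `ker S`, and `V` kills `ker S`
  have h2 : V * (star V * V * S - S) = 0 := by
    ext x
    have : S ((star V * V * S - S) x) = 0 := by
      have := congrArg (fun A : H →L[ℂ] H => A x) h1
      simpa using this
    show V ((star V * V * S - S) x) = 0
    rw [polarPart_apply_eq_zero, ← abs_apply_eq_zero]; exact this
  have h3 : star (star V * V * S - S) * (star V * V * S - S) = 0 := by
    have : star (star V * V * S - S) = S * star V * V - S := by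
      simp [star_mul, hSs, mul_assoc]
    rw [this, sub_mul, mul_assoc, h2, mul_zero, h1, sub_zero]
  exact sub_eq_zero.mp (CStarRing.star_mul_self_eq_zero_iff _ |>.mp h3)

/-- Characterisation of the polar decomposition without mentioning `CFC.abs`. -/
theorem abs_mul_star_polar_mul (T : H →L[ℂ] H) :
    CFC.abs T * (star (polarPart T) * polarPart T) = CFC.abs T := by
  have := congrArg star (polarPart_isSupp T)
  simpa [star_mul, abs_isSA, mul_assoc] using this

/-! ### Powers -/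

theorem rpow_add_nonneg {S : H →L[ℂ] H} {a b : ℝ} (ha : 0 ≤ a) (hb : 0 ≤ b) :
    S ^ (a + b) = S ^ a * S ^ b := by
  simp only [CFC.rpow_def]
  by_cases hS : 0 ≤ S
  · rw [← cfc_mul _ _ S]
    refine cfc_congr fun x _ => ?_
    exact NNReal.rpow_add_of_nonneg x ha hb
  · simp [cfc_apply_of_not_predicate S hS]

theorem star_rpow (S : H →L[ℂ] H) (a : ℝ) : star (S ^ a) = S ^ a := CFC.rpow_nonneg.star_eq

theorem comm_rpow {S B : H →L[ℂ] H} (h : Commute S B) (a : ℝ) : Commute (S ^ a) B := by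
  rw [CFC.rpow_def]; exact h.cfc_nnreal _

theorem comm_rpow_rpow (S : H →L[ℂ] H) (a b : ℝ) : Commute (S ^ a) (S ^ b) :=
  comm_rpow ((comm_rpow (Commute.refl S) b).symm) a

theorem rpow_mul_rpow_sub {S : H →L[ℂ] H} (hS : 0 ≤ S) {a : ℝ} (h0 : 0 ≤ a) (h1 : a ≤ 1) :
    S ^ a * S ^ (1 - a) = S := by
  rw [← rpow_add_nonneg h0 (sub_nonneg.2 h1)]
  rw [add_sub_cancel, CFC.rpow_one S hS]

theorem rpow_sub_mul_rpow {S : H →L[ℂ] H} (hS : 0 ≤ S) {a : ℝ} (h0 : 0 ≤ a) (h1 : a ≤ 1) :
    S ^ (1 - a) * S ^ a = S := by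
  rw [← rpow_add_nonneg (sub_nonneg.2 h1) h0]
  rw [sub_add_cancel, CFC.rpow_one S hS]

theorem apply_eq_zero_of_rpow {S : H →L[ℂ] H} (hS : 0 ≤ S) {a : ℝ} (h0 : 0 ≤ a) (h1 : a ≤ 1) {x : H}
    (hx : (S ^ a) x = 0) : S x = 0 := by
  rw [← rpow_sub_mul_rpow hS h0 h1, mulA, hx, map_zero]

theorem rpow_half_apply {S : H →L[ℂ] H} {a : ℝ} (h0 : 0 ≤ a) {x : H}
    (hx : (S ^ a) x = 0) : (S ^ (a / 2)) x = 0 := by
  have h : S ^ (a / 2) * S ^ (a / 2) = S ^ a := by
    rw [← rpow_add_nonneg (by positivity) (by positivity)]; congr 1; ring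
  have h2 : inner ℂ ((S ^ (a / 2)) x) ((S ^ (a / 2)) x) = 0 := by
    rw [← inner_star_right, star_rpow, ← mulA, h, hx, inner_zero_right]
  exact inner_self_eq_zero.mp h2

theorem rpow_apply_eq_zero {S : H →L[ℂ] H} (hS : 0 ≤ S) {a : ℝ} (h0 : 0 < a) {x : H}
    (hx : S x = 0) : (S ^ a) x = 0 := by
  have key : ∀ n : ℕ, (S ^ ((1 : ℝ) / 2 ^ n)) x = 0 := by
    intro n
    induction n with
    | zero => simpa [CFC.rpow_one S hS] using hx
    | succ n ih =>
      have := rpow_half_apply (by positivity) ih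
      rw [div_div] at this
      rw [pow_succ]; exact this
  obtain ⟨n, hn⟩ := exists_pow_lt_of_lt_one h0 (show (1 / 2 : ℝ) < 1 by norm_num)
  have h1 : (1 : ℝ) / 2 ^ n ≤ a := by
    have : (1 / 2 : ℝ) ^ n = 1 / 2 ^ n := by rw [div_pow, one_pow]
    rw [← this]; exact hn.le
  have h2 : S ^ a = S ^ (a - 1 / 2 ^ n) * S ^ ((1 : ℝ) / 2 ^ n) := by
    rw [← rpow_add_nonneg (by linarith) (by positivity)]; congr 1; ring
  rw [h2, mulA, key n, map_zero]

/-- Powers of a projection. -/
theorem rpow_proj {P : H →L[ℂ] H} (h1 : P * P = P) (h2 : star P = P) {a : ℝ} (ha : a ≠ 0) :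
    P ^ a = P := by
  have hP : 0 ≤ P := by
    have := star_mul_self_nonneg P
    rwa [h2, h1] at this
  rw [CFC.rpow_eq_cfc_real hP]
  have hid : P = cfc (fun x : ℝ => x) P := (cfc_id' ℝ P hP.isSelfAdjoint).symm
  conv_rhs => rw [hid]
  refine cfc_congr fun x hx => ?_
  have := IsIdempotentElem.spectrum_subset ℝ (show IsIdempotentElem P from h1) hx
  rcases this with h | h
  · simp only [h]; exact Real.zero_rpow ha
  · rw [Set.mem_singleton_iff] at h; simp [h]

theorem smul_nonneg_real {S : H →L[ℂ] H} (hS : 0 ≤ S) {r : ℝ} (hr : 0 ≤ r) : 0 ≤ r • S :=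
  smul_nonneg hr hS

theorem rpow_smul {S : H →L[ℂ] H} (hS : 0 ≤ S) {r : ℝ} (hr : 0 < r) {a : ℝ} (ha : 0 ≤ a) :
    (r • S) ^ a = (r ^ a) • S ^ a := by
  rw [CFC.rpow_eq_cfc_real (smul_nonneg_real hS hr.le), CFC.rpow_eq_cfc_real hS]
  rw [← cfc_smul (R := ℝ) _ _ S (by
    apply ContinuousOn.rpow_const continuousOn_id
    intro x _; exact Or.inr ha)]
  have h1 : r • S = cfc (fun x : ℝ => r • x) S := by
    rw [cfc_smul_id (R := ℝ) r S hS.isSelfAdjoint]
  rw [h1, ← cfc_comp' (fun x : ℝ => x ^ a) (fun x : ℝ => r • x) S (by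
    apply ContinuousOn.rpow_const continuousOn_id
    intro x _; exact Or.inr ha) (by fun_prop) hS.isSelfAdjoint]
  refine cfc_congr fun x hx => ?_
  have hx0 : 0 ≤ x := spectrum_nonneg_of_nonneg hS hx
  simp only [smul_eq_mul]
  exact Real.mul_rpow hr.le hx0

theorem conj_nonneg {U S : H →L[ℂ] H} (hS : 0 ≤ S) : 0 ≤ U * S * star U :=
  star_right_conjugate_nonneg hS U

theorem rpow_conj {U S : H →L[ℂ] H} (hU : U ∈ unitary (H →L[ℂ] H)) (hS : 0 ≤ S) {a : ℝ}
    (ha : 0 ≤ a) : (U * S * star U) ^ a = U * S ^ a * star U := by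
  rw [CFC.rpow_eq_cfc_real (conj_nonneg hS), CFC.rpow_eq_cfc_real hS]
  let φ := Unitary.conjStarAlgAut ℂ (H →L[ℂ] H) ⟨U, hU⟩
  have hφ : ∀ x, φ x = U * x * star U := fun x => rfl
  have hcont : Continuous φ := by
    have : (φ : (H →L[ℂ] H) → (H →L[ℂ] H)) = fun x => U * x * star U := by ext x; rfl
    rw [this]; fun_prop
  have hpow : ContinuousOn (fun x : ℝ => x ^ a) (spectrum ℝ S) := by
    apply ContinuousOn.rpow_const continuousOn_id
    intro x _; exact Or.inr ha
  have := StarAlgHomClass.map_cfc (S := ℂ) φ (fun x : ℝ => x ^ a) S hpow hcont hS.isSelfAdjoint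
    (by rw [hφ]; exact (conj_nonneg hS).isSelfAdjoint)
  rw [hφ, hφ] at this
  exact this.symm

end Pool.Agent.Work.MP_11cc5c_an
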