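import Pool.Agent.Work.MP_11cc5c_an.SquareZero

/-! Rank one operators and the transforms of `a ⊗ b + b ⊗ c`. -/

set_option linter.unusedSectionVars false

namespace Pool.Agent.Work.MP_11cc5c_an

open ContinuousLinearMap
open scoped NNReal ComplexConjugate

variable {H : Type*} [NormedAddCommGroup H] [InnerProductSpace ℂ H] [CompleteSpace H]

/-- The rank one operator `z ↦ ⟨y, z⟩ x`. -/
noncomputable def rk (x y : H) : H →L[ℂ] H := InnerProductSpace.rankOne ℂ x y

theorem rk_apply (x y z : H) : rk x y z = inner ℂ y z • x := rfl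

theorem rk_star (x y : H) : star (rk x y) = rk y x := by
  rw [rk, star_eq_adjoint, InnerProductSpace.adjoint_rankOne]; rfl

theorem mul_rk (A : H →L[ℂ] H) (x y : H) : A * rk x y = rk (A x) y := by
  ext z; simp [rk_apply]

theorem rk_mul (A : H →L[ℂ] H) (x y : H) : rk x y * A = rk x (star A y) := by
  ext z; simp [rk_apply, inner_star_left]

theorem rk_add_left (x x' y : H) : rk (x + x') y = rk x y + rk x' y := by
  simp [rk]

theorem rk_add_right (x y y' : H) : rk x (y + y') = rk x y + rk x y' := by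
  simp [rk]

theorem rk_sub_left (x x' y : H) : rk (x - x') y = rk x y - rk x' y := by
  simp [rk]

theorem rk_sub_right (x y y' : H) : rk x (y - y') = rk x y - rk x y' := by
  simp [rk]

theorem rk_smul_left (c : ℂ) (x y : H) : rk (c • x) y = c • rk x y := by
  simp [rk]

theorem rk_smul_right (c : ℂ) (x y : H) : rk x (c • y) = conj c • rk x y := by
  simp [rk]

theorem rk_zero_left (y : H) : rk 0 y = 0 := by simp [rk]

theorem rk_zero_right (x : H) : rk x 0 = 0 := by simp [rk]

theorem rk_rk (x y z w : H) : rk x y * rk z w = inner ℂ y z • rk x w := by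
  rw [mul_rk, rk_apply, rk_smul_left]

theorem rk_eq_zero {x y : H} : rk x y = 0 ↔ x = 0 ∨ y = 0 := by
  rw [rk]; exact InnerProductSpace.rankOne_eq_zero

theorem norm_rk (x y : H) : ‖rk x y‖ = ‖x‖ * ‖y‖ := by
  rw [rk]; exact InnerProductSpace.norm_rankOne x y

theorem inner_self_one {a : H} (ha : ‖a‖ = 1) : inner ℂ a a = 1 := by
  rw [inner_self_eq_norm_sq_to_K, ha]; simp

section shift

variable {a b c : H} (ha : ‖a‖ = 1) (hb : ‖b‖ = 1) (hc : ‖c‖ = 1) (hab : inner ℂ a b = 0)
  (hbc : inner ℂ b c = 0) (hac : inner ℂ a c = 0)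

include ha hb hc hab hbc hac

theorem shift_aux :
    (rk b b + rk c c) * (rk b b + rk c c) = rk b b + rk c c ∧
    star (rk b b + rk c c) = rk b b + rk c c ∧
    (rk a b + rk b c) * (rk b b + rk c c) = rk a b + rk b c ∧
    (rk b b + rk c c) * (rk a b + rk b c) = rk b c ∧
    star (rk a b + rk b c) * (rk a b + rk b c) = rk b b + rk c c := by
  have haa := inner_self_one ha
  have hbb := inner_self_one hb
  have hcc := inner_self_one hc
  have hba : inner ℂ b a = 0 := inner_eq_zero_symm.mp hab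
  have hcb : inner ℂ c b = 0 := inner_eq_zero_symm.mp hbc
  have hca : inner ℂ c a = 0 := inner_eq_zero_symm.mp hac
  refine ⟨?_, ?_, ?_, ?_, ?_⟩ <;>
    simp only [add_mul, mul_add, rk_rk, star_add, rk_star, haa, hbb, hcc, hab, hba, hbc, hcb, hac,
      hca, one_smul, zero_smul, add_zero, zero_add]

theorem shift_polar : CFC.abs (rk a b + rk b c) = rk b b + rk c c ∧
    polarPart (rk a b + rk b c) = rk a b + rk b c := by
  obtain ⟨h1, h2, h3, h4, h5⟩ := shift_aux ha hb hc hab hbc hac
  have hP : 0 ≤ rk b b + rk c c := by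
    have := star_mul_self_nonneg (rk b b + rk c c)
    rwa [h2, h1] at this
  refine polar_eq hP h3 (by rw [h5, h1]) ?_
  intro x hx
  rw [← h3, mulA, hx, map_zero]

theorem aluthge_shift {l : ℝ} (h0 : 0 < l) (h1 : l < 1) :
    aluthge l (rk a b + rk b c) = rk b c := by
  obtain ⟨e1, e2⟩ := shift_polar ha hb hc hab hbc hac
  obtain ⟨h1, h2, h3, h4, h5⟩ := shift_aux ha hb hc hab hbc hac
  rw [aluthge, e1, e2, rpow_proj h1 h2 h0.ne', rpow_proj h1 h2 (by linarith), h4]
  have hbb := inner_self_one hb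
  have hcc := inner_self_one hc
  have hcb : inner ℂ c b = 0 := inner_eq_zero_symm.mp hbc
  simp only [mul_add, rk_rk, hcc, hcb, one_smul, zero_smul, zero_add]

theorem Mtr_shift {l : ℝ} (h0 : 0 < l) (h1 : l < 1) :
    Mtr l (rk a b + rk b c) = rk b c := by
  rw [Mtr, aluthge_shift ha hb hc hab hbc hac h0 h1,
    aluthge_shift ha hb hc hab hbc hac (by linarith) (by linarith), ← two_smul ℂ, smul_smul]
  norm_num

theorem meanT_shift :
    meanT (rk a b + rk b c) = (1 / 2 : ℂ) • rk a b + rk b c := by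
  obtain ⟨e1, e2⟩ := shift_polar ha hb hc hab hbc hac
  obtain ⟨h1, h2, h3, h4, h5⟩ := shift_aux ha hb hc hab hbc hac
  rw [meanT, e1, e2, h4, add_assoc, ← two_smul ℂ (rk b c), smul_add, smul_smul]
  norm_num

theorem meanAluthge_shift :
    meanAluthge (rk a b + rk b c) = (1 / 2 : ℂ) • rk b c := by
  rw [meanAluthge, aluthge_shift ha hb hc hab hbc hac (by norm_num) (by norm_num)]
  apply meanT_of_sq
  have hcb : inner ℂ c b = 0 := inner_eq_zero_symm.mp hbc
  rw [rk_rk, hcb, zero_smul]

end shift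

end Pool.Agent.Work.MP_11cc5c_an
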