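import Pool.Agent.Work.MP_11cc5c_an.Bracket

/-! Unital linear bijections commuting with a good transform map nilpotents of rank one to
nilpotents of rank one. -/

set_option linter.unusedSectionVars false

namespace Pool.Agent.Work.MP_11cc5c_an

open ContinuousLinearMap Filter
open scoped NNReal Topology

variable {H : Type*} [NormedAddCommGroup H] [InnerProductSpace ℂ H] [CompleteSpace H]

theorem norm_pi_le {V : H →L[ℂ] H} (h : V * star V * V = V) : ‖V‖ ≤ 1 := by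
  set P := star V * V with hP
  have h5 : ‖P‖ = ‖V‖ * ‖V‖ := CStarRing.norm_star_mul_self
  have h3 : ‖P‖ * ‖P‖ = ‖P‖ := by
    have hPs : star P = P := by rw [hP, star_mul, star_star]
    have hPP : P * P = P := by
      calc P * P = star V * (V * star V * V) := by rw [hP]; noncomm_ring
        _ = P := by rw [h]
    have h4 : ‖star P * P‖ = ‖P‖ * ‖P‖ := CStarRing.norm_star_mul_self
    rw [← h4, hPs, hPP]
  rw [h5] at h3
  by_contra hcon
  push Not at hcon
  have h6 : 1 < ‖V‖ * ‖V‖ := by nlinarith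
  nlinarith

theorem norm_apply_le_of_pi {V : H →L[ℂ] H} (h : V * star V * V = V) (u : H) : ‖V u‖ ≤ ‖u‖ := by
  have := V.le_opNorm u
  have h2 := norm_pi_le h
  nlinarith [norm_nonneg u]

theorem norm_eq_of_init {V : H →L[ℂ] H} {u : H} (h : star V (V u) = u) : ‖V u‖ = ‖u‖ := by
  have h1 : inner ℂ (V u) (V u) = inner ℂ u u := by rw [← inner_star_right, h]
  rw [inner_self_eq_norm_sq_to_K, inner_self_eq_norm_sq_to_K] at h1
  have h2 : ‖V u‖ ^ 2 = ‖u‖ ^ 2 := by exact_mod_cast h1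
  exact (sq_eq_sq₀ (norm_nonneg _) (norm_nonneg _)).1 h2

theorem eq_of_cs {u y : H} (hy : ‖y‖ = 1) (h : ‖u‖ ≤ ‖inner ℂ y u‖) : u = inner ℂ y u • y := by
  have h1 : ‖u - inner ℂ y u • y‖ ^ 2 = ‖u‖ ^ 2 - ‖(inner ℂ y u : ℂ)‖ ^ 2 := by
    have h2 := norm_sub_sq (𝕜 := ℂ) u (inner ℂ y u • y)
    rw [inner_smul_right, norm_smul, hy, mul_one] at h2
    have h3 : (inner ℂ y u : ℂ) * inner ℂ u y = ((‖(inner ℂ y u : ℂ)‖ ^ 2 : ℝ) : ℂ) := by
      rw [← inner_conj_symm u y, RCLike.mul_conj]; norm_cast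
    rw [h3] at h2
    rw [h2]
    have h4 : RCLike.re (((‖(inner ℂ y u : ℂ)‖ ^ 2 : ℝ) : ℂ)) = ‖(inner ℂ y u : ℂ)‖ ^ 2 :=
      Complex.ofReal_re _
    rw [h4]; ring
  have h5 : ‖u - inner ℂ y u • y‖ ^ 2 ≤ 0 := by
    rw [h1]
    have := pow_le_pow_left₀ (norm_nonneg u) h 2
    linarith
  have h6 : ‖u - inner ℂ y u • y‖ = 0 := by
    have := sq_nonneg ‖u - inner ℂ y u • y‖
    exact pow_eq_zero_iff (two_ne_zero) |>.1 (le_antisymm h5 this)
  exact sub_eq_zero.1 (norm_eq_zero.1 h6)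

theorem pi_decomp_aux {e₁ e₂ : H →L[ℂ] H} 
    (h3 : (e₁ - e₂) * star (e₁ - e₂) * (e₁ - e₂) = e₁ - e₂) {x y : H} (hx : ‖x‖ = 1)
    (hy : ‖y‖ = 1) (h : e₁ + e₂ = rk x y) {u : H} (hu : star e₁ (e₁ u) = u) :
    e₂ u = 0 ∧ u = inner ℂ y u • y := by
  have h4 := parallelogram_law_with_norm ℂ (e₁ u) (e₂ u)
  have h5 : e₁ u + e₂ u = inner ℂ y u • x := by
    have := congrArg (fun A : H →L[ℂ] H => A u) h
    exact this
  have h6 : ‖e₁ u - e₂ u‖ ≤ ‖u‖ := norm_apply_le_of_pi h3 u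
  have h7 : ‖e₁ u‖ = ‖u‖ := norm_eq_of_init hu
  rw [h5, norm_smul, hx, mul_one, h7] at h4
  have h8 : ‖(inner ℂ y u : ℂ)‖ ≤ ‖u‖ := by
    have := norm_inner_le_norm (𝕜 := ℂ) y u
    rwa [hy, one_mul] at this
  have h9 : ‖e₁ u - e₂ u‖ * ‖e₁ u - e₂ u‖ ≤ ‖u‖ * ‖u‖ :=
    mul_self_le_mul_self (norm_nonneg _) h6
  have h10 : ‖(inner ℂ y u : ℂ)‖ * ‖(inner ℂ y u : ℂ)‖ ≤ ‖u‖ * ‖u‖ :=
    mul_self_le_mul_self (norm_nonneg _) h8
  constructor
  · have : ‖e₂ u‖ * ‖e₂ u‖ ≤ 0 := by nlinarith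
    have : ‖e₂ u‖ = 0 := by nlinarith [norm_nonneg (e₂ u), mul_self_nonneg ‖e₂ u‖]
    exact norm_eq_zero.1 this
  · apply eq_of_cs hy
    have h11 : ‖u‖ * ‖u‖ ≤ ‖(inner ℂ y u : ℂ)‖ * ‖(inner ℂ y u : ℂ)‖ := by
      nlinarith [mul_self_nonneg ‖e₂ u‖]
    exact nonneg_le_nonneg_of_sq_le_sq (norm_nonneg _) h11

theorem pi_decomp {e₁ e₂ : H →L[ℂ] H} (h1 : e₁ * star e₁ * e₁ = e₁)
    (h2 : e₂ * star e₂ * e₂ = e₂) (h3 : (e₁ - e₂) * star (e₁ - e₂) * (e₁ - e₂) = e₁ - e₂)
    {x y : H} (hx : ‖x‖ = 1) (hy : ‖y‖ = 1) (h : e₁ + e₂ = rk x y) : e₁ = 0 ∨ e₂ = 0 := by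
  by_contra hcon
  push Not at hcon
  obtain ⟨hn1, hn2⟩ := hcon
  have init : ∀ e : H →L[ℂ] H, e * star e * e = e → e ≠ 0 → ∃ u, u ≠ 0 ∧ star e (e u) = u := by
    intro e he hne
    obtain ⟨v, hv⟩ : ∃ v, e v ≠ 0 := by
      by_contra hc
      push Not at hc
      exact hne (by ext v; rw [hc v]; rfl)
    refine ⟨star e (e v), ?_, ?_⟩
    · intro h0
      apply hv
      have := congrArg (fun A : H →L[ℂ] H => A v) he
      change e (star e (e v)) = e v at this
      rw [← this, h0, map_zero]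
    · have := congrArg (fun A : H →L[ℂ] H => A v) he
      change e (star e (e v)) = e v at this
      rw [this]
  obtain ⟨u, hu0, hu⟩ := init e₁ h1 hn1
  obtain ⟨w, hw0, hw⟩ := init e₂ h2 hn2
  obtain ⟨a1, a2⟩ := pi_decomp_aux h3 hx hy h hu
  have h3' : (e₂ - e₁) * star (e₂ - e₁) * (e₂ - e₁) = e₂ - e₁ := by
    have : e₂ - e₁ = -(e₁ - e₂) := by abel
    rw [this]
    simp only [star_neg, neg_mul, mul_neg, neg_neg]
    rw [h3]
  obtain ⟨b1, b2⟩ := pi_decomp_aux h3' hx hy (by rw [add_comm, h]) hw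
  have hyu : (inner ℂ y u : ℂ) ≠ 0 := by
    intro h0; rw [h0, zero_smul] at a2; exact hu0 a2
  have hey : e₂ y = 0 := by
    rw [a2, map_smul] at a1
    exact (smul_eq_zero.1 a1).resolve_left hyu
  have : e₂ w = 0 := by rw [b2, map_smul, hey, smul_zero]
  apply hw0
  rw [← hw, this, map_zero]

theorem spi_mul {E r : H →L[ℂ] H} (hE : Spi E) (hr : star r = r) (hr3 : r * r * r = r)
    (hp : star E * E * r = r * (star E * E)) (hc : E * (r * E) = 0) : Spi (E * r) := by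
  obtain ⟨h1, h2⟩ := hE
  refine ⟨?_, ?_⟩
  · calc E * r * (E * r) = E * (r * E) * r := by noncomm_ring
      _ = 0 := by rw [hc, zero_mul]
  · calc E * r * star (E * r) * (E * r) = E * r * r * (star E * E * r) := by
          rw [star_mul, hr]; noncomm_ring
      _ = E * (r * r * r) * (star E * E) := by rw [hp]; noncomm_ring
      _ = E * (r * (star E * E)) := by rw [hr3]; noncomm_ring
      _ = (E * star E * E) * r := by rw [← hp]; noncomm_ring
      _ = E * r := by rw [h2]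

theorem spi_rk {x y : H} (hx : ‖x‖ = 1) (hy : ‖y‖ = 1) (hxy : inner ℂ x y = 0) :
    Spi (rk x y) := by
  have hyx : inner ℂ y x = 0 := inner_eq_zero_symm.mp hxy
  refine ⟨?_, ?_⟩
  · rw [rk_rk, hyx, zero_smul]
  · rw [rk_star, rk_rk, inner_self_one hy, one_smul, rk_rk, inner_self_one hx, one_smul]

section

variable {Λ : (H →L[ℂ] H) → (H →L[ℂ] H)} (hΛ : Good Λ)
  {e : (H →L[ℂ] H) ≃ₗ[ℂ] (H →L[ℂ] H)} (he : Adm Λ e)

include hΛ he

theorem Adm.rank_one {x y : H} (hx : ‖x‖ = 1) (hy : ‖y‖ = 1) (hxy : inner ℂ x y = 0) :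
    ∃ x' y' : H, ‖x'‖ = 1 ∧ ‖y'‖ = 1 ∧ inner ℂ x' y' = 0 ∧ e (rk x y) = rk x' y' := by
  have hspi := spi_rk hx hy hxy
  obtain ⟨hF, -⟩ := Adm.spi hΛ he hspi
  set F := e (rk x y) with hFdef
  have hF0 : F ≠ 0 := by
    intro h0
    rw [hFdef, map_eq_zero_iff e e.injective, rk_eq_zero] at h0
    rcases h0 with h0 | h0
    · rw [h0, norm_zero] at hx; exact zero_ne_one hx
    · rw [h0, norm_zero] at hy; exact zero_ne_one hy
  have hFF := hF.1
  have hFFF := hF.2
  obtain ⟨u, hu⟩ : ∃ v, F v ≠ 0 := by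
    by_contra hc
    push Not at hc
    exact hF0 (by ext v; rw [hc v]; rfl)
  have hfix : F (star F (F u)) = F u := congrArg (fun A : H →L[ℂ] H => A u) hFFF
  set v0 := star F (F u) with hv0
  have hv00 : v0 ≠ 0 := by
    intro h0; apply hu; rw [← hfix, h0, map_zero]
  set v : H := ((‖v0‖ : ℂ)⁻¹) • v0 with hv
  have hvn : ‖v‖ = 1 := by
    rw [hv, norm_smul, norm_inv, Complex.norm_real, Real.norm_eq_abs, abs_norm]
    exact inv_mul_cancel₀ (norm_ne_zero_iff.2 hv00)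
  have hvfix : star F (F v) = v := by
    rw [hv, map_smul, map_smul, hfix]
  have hFvn : ‖F v‖ = 1 := by rw [norm_eq_of_init hvfix, hvn]
  have hvF : star F v = 0 := by
    rw [← hvfix]
    have : star F * star F = 0 := by rw [← star_mul, hFF, star_zero]
    exact congrArg (fun A : H →L[ℂ] H => A (F v)) this
  set q := rk v v with hq
  have hqs : star q = q := rk_star v v
  have hqq : q * q = q := by rw [hq, rk_rk, inner_self_one hvn, one_smul]
  have hqF : q * F = 0 := by rw [hq, rk_mul, hvF, rk_zero_right]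
  have hpq : star F * F * q = q := by
    rw [mul_assoc, hq, mul_rk, mul_rk, hvfix]
  have hqp : q * (star F * F) = q := by
    have := congrArg star hpq
    rw [star_mul (star F * F) q, hqs, star_mul, star_star] at this
    exact this
  have hpq' : star F * F * q = q * (star F * F) := by rw [hpq, hqp]
  have s1 : Spi (F * q) := spi_mul hF hqs (by rw [hqq, hqq]) hpq' (by rw [hqF, mul_zero])
  have s2 : Spi (F * (1 - q)) := by
    refine spi_mul hF (by rw [star_sub, star_one, hqs]) ?_ ?_ ?_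
    · have : (1 - q) * (1 - q) = 1 - q := by
        have : (1 - q) * (1 - q) = 1 - q - q + q * q := by noncomm_ring
        rw [this, hqq]; abel
      rw [this, this]
    · rw [mul_sub, sub_mul, mul_one, one_mul, hpq']
    · rw [sub_mul, hqF, one_mul, sub_zero, hFF]
  have s3 : Spi (F * (q - (1 - q))) := by
    refine spi_mul hF (by rw [star_sub, star_sub, star_one, hqs]) ?_ ?_ ?_
    · have : (q - (1 - q)) * (q - (1 - q)) = 1 := by
        have : (q - (1 - q)) * (q - (1 - q)) = q * q + q * q + q * q + q * q - q - q - q - q + 1 := by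
          noncomm_ring
        rw [this, hqq]; abel
      rw [this, one_mul]
    · have : star F * F * (q - (1 - q)) = star F * F * q + star F * F * q - star F * F := by
        noncomm_ring
      rw [this, hpq']
      noncomm_ring
    · have : F * ((q - (1 - q)) * F) = F * (q * F) + F * (q * F) - F * F := by noncomm_ring
      rw [this, hqF, hFF]; simp
  obtain ⟨t1, -⟩ := Adm.spi hΛ he.symm s1
  obtain ⟨t2, -⟩ := Adm.spi hΛ he.symm s2
  obtain ⟨t3, -⟩ := Adm.spi hΛ he.symm s3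
  have hsum : e.symm (F * q) + e.symm (F * (1 - q)) = rk x y := by
    rw [← map_add, ← mul_add]
    have : q + (1 - q) = 1 := by abel
    rw [this, mul_one, hFdef, LinearEquiv.symm_apply_apply]
  have hdiff : e.symm (F * (q - (1 - q))) = e.symm (F * q) - e.symm (F * (1 - q)) := by
    rw [mul_sub, map_sub]
  rw [hdiff] at t3
  rcases pi_decomp t1.2 t2.2 t3.2 hx hy hsum with h0 | h0
  · exfalso
    rw [map_eq_zero_iff e.symm e.symm.injective, hq, mul_rk, rk_eq_zero] at h0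
    rcases h0 with h0 | h0
    · rw [h0, norm_zero] at hFvn; exact zero_ne_one hFvn
    · rw [h0, norm_zero] at hvn; exact zero_ne_one hvn
  · rw [map_eq_zero_iff e.symm e.symm.injective] at h0
    refine ⟨F v, v, hFvn, hvn, ?_, ?_⟩
    · rw [← inner_star_right, hvF, inner_zero_right]
    · have : F = F * q := by
        rw [mul_sub, mul_one, sub_eq_zero] at h0; exact h0
      rw [this, hq, mul_rk]
      congr 1
      rw [← mul_rk, ← hq, ← this]

end

end Pool.Agent.Work.MP_11cc5c_an
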