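import Pool.Agent.Work.MP_11cc5c_an.FixM
import Pool.Agent.Work.MP_11cc5c_an.RankOne

/-! If `Φ` commutes with `M_l` then `Φ 1` is a scalar. -/

set_option linter.unusedSectionVars false

namespace Pool.Agent.Work.MP_11cc5c_an

open ContinuousLinearMap Filter
open scoped NNReal Topology

variable {H : Type*} [NormedAddCommGroup H] [InnerProductSpace ℂ H] [CompleteSpace H]

theorem scalar_of_comm {J : H →L[ℂ] H} (h : ∀ B : H →L[ℂ] H, J * B * J = B * J * J) :
    ∃ c : ℂ, J = c • (1 : H →L[ℂ] H) := by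
  by_cases hJ : J = 0
  · exact ⟨0, by rw [hJ, zero_smul]⟩
  obtain ⟨v, hv⟩ : ∃ v, J v ≠ 0 := by
    by_contra hcon
    push Not at hcon
    exact hJ (by ext v; rw [hcon v]; rfl)
  set w := J v with hw
  have hww : (inner ℂ w w : ℂ) ≠ 0 := inner_self_ne_zero.mpr hv
  refine ⟨inner ℂ w (J w) / inner ℂ w w, ?_⟩
  ext u
  have h1 := congrArg (fun A : H →L[ℂ] H => A v) (h (rk u w))
  have h2 : (J * rk u w * J) v = inner ℂ w w • J u := by
    show J (rk u w (J v)) = _
    rw [rk_apply, map_smul]
  have h3 : (rk u w * J * J) v = inner ℂ w (J w) • u := by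
    show rk u w (J (J v)) = _
    rw [rk_apply]
  change (J * rk u w * J) v = (rk u w * J * J) v at h1
  rw [h2, h3] at h1
  show J u = (inner ℂ w (J w) / inner ℂ w w : ℂ) • u
  rw [div_eq_inv_mul, mul_smul, ← h1, smul_smul, inv_mul_cancel₀ hww, one_smul]

theorem quasi_of_comm {T : H →L[ℂ] H} (h : Commute (CFC.abs T) (polarPart T)) :
    T * (star T * T) = star T * T * T := by
  have hT := polarPart_mul_abs T
  have h2 : star T * T = CFC.abs T * CFC.abs T := (CFC.abs_mul_abs T).symm
  rw [h2]
  have h3 : Commute (CFC.abs T) T := by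
    nth_rw 2 [← hT]
    exact h.mul_right (Commute.refl _)
  exact ((h3.mul_left h3).eq).symm

theorem extract4 {M : Type*} [AddCommGroup M] [Module ℂ M] {c00 c10 c01 c11 c20 c21 : M}
    (h : ∀ z : ℂ, c00 + z • c10 + (star z) • c01 + (z * star z) • c11 + (z * z) • c20
      + (z * z * star z) • c21 = 0) : c01 = 0 := by
  have h1 := h 1
  have h2 := h (-1)
  have h3 := h Complex.I
  have h4 := h (-Complex.I)
  have hI : Complex.I * Complex.I = -1 := Complex.I_mul_I
  simp only [star_neg, star_one, Complex.star_def, Complex.conj_I, one_smul, neg_smul,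
    neg_mul, mul_neg, neg_neg, one_mul, mul_one, hI] at h1 h2 h3 h4
  have key : (4 : ℂ) • c01 = 0 := by
    have e : (4 : ℂ) • c01 = (c00 + c10 + c01 + c11 + c20 + c21) -
     (c00 + -c10 + -c01 + c11 + c20 + -c21) +
     Complex.I • (c00 + Complex.I • c10 + -(Complex.I • c01) + c11 + -c20 + Complex.I • c21)
     - Complex.I • (c00 + -(Complex.I • c10) + Complex.I • c01 + c11 + -c20
        + -(Complex.I • c21)) := by
      simp only [smul_add, smul_neg, smul_smul, hI]
      module
    rw [e, h1, h2, h3, h4]; simp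
  exact (smul_eq_zero.1 key).resolve_left (by norm_num)

theorem quasi_extract {a q : H →L[ℂ] H}
    (h : ∀ z : ℂ, (a + z • q) * (star (a + z • q) * (a + z • q))
      = star (a + z • q) * (a + z • q) * (a + z • q)) :
    a * star q * a = star q * a * a := by
  have key : ∀ z : ℂ, (a * star a * a - star a * a * a)
      + z • (a * star a * q + q * star a * a - star a * a * q - star a * q * a)
      + (star z) • (a * star q * a - star q * a * a)
      + (z * star z) • (a * star q * q + q * star q * a - star q * a * q - star q * q * a)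
      + (z * z) • (q * star a * q - star a * q * q)
      + (z * z * star z) • (q * star q * q - star q * q * q) = 0 := by
    intro z
    rw [← sub_eq_zero.2 (h z)]
    simp only [star_add, star_smul, mul_add, add_mul, smul_mul_assoc, mul_smul_comm, smul_smul,
      mul_assoc, smul_add]
    module
  exact sub_eq_zero.1 (extract4 key)

/-- A linear map which is injective and maps the lines `1 + z Q` (`Q` self-adjoint) to
quasinormal operators maps `1` to a scalar. -/
theorem scalar_of_quasi (Φ : (H →L[ℂ] H) →ₗ[ℂ] (H →L[ℂ] H)) (hΦ : Function.Bijective Φ)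
    (h : ∀ Q : H →L[ℂ] H, star Q = Q → ∀ z : ℂ,
      Φ (1 + z • Q) * (star (Φ (1 + z • Q)) * Φ (1 + z • Q))
        = star (Φ (1 + z • Q)) * Φ (1 + z • Q) * Φ (1 + z • Q)) :
    ∃ c : ℂ, Φ 1 = c • (1 : H →L[ℂ] H) := by
  have h1 : ∀ Q : H →L[ℂ] H, star Q = Q → Φ 1 * star (Φ Q) * Φ 1 = star (Φ Q) * Φ 1 * Φ 1 := by
    intro Q hQ
    refine quasi_extract fun z => ?_
    have := h Q hQ z
    rwa [map_add, map_smul] at this
  apply scalar_of_comm
  intro B
  obtain ⟨X, hX⟩ := hΦ.2 (star B)
  have hXd : X = (realPart X : H →L[ℂ] H) + Complex.I • (imaginaryPart X : H →L[ℂ] H) :=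
    (realPart_add_I_smul_imaginaryPart X).symm
  have hr : star (realPart X : H →L[ℂ] H) = realPart X := (realPart X).2
  have hi : star (imaginaryPart X : H →L[ℂ] H) = imaginaryPart X := (imaginaryPart X).2
  have e1 := h1 _ hr
  have e2 := h1 _ hi
  have hB : B = star (Φ (realPart X)) + star Complex.I • star (Φ (imaginaryPart X)) := by
    rw [← star_smul, ← star_add, ← map_smul, ← map_add, ← hXd, hX, star_star]
  rw [hB]
  simp only [add_mul, mul_add, smul_mul_assoc, mul_smul_comm]
  rw [e1, e2]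

theorem normal_line {Q : H →L[ℂ] H} (hQ : star Q = Q) (z : ℂ) :
    star (1 + z • Q) * (1 + z • Q) = (1 + z • Q) * star (1 + z • Q) := by
  simp only [star_add, star_one, star_smul, hQ, mul_add, add_mul, one_mul, mul_one,
    smul_mul_assoc, mul_smul_comm, smul_add]
  rw [smul_comm z (star z)]
  abel

theorem Mtr_scalar {l : ℝ} (h0 : 0 ≤ l) (h1 : l ≤ 1 / 2)
    (Φ : (H →L[ℂ] H) →ₗ[ℂ] (H →L[ℂ] H)) (hΦ : Function.Bijective Φ)
    (hc : ∀ T, Φ (Mtr l T) = Mtr l (Φ T)) :
    ∃ c : ℂ, Φ 1 = c • (1 : H →L[ℂ] H) := by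
  refine scalar_of_quasi Φ hΦ fun Q hQ z => ?_
  apply quasi_of_comm
  apply fixM_comm h0 h1
  rw [← hc, Mtr_of_normal h0 (by linarith) (normal_line hQ z)]

end Pool.Agent.Work.MP_11cc5c_an
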