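import Pool.Agent.Work.MP_11cc5c_an.FixM

/-! Uniqueness of preimages of accretive normal operators under the mean-Aluthge transform. -/

set_option linter.unusedSectionVars false

namespace Pool.Agent.Work.MP_11cc5c_an

open ContinuousLinearMap Filter
open scoped NNReal Topology

variable {H : Type*} [NormedAddCommGroup H] [InnerProductSpace ℂ H] [CompleteSpace H]

theorem anticomm_zero {A ρ : H →L[ℂ] H} (hA : IsStrictlyPositive A) (h : A * ρ = -(ρ * A)) :
    ρ = 0 := by
  have hAn : 0 ≤ A := hA.nonneg
  have h1 : Commute (A * A) ρ := by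
    show A * A * ρ = ρ * (A * A)
    rw [mul_assoc, h, mul_neg, ← mul_assoc, h, neg_mul, neg_neg, mul_assoc]
  have h2 : Commute A ρ := by
    have := h1.cfcₙ_nnreal NNReal.sqrt
    have h3 : cfcₙ NNReal.sqrt (A * A) = A := CFC.sqrt_mul_self A hAn
    rwa [h3] at this
  have h4 : A * ρ = 0 := by
    have h5 : A * ρ = -(A * ρ) := by
      calc A * ρ = -(ρ * A) := h
        _ = -(A * ρ) := by rw [h2.eq]
    have h6 : (2 : ℂ) • (A * ρ) = 0 := by
      rw [two_smul]; nth_rw 1 [h5]; simp
    exact (smul_eq_zero.1 h6).resolve_left (by norm_num)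
  obtain ⟨u, hu⟩ := hA.isUnit
  rw [← hu] at h4
  calc ρ = (↑u⁻¹ * ↑u) * ρ := by rw [Units.inv_mul, one_mul]
    _ = ↑u⁻¹ * (↑u * ρ) := by rw [mul_assoc]
    _ = 0 := by rw [h4, mul_zero]

theorem ext_zero_of_inj {W B : H →L[ℂ] H} (hW : ∀ x, W x = 0 → x = 0) (h : W * B = 0) :
    B = 0 := by
  ext x
  apply hW
  have := congrArg (fun A : H →L[ℂ] H => A x) h
  exact this

theorem unique_mean {N Y : H →L[ℂ] H} (hN : star N * N = N * star N) (hu : IsUnit N)
    (hre : IsStrictlyPositive (N + star N)) (h : meanT Y = N) : Y = N := by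
  obtain ⟨u, hun⟩ := hu
  set Ni : H →L[ℂ] H := ↑u⁻¹ with hNi
  have hN1 : N * Ni = 1 := by rw [← hun, hNi]; exact u.mul_inv
  have hN2 : Ni * N = 1 := by rw [← hun, hNi]; exact u.inv_mul
  have hNinj : ∀ x, N x = 0 → x = 0 := by
    intro x hx
    have := congrArg (fun A : H →L[ℂ] H => A x) hN2
    change Ni (N x) = x at this
    rw [← this, hx, map_zero]
  have hNsinj : ∀ x, star N x = 0 → x = 0 := by
    intro x hx
    have h1 : star Ni * star N = 1 := by rw [← star_mul, hN1, star_one]
    have := congrArg (fun A : H →L[ℂ] H => A x) h1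
    change star Ni (star N x) = x at this
    rw [← this, hx, map_zero]
  set R := CFC.abs Y with hR
  set W := polarPart Y with hW
  have hRn : 0 ≤ R := CFC.abs_nonneg Y
  have hWR : W * R = Y := polarPart_mul_abs Y
  have hWWW : W * star W * W = W := polarPart_pi Y
  have h2 : W * R + R * W = N + N := by
    rw [meanT] at h
    rw [hWR, ← h, ← smul_add, ← two_smul ℂ (Y + CFC.abs Y * polarPart Y), smul_smul]
    norm_num
    rfl
  have hWinj : ∀ x, W x = 0 → x = 0 := by
    intro x hx
    have hRx : R x = 0 := (abs_apply_eq_zero Y x).2 ((polarPart_apply_eq_zero Y x).1 hx)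
    have := congrArg (fun A : H →L[ℂ] H => A x) h2
    change W (R x) + R (W x) = N x + N x at this
    rw [hRx, hx, map_zero, map_zero, add_zero] at this
    apply hNinj
    have h3 : (2 : ℂ) • N x = 0 := by rw [two_smul]; exact this.symm
    exact (smul_eq_zero.1 h3).resolve_left (by norm_num)
  have hWW : star W * W = 1 := by
    have := ext_zero_of_inj hWinj (B := 1 - star W * W)
      (by rw [mul_sub, mul_one, ← mul_assoc, hWWW, sub_self])
    exact (sub_eq_zero.1 this).symm
  set M := star W * N with hM
  have hMM : M = (1 / 2 : ℝ) • (R + star W * R * W) := by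
    have h3 : M + M = R + star W * R * W := by
      rw [hM, ← mul_add, ← h2, mul_add, ← mul_assoc, hWW, one_mul, mul_assoc]
    rw [← h3, ← two_smul ℝ M, smul_smul]; norm_num
  have hMn : 0 ≤ M := by
    rw [hMM]
    exact smul_nonneg (by norm_num) (add_nonneg hRn (star_left_conjugate_nonneg hRn W))
  have hMs : star N * W = M := by
    have := hMn.star_eq
    rw [hM, star_mul, star_star] at this
    exact this
  have hWsinj : ∀ x, star W x = 0 → x = 0 := by
    intro x hx
    have h3 : x = N (Ni x) := by
      have := congrArg (fun A : H →L[ℂ] H => A x) hN1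
      exact this.symm
    have h4 : star N (W (Ni x)) = 0 := by
      have h5 : star N (W (Ni x)) = M (Ni x) := congrArg (fun A : H →L[ℂ] H => A (Ni x)) hMs
      have h6 : M (Ni x) = star W (N (Ni x)) := rfl
      rw [h5, h6, ← h3, hx]
    have h7 : Ni x = 0 := hWinj _ (hNsinj _ h4)
    rw [h3, h7, map_zero]
  have hWWs : W * star W = 1 := by
    have h3 : star W * W * star W = star W := by
      have := congrArg star hWWW
      simpa [star_mul, mul_assoc] using this
    have := ext_zero_of_inj hWsinj (B := 1 - W * star W)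
      (by rw [mul_sub, mul_one, ← mul_assoc, h3, sub_self])
    exact (sub_eq_zero.1 this).symm
  have hNWM : W * M = N := by rw [hM, ← mul_assoc, hWWs, one_mul]
  obtain ⟨p1, p2⟩ := polar_eq (T := N) (V := W) (S := M) hMn hNWM (by rw [hWW, one_mul]) (by
    intro x hx
    have h3 : N x = 0 := by rw [← hNWM, mulA, hx, map_zero]
    rw [hNinj x h3, map_zero])
  have hcomm : Commute M W := by
    have := comm_of_normal hN
    rwa [p1, p2] at this
  have hMst : star M = M := hMn.star_eq
  have hcomm' : Commute M (star W) := by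
    have := congrArg star hcomm.eq
    rw [star_mul M W, star_mul W M, hMst] at this
    exact this.symm
  have hsum : N + star N = (W + star W) * M := by
    rw [add_mul, hNWM, ← hcomm'.eq]
    congr 1
    rw [← hNWM, star_mul, hMst]
  have hMu : IsUnit M := by
    have hWu : IsUnit (star W) := ⟨⟨star W, W, hWW, hWWs⟩, rfl⟩
    exact hWu.mul ⟨u, hun⟩
  have hMsp : IsStrictlyPositive M := ⟨hMn, hMu⟩
  have hMi : M * M ^ (-1 : ℝ) = 1 := by
    have := CFC.rpow_mul_rpow_neg 1 hMsp
    rwa [CFC.rpow_one M hMn] at this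
  have hWre : W + star W = (N + star N) * M ^ (-1 : ℝ) := by
    rw [hsum, mul_assoc, hMi, mul_one]
  have hc3 : Commute (N + star N) (M ^ (-1 : ℝ)) := by
    have : Commute M (N + star N) := by
      rw [hsum]; exact (hcomm.add_right hcomm').mul_right (Commute.refl M)
    exact (comm_rpow this _).symm
  have hWsp : IsStrictlyPositive (W + star W) := by
    rw [hWre]
    exact ⟨hc3.mul_nonneg hre.nonneg CFC.rpow_nonneg,
      hre.isUnit.mul (hMu.cfcRpow (-1) hMn)⟩
  set ρ := R - M with hρ
  have a1 : W * ρ = -(ρ * W) := by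
    have h3 : W * ρ + ρ * W = 0 := by
      have h4 : W * ρ + ρ * W = (W * R + R * W) - (W * M + M * W) := by rw [hρ]; noncomm_ring
      rw [h4, h2, hcomm.eq, hNWM, sub_self]
    exact eq_neg_of_add_eq_zero_left h3
  have a2 : star W * ρ = -(ρ * star W) := by
    have h3 : star W * (W * ρ) * star W = star W * (-(ρ * W)) * star W := by rw [a1]
    have h4 : star W * (W * ρ) * star W = ρ * star W := by
      rw [← mul_assoc, hWW, one_mul]
    have h5 : star W * (-(ρ * W)) * star W = -(star W * ρ) := by
      calc star W * (-(ρ * W)) * star W = -(star W * ρ * (W * star W)) := by noncomm_ring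
        _ = _ := by rw [hWWs, mul_one]
    rw [h4, h5] at h3
    rw [h3, neg_neg]
  have hρ0 : ρ = 0 := by
    apply anticomm_zero hWsp
    rw [add_mul, a1, a2, mul_add, neg_add]
  have hRM : R = M := sub_eq_zero.1 hρ0
  rw [← hWR, hRM, hNWM]

theorem unique_aluthge {N X : H →L[ℂ] H} (hN : star N * N = N * star N) (hu : IsUnit N)
    (hre : IsStrictlyPositive (N + star N)) (h : aluthge (1 / 2) X = N) : X = N := by
  obtain ⟨u, hun⟩ := hu
  set Ni : H →L[ℂ] H := ↑u⁻¹ with hNi
  have hN1 : N * Ni = 1 := by rw [← hun, hNi]; exact u.mul_inv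
  have hN2 : Ni * N = 1 := by rw [← hun, hNi]; exact u.inv_mul
  set S := CFC.abs X with hS
  set V := polarPart X with hV
  set Z := S ^ (1 / 2 : ℝ) with hZ
  have hSn : 0 ≤ S := CFC.abs_nonneg X
  have hZs : star Z = Z := star_rpow S _
  have hZZ : Z * Z = S := by
    have := rpow_mul_rpow_sub hSn (a := 1 / 2) (by norm_num) (by norm_num)
    rwa [show (1 : ℝ) - 1 / 2 = 1 / 2 by norm_num] at this
  have h0 : Z * V * Z = N := by
    rw [aluthge, show (1 : ℝ) - 1 / 2 = 1 / 2 by norm_num] at h
    exact h
  -- `Z` is invertible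
  have hZr : Z * (V * Z * Ni) = 1 := by
    calc Z * (V * Z * Ni) = (Z * V * Z) * Ni := by noncomm_ring
      _ = 1 := by rw [h0, hN1]
  have hZl : (Ni * Z * V) * Z = 1 := by
    calc (Ni * Z * V) * Z = Ni * (Z * V * Z) := by noncomm_ring
      _ = 1 := by rw [h0, hN2]
  set Zi := V * Z * Ni with hZi
  have hZi1 : Z * Zi = 1 := hZr
  have hZi2 : Zi * Z = 1 := by
    have := left_inv_eq_right_inv hZl hZr
    rw [← this]; exact hZl
  have hZis : star Zi = Zi := by
    have h1 : star Zi * Z = 1 := by
      have := congrArg star hZi1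
      rwa [star_mul, hZs, star_one] at this
    exact left_inv_eq_right_inv h1 hZi1
  have hVeq : V = Zi * N * Zi := by
    rw [← h0]
    calc V = (Zi * Z) * V * (Z * Zi) := by rw [hZi1, hZi2]; simp
      _ = _ := by noncomm_ring
  have hZu : IsUnit Z := ⟨⟨Z, Zi, hZi1, hZi2⟩, rfl⟩
  have hZiu : IsUnit Zi := ⟨⟨Zi, Z, hZi2, hZi1⟩, rfl⟩
  have hVu : IsUnit V := by rw [hVeq]; exact (hZiu.mul ⟨u, hun⟩).mul hZiu
  have hVVV : V * star V * V = V := polarPart_pi X
  have hVVs : V * star V = 1 := by
    have h1 : (V * star V) * V = 1 * V := by rw [hVVV, one_mul]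
    exact hVu.mul_right_cancel h1
  have hVsV : star V * V = 1 := by
    have h1 : V * (star V * V) = V * 1 := by rw [← mul_assoc, hVVV, mul_one]
    exact hVu.mul_left_cancel h1
  have hnorm : star V * S * V = V * S * star V := by
    have h1 : star N * N = Z * (star V * S * V) * Z := by
      rw [← h0, ← hZZ]; simp only [star_mul, hZs]; noncomm_ring
    have h2 : N * star N = Z * (V * S * star V) * Z := by
      rw [← h0, ← hZZ]; simp only [star_mul, hZs]; noncomm_ring
    rw [hN, h2] at h1
    have h3 := hZu.mul_left_cancel (hZu.mul_right_cancel h1)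
    exact h3.symm
  have hSVV : S * V * V = V * V * S := by
    have h1 : V * (star V * S * V) * V = V * (V * S * star V) * V := by rw [hnorm]
    calc S * V * V = (V * star V) * S * V * V := by rw [hVVs, one_mul]
      _ = V * (star V * S * V) * V := by noncomm_ring
      _ = V * (V * S * star V) * V := h1
      _ = V * V * S * (star V * V) := by noncomm_ring
      _ = V * V * S := by rw [hVsV, mul_one]
  set c := S * V - V * S with hc
  have a1 : V * c = -(c * V) := by
    have : V * c + c * V = 0 := by
      have h4 : V * c + c * V = S * V * V - V * V * S := by rw [hc]; noncomm_ring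
      rw [h4, hSVV, sub_self]
    exact eq_neg_of_add_eq_zero_left this
  have a2 : star V * c = -(c * star V) := by
    have h3 : star V * (V * c) * star V = star V * (-(c * V)) * star V := by rw [a1]
    have h4 : star V * (V * c) * star V = c * star V := by
      rw [← mul_assoc, hVsV, one_mul]
    have h5 : star V * (-(c * V)) * star V = -(star V * c) := by
      calc star V * (-(c * V)) * star V = -(star V * c * (V * star V)) := by noncomm_ring
        _ = _ := by rw [hVVs, mul_one]
    rw [h4, h5] at h3
    rw [h3, neg_neg]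
  have hVre : V + star V = star Zi * (N + star N) * Zi := by
    have : star V = Zi * star N * Zi := by
      nth_rw 1 [hVeq]; simp only [star_mul, hZis, mul_assoc]
    rw [this, hZis, mul_add, add_mul, ← hVeq]
  have hVsp : IsStrictlyPositive (V + star V) := by
    refine ⟨?_, ?_⟩
    · rw [hVre]; exact star_left_conjugate_nonneg hre.nonneg Zi
    · rw [hVre, hZis]; exact (hZiu.mul hre.isUnit).mul hZiu
  have hc0 : c = 0 := by
    apply anticomm_zero hVsp
    rw [add_mul, a1, a2, mul_add, neg_add]
  have hcomm : Commute S V := sub_eq_zero.1 hc0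
  rw [← h, aluthge_of_comm (by norm_num) (by norm_num) hcomm]

theorem unique_meanAluthge {N X : H →L[ℂ] H} (hN : star N * N = N * star N) (hu : IsUnit N)
    (hre : IsStrictlyPositive (N + star N)) (h : meanAluthge X = N) : X = N :=
  unique_aluthge hN hu hre (unique_mean hN hu hre h)

end Pool.Agent.Work.MP_11cc5c_an
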