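import Pool.Agent.Work.MP_11cc5c_an.ClaimB
import Pool.Agent.Work.MP_11cc5c_an.Unique
import Pool.Agent.Work.MP_11cc5c_an.ScalarM
import Pool.Agent.Work.MP_11cc5c_an.Expansion

/-! If `Φ` commutes with the mean-Aluthge transform then `Φ 1` is a scalar. -/

set_option linter.unusedSectionVars false

namespace Pool.Agent.Work.MP_11cc5c_an

open ContinuousLinearMap Filter
open scoped NNReal Topology

variable {H : Type*} [NormedAddCommGroup H] [InnerProductSpace ℂ H] [CompleteSpace H]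

theorem extract_normal {M : Type*} [AddCommGroup M] [Module ℂ M] {c00 c10 c01 c11 : M}
    (h : ∀ z : ℂ, ‖z‖ ≤ 1 → c00 + z • c10 + (star z) • c01 + (z * star z) • c11 = 0) :
    c10 = 0 := by
  have h1 := h 1 (by simp)
  have h2 := h (-1) (by simp)
  have h3 := h Complex.I (by simp)
  have h4 := h (-Complex.I) (by simp)
  have hI : Complex.I * Complex.I = -1 := Complex.I_mul_I
  simp only [star_neg, star_one, Complex.star_def, Complex.conj_I, one_smul, neg_smul,
    neg_mul, mul_neg, neg_neg, mul_one, hI] at h1 h2 h3 h4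
  have key : (4 : ℂ) • c10 = 0 := by
    have e : (4 : ℂ) • c10 = (c00 + c10 + c01 + c11) -
     (c00 + -c10 + -c01 + c11) -
     Complex.I • (c00 + Complex.I • c10 + -(Complex.I • c01) + c11)
     + Complex.I • (c00 + -(Complex.I • c10) + Complex.I • c01 + c11) := by
      simp only [smul_add, smul_neg, smul_smul, hI]
      module
    rw [e, h1, h2, h3, h4]; simp
  exact (smul_eq_zero.1 key).resolve_left (by norm_num)

theorem comm_of_normal_line {a q : H →L[ℂ] H}
    (h : ∀ z : ℂ, ‖z‖ ≤ 1 → star (a + z • q) * (a + z • q) = (a + z • q) * star (a + z • q)) :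
    star a * q = q * star a := by
  have key : ∀ z : ℂ, ‖z‖ ≤ 1 → (star a * a - a * star a) + z • (star a * q - q * star a)
      + (star z) • (star q * a - a * star q) + (z * star z) • (star q * q - q * star q) = 0 := by
    intro z hz
    rw [← sub_eq_zero.2 (h z hz)]
    simp only [star_add, star_smul, mul_add, add_mul, smul_mul_assoc, mul_smul_comm, smul_smul,
      smul_add]
    module
  exact sub_eq_zero.1 (extract_normal key)

theorem strictPos_one_add {W : H →L[ℂ] H} (hs : star W = W) (hW : ‖W‖ ≤ 1 / 2) :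
    IsStrictlyPositive (1 + W) := by
  refine ⟨?_, isUnit_near (by linarith)⟩
  have h1 : -(algebraMap ℝ (H →L[ℂ] H) ‖W‖) ≤ W :=
    IsSelfAdjoint.neg_algebraMap_norm_le_self hs
  have h2 : algebraMap ℝ (H →L[ℂ] H) ‖W‖ ≤ algebraMap ℝ (H →L[ℂ] H) 1 :=
    algebraMap_mono _ (by linarith)
  rw [map_one] at h2
  have h3 : -(1 : H →L[ℂ] H) ≤ W := (neg_le_neg h2).trans h1
  rw [add_comm]
  exact neg_le_iff_add_nonneg.1 h3

theorem accretive_line {Q : H →L[ℂ] H} (hQ : star Q = Q) (hn : ‖Q‖ ≤ 1 / 4) {z : ℂ}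
    (hz : ‖z‖ ≤ 1) : IsStrictlyPositive ((1 + z • Q) + star (1 + z • Q)) := by
  have h1 : (1 + z • Q) + star (1 + z • Q)
      = (2 : ℝ) • (1 + (1 / 2 : ℝ) • (z • Q + star z • Q)) := by
    rw [star_add, star_one, star_smul, hQ, smul_add, smul_smul]
    have : (2 : ℝ) • (1 : H →L[ℂ] H) = 1 + 1 := two_smul _ _
    rw [this, show (2 : ℝ) * (1 / 2) = 1 by norm_num, one_smul]; abel
  set W := (1 / 2 : ℝ) • (z • Q + star z • Q) with hW
  have hWs : star W = W := by
    rw [hW, star_smul, star_add, star_smul, star_smul, hQ, star_star, add_comm]; rfl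
  have hWn : ‖W‖ ≤ 1 / 2 := by
    rw [hW, norm_smul]
    have h2 : ‖z • Q + star z • Q‖ ≤ 1 / 2 := by
      calc ‖z • Q + star z • Q‖ ≤ ‖z • Q‖ + ‖star z • Q‖ := norm_add_le _ _
        _ = ‖z‖ * ‖Q‖ + ‖z‖ * ‖Q‖ := by rw [norm_smul, norm_smul, norm_star]
        _ ≤ 1 * (1 / 4) + 1 * (1 / 4) := by gcongr
        _ = 1 / 2 := by norm_num
    have h3 : ‖(1 / 2 : ℝ)‖ = 1 / 2 := by norm_num
    rw [h3]; linarith
  have h2 := strictPos_one_add hWs hWn
  rw [h1]
  refine ⟨smul_nonneg (by norm_num) h2.nonneg, ?_⟩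
  rw [Algebra.smul_def]
  exact ((IsUnit.mk0 (2 : ℝ) (by norm_num)).map (algebraMap ℝ (H →L[ℂ] H))).mul h2.isUnit

theorem meanAluthge_scalar (Φ : (H →L[ℂ] H) →ₗ[ℂ] (H →L[ℂ] H)) (hΦ : Function.Bijective Φ)
    (hc : ∀ T, Φ (meanAluthge T) = meanAluthge (Φ T)) :
    ∃ c : ℂ, Φ 1 = c • (1 : H →L[ℂ] H) := by
  have h1 : ∀ Q : H →L[ℂ] H, star Q = Q → ‖Q‖ ≤ 1 / 4 →
      star (Φ 1) * Φ Q = Φ Q * star (Φ 1) := by
    intro Q hQ hn
    apply comm_of_normal_line
    intro z hz
    rw [← map_smul, ← map_add]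
    have hnl := normal_line hQ z
    have hfix : meanAluthge (Φ (1 + z • Q)) = Φ (1 + z • Q) := by
      rw [← hc, meanAluthge_of_normal hnl]
    apply fixD_normal hfix
    apply polar_normal_of_unique hfix
    intro X hX
    obtain ⟨X0, rfl⟩ := hΦ.2 X
    rw [← hc] at hX
    have h2 := hΦ.1 hX
    rw [unique_meanAluthge hnl (isUnit_near ?_) (accretive_line hQ hn hz) h2]
    rw [norm_smul]
    calc ‖z‖ * ‖Q‖ ≤ 1 * (1 / 4) := by gcongr
      _ < 1 := by norm_num
  have h2 : ∀ Q : H →L[ℂ] H, star Q = Q → star (Φ 1) * Φ Q = Φ Q * star (Φ 1) := by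
    intro Q hQ
    set r : ℝ := 1 / (4 * (‖Q‖ + 1)) with hr
    have hr0 : 0 < r := by positivity
    have h3 := h1 ((r : ℂ) • Q) (by rw [star_smul, hQ]; simp) (by
      rw [norm_smul, Complex.norm_real, Real.norm_eq_abs, abs_of_pos hr0, hr, div_mul_eq_mul_div,
        one_mul, div_le_iff₀ (by positivity)]
      linarith [norm_nonneg Q])
    rw [map_smul, mul_smul_comm, smul_mul_assoc] at h3
    exact smul_right_injective _ (by exact_mod_cast hr0.ne' : (r : ℂ) ≠ 0) h3
  have h3 : ∀ B : H →L[ℂ] H, star (Φ 1) * B = B * star (Φ 1) := by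
    intro B
    obtain ⟨X, rfl⟩ := hΦ.2 B
    have hXd : X = (realPart X : H →L[ℂ] H) + Complex.I • (imaginaryPart X : H →L[ℂ] H) :=
      (realPart_add_I_smul_imaginaryPart X).symm
    have e1 := h2 _ (show star (realPart X : H →L[ℂ] H) = realPart X from (realPart X).2)
    have e2 := h2 _ (show star (imaginaryPart X : H →L[ℂ] H) = imaginaryPart X from
      (imaginaryPart X).2)
    rw [hXd, map_add, map_smul, mul_add, add_mul, mul_smul_comm, smul_mul_assoc, e1, e2]
  obtain ⟨c, hcc⟩ := scalar_of_comm (J := star (Φ 1)) (fun B => by rw [h3 B])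
  refine ⟨star c, ?_⟩
  have := congrArg star hcc
  rwa [star_star, star_smul, star_one] at this

end Pool.Agent.Work.MP_11cc5c_an
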