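import Pool.Agent.Work.MP_11cc5c_an.RankPres

/-! The structure of unital linear bijections commuting with a good transform on operators of
finite rank. -/

set_option linter.unusedSectionVars false

namespace Pool.Agent.Work.MP_11cc5c_an

open ContinuousLinearMap Filter
open scoped NNReal Topology ComplexConjugate

variable {H : Type*} [NormedAddCommGroup H] [InnerProductSpace ℂ H] [CompleteSpace H]

/-- If a sum of two rank one operators has rank one, they share a row or a column. -/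
theorem rk_dichotomy {a b p q x y : H} (ha : a ≠ 0) (hb : b ≠ 0) (hq : q ≠ 0)
    (h : rk a b + rk p q = rk x y) : (∃ c : ℂ, p = c • a) ∨ (∃ c : ℂ, q = c • b) := by
  by_cases hqb : ∃ c : ℂ, q = c • b
  · exact Or.inr hqb
  left
  have hbq : ¬ ∃ c : ℂ, b = c • q := by
    rintro ⟨c, hc⟩
    have hc0 : c ≠ 0 := by rintro rfl; rw [zero_smul] at hc; exact hb hc
    exact hqb ⟨c⁻¹, by rw [hc, smul_smul, inv_mul_cancel₀ hc0, one_smul]⟩
  -- a vector orthogonal to `b` but not to `q`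
  have aux : ∀ b q : H, b ≠ 0 → (¬ ∃ c : ℂ, q = c • b) →
      ∃ z, inner ℂ b z = 0 ∧ inner ℂ q z ≠ 0 := by
    intro b q hb hqb
    have hbb : (inner ℂ b b : ℂ) ≠ 0 := inner_self_ne_zero.mpr hb
    set c : ℂ := inner ℂ b q / inner ℂ b b with hc
    refine ⟨q - c • b, ?_, ?_⟩
    · rw [inner_sub_right, inner_smul_right, hc, div_mul_cancel₀ _ hbb, sub_self]
    · have h1 : inner ℂ (c • b) (q - c • b) = 0 := by
        rw [inner_smul_left, inner_sub_right, inner_smul_right, hc, div_mul_cancel₀ _ hbb,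
          sub_self, mul_zero]
      have h2 : inner ℂ q (q - c • b) = inner ℂ (q - c • b) (q - c • b) := by
        rw [inner_sub_left (q) (c • b), h1, sub_zero]
      rw [h2]
      intro h0
      rw [inner_self_eq_zero] at h0
      exact hqb ⟨c, sub_eq_zero.1 h0⟩
  obtain ⟨z, hz1, hz2⟩ := aux b q hb hqb
  obtain ⟨w, hw1, hw2⟩ := aux q b hq hbq
  have e1 : inner ℂ q z • p = inner ℂ y z • x := by
    have := congrArg (fun A : H →L[ℂ] H => A z) h
    change inner ℂ b z • a + inner ℂ q z • p = inner ℂ y z • x at this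
    rwa [hz1, zero_smul, zero_add] at this
  have e2 : inner ℂ b w • a = inner ℂ y w • x := by
    have := congrArg (fun A : H →L[ℂ] H => A w) h
    change inner ℂ b w • a + inner ℂ q w • p = inner ℂ y w • x at this
    rwa [hw1, zero_smul, add_zero] at this
  have hyw : (inner ℂ y w : ℂ) ≠ 0 := by
    intro h0
    rw [h0, zero_smul] at e2
    rcases smul_eq_zero.1 e2 with h | h
    · exact hw2 h
    · exact ha h
  have hx : x = (inner ℂ b w / inner ℂ y w : ℂ) • a := by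
    rw [div_eq_inv_mul, mul_smul, e2, smul_smul, inv_mul_cancel₀ hyw, one_smul]
  refine ⟨(inner ℂ q z : ℂ)⁻¹ * (inner ℂ y z * (inner ℂ b w / inner ℂ y w)), ?_⟩
  rw [mul_smul, mul_smul, ← hx, ← e1, smul_smul, inv_mul_cancel₀ hz2, one_smul]

/-- A finite-dimensional star subalgebra containing given rank one operators. -/
def finSet (v : Fin 3 → H) : Set (H →L[ℂ] H) :=
  insert 1 (Set.range fun p : Fin 3 × Fin 3 => rk (v p.1) (v p.2))

instance (v : Fin 3 → H) : FiniteDimensional ℂ (Submodule.span ℂ (finSet v)) :=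
  FiniteDimensional.span_of_finite ℂ ((Set.finite_range _).insert _)

theorem mem_finSet (v : Fin 3 → H) (i j : Fin 3) : rk (v i) (v j) ∈ Submodule.span ℂ (finSet v) :=
  Submodule.subset_span (Or.inr ⟨(i, j), rfl⟩)

theorem finSet_isSub (v : Fin 3 → H) : IsSub (Submodule.span ℂ (finSet v)) := by
  have m1 : (1 : H →L[ℂ] H) ∈ Submodule.span ℂ (finSet v) :=
    Submodule.subset_span (Or.inl rfl)
  refine ⟨m1, span_mul_closed ?_, span_star_closed ?_⟩
  · rintro a (rfl | ⟨⟨i, j⟩, rfl⟩) b (rfl | ⟨⟨k, l⟩, rfl⟩)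
    · rw [one_mul]; exact m1
    · rw [one_mul]; exact mem_finSet v k l
    · rw [mul_one]; exact mem_finSet v i j
    · show rk (v i) (v j) * rk (v k) (v l) ∈ _
      rw [rk_rk]; exact Submodule.smul_mem _ _ (mem_finSet v i l)
  · rintro a (rfl | ⟨⟨i, j⟩, rfl⟩)
    · rw [star_one]; exact m1
    · show star (rk (v i) (v j)) ∈ _
      rw [rk_star]; exact mem_finSet v j i

section

variable {Λ : (H →L[ℂ] H) → (H →L[ℂ] H)} (hΛ : Good Λ)
  {e : (H →L[ℂ] H) ≃ₗ[ℂ] (H →L[ℂ] H)} (he : Adm Λ e)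

include hΛ he

theorem Adm.rank_one' {x y : H} (hy : ‖y‖ = 1) (hxy : inner ℂ x y = 0) :
    ∃ x' y' : H, ‖x'‖ = ‖x‖ ∧ ‖y'‖ = 1 ∧ inner ℂ x' y' = 0 ∧ e (rk x y) = rk x' y' := by
  by_cases hx : x = 0
  · refine ⟨0, y, by rw [hx], hy, inner_zero_left _, ?_⟩
    rw [hx, rk_zero_left, map_zero]
  have hxn : (‖x‖ : ℂ) ≠ 0 := by simpa using hx
  set u : H := ((‖x‖ : ℂ)⁻¹) • x with hu
  have hun : ‖u‖ = 1 := by
    rw [hu, norm_smul, norm_inv, Complex.norm_real, Real.norm_eq_abs, abs_norm]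
    exact inv_mul_cancel₀ (norm_ne_zero_iff.2 hx)
  have hxu : x = (‖x‖ : ℂ) • u := by rw [hu, smul_smul, mul_inv_cancel₀ hxn, one_smul]
  have huy : inner ℂ u y = 0 := by rw [hu, inner_smul_left, hxy, mul_zero]
  obtain ⟨x', y', h1, h2, h3, h4⟩ := Adm.rank_one hΛ he hun hy huy
  refine ⟨(‖x‖ : ℂ) • x', y', ?_, h2, ?_, ?_⟩
  · rw [norm_smul, h1, mul_one]; simp
  · rw [inner_smul_left, h3, mul_zero]
  · nth_rw 1 [hxu]
    rw [rk_smul_left, map_smul, h4, rk_smul_left]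

theorem Adm.norm_rk {x y : H} (hy : ‖y‖ = 1) (hxy : inner ℂ x y = 0) :
    ‖e (rk x y)‖ = ‖x‖ := by
  obtain ⟨x', y', h1, h2, h3, h4⟩ := Adm.rank_one' hΛ he hy hxy
  rw [h4, MP_11cc5c_an.norm_rk, h1, h2, mul_one]

theorem norm_sq_comb {v w : H} (hv : ‖v‖ = 1) (hw : ‖w‖ = 1) (hvw : inner ℂ v w = 0) {ω : ℂ}
    (hω : ‖ω‖ = 1) : ‖v + ω • w‖ ^ 2 = 2 := by
  have h := norm_add_sq (𝕜 := ℂ) v (ω • w)
  rw [inner_smul_right, hvw, mul_zero, norm_smul, hω, hv, hw] at h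
  rw [h]; norm_num

theorem Adm.col_unit {x₀ v₀ p₀ q₀ v : H} (hx₀ : ‖x₀‖ = 1) (hv₀ : ‖v₀‖ = 1) (hp₀ : ‖p₀‖ = 1)
    (hq₀ : ‖q₀‖ = 1) (hv : ‖v‖ = 1) (h0 : inner ℂ v₀ x₀ = 0) (h1 : inner ℂ v x₀ = 0)
    (h2 : inner ℂ v₀ v = 0) (hpq : inner ℂ p₀ q₀ = 0) (he₀ : e (rk v₀ x₀) = rk p₀ q₀) :
    ∃ a, e (rk v x₀) = rk a q₀ := by
  obtain ⟨a, b, ha, hb, hab, heab⟩ := Adm.rank_one hΛ he hv hx₀ h1
  have hsum0 : inner ℂ (v + v₀) x₀ = 0 := by rw [inner_add_left, h1, h0, add_zero]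
  obtain ⟨x', y', -, -, -, hxy⟩ := Adm.rank_one' hΛ he hx₀ hsum0
  rw [rk_add_left, map_add, heab, he₀] at hxy
  have ne : ∀ z : H, ‖z‖ = 1 → z ≠ 0 := by
    rintro z hz rfl; rw [norm_zero] at hz; exact zero_ne_one hz
  rcases rk_dichotomy (ne a ha) (ne b hb) (ne q₀ hq₀) hxy with ⟨c, hc⟩ | ⟨c, hc⟩
  · exfalso
    have hcn : ‖c‖ = 1 := by
      rw [hc, norm_smul, ha, mul_one] at hp₀; exact hp₀
    obtain ⟨q, hq⟩ : ∃ q : H, q = conj c • q₀ := ⟨_, rfl⟩
    have hqn : ‖q‖ = 1 := by rw [hq, norm_smul, hq₀, mul_one, RCLike.norm_conj, hcn]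
    have he₀' : e (rk v₀ x₀) = rk a q := by
      rw [he₀, hc, hq, rk_smul_left, rk_smul_right, RCLike.conj_conj]
    -- orthogonality of `b` and `q`
    have hn : ∀ ω : ℂ, ‖ω‖ = 1 → RCLike.re (inner ℂ b (conj ω • q)) = (0 : ℝ) := by
      intro ω hω
      have k1 : e (rk (v + ω • v₀) x₀) = rk a (b + conj ω • q) := by
        rw [rk_add_left, map_add, rk_smul_left, map_smul, heab, he₀', rk_add_right,
          rk_smul_right, RCLike.conj_conj]
      have k2 : inner ℂ (v + ω • v₀) x₀ = 0 := by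
        rw [inner_add_left, inner_smul_left, h1, h0, mul_zero, add_zero]
      have k3 := Adm.norm_rk hΛ he hx₀ k2
      rw [k1, MP_11cc5c_an.norm_rk, ha, one_mul] at k3
      have k4 := norm_sq_comb hΛ he hv hv₀ (inner_eq_zero_symm.1 h2) hω
      have k5 := norm_add_sq (𝕜 := ℂ) b (conj ω • q)
      rw [k3, k4, norm_smul, RCLike.norm_conj, hω, hb, hqn] at k5
      linarith
    have hbq : inner ℂ b q = 0 := by
      have r1 := hn 1 (by simp)
      have r2 := hn Complex.I (by simp)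
      rw [map_one, one_smul] at r1
      rw [inner_smul_right, Complex.conj_I] at r2
      apply Complex.ext
      · exact r1
      · have : RCLike.re (-Complex.I * inner ℂ b q) = (inner ℂ b q : ℂ).im := by
          simp
        rw [this] at r2
        exact r2
    have haq : inner ℂ a q = 0 := by
      have h3 : a = (conj c) • p₀ := by
        rw [hc, smul_smul, RCLike.conj_mul, hcn]; simp
      rw [h3, hq, inner_smul_left, inner_smul_right, hpq, mul_zero, mul_zero]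
    -- the bracket
    have hbr := Adm.br hΛ he (finSet_isSub ![v, v₀, x₀]) (mem_finSet ![v, v₀, x₀] 0 2)
      (mem_finSet ![v, v₀, x₀] 1 2)
    change e (MP_11cc5c_an.br (rk v x₀) (rk v₀ x₀))
      = MP_11cc5c_an.br (e (rk v x₀)) (e (rk v₀ x₀)) at hbr
    rw [heab, he₀'] at hbr
    simp only [MP_11cc5c_an.br, rk_star, rk_rk, inner_self_one hx₀, inner_self_one ha,
      inner_eq_zero_symm.1 h2, inner_eq_zero_symm.1 hbq, one_smul, zero_smul, sub_zero,
      zero_sub, map_neg] at hbr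
    have hneg : e (rk v₀ v) = rk b (-q) := by
      rw [← neg_neg (e (rk v₀ v)), hbr, ← neg_one_smul ℂ q, rk_smul_right]; simp
    obtain ⟨κ₁, κ₂, hκ, hshift⟩ := hΛ.shift
    have s1 := hshift v₀ v x₀ hv₀ hv hx₀ h2 h1 h0
    have s2 := hshift a b (-q) ha hb (by rw [norm_neg, hqn]) hab
      (by rw [inner_neg_right, hbq, neg_zero]) (by rw [inner_neg_right, haq, neg_zero])
    have s3 := congrArg e s1
    rw [he.comm, map_add, map_add, map_smul, map_smul, heab, hneg, add_comm (rk b (-q)),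
      s2] at s3
    have s4 : (κ₁ - κ₂) • (rk a b - rk b (-q)) = 0 := by
      have : (κ₁ - κ₂) • (rk a b - rk b (-q))
        = (κ₁ • rk a b + κ₂ • rk b (-q)) - (κ₁ • rk b (-q) + κ₂ • rk a b) := by module
      rw [this, s3, sub_self]
    have s5 := (smul_eq_zero.1 s4).resolve_left (sub_ne_zero.2 hκ)
    have s6 := congrArg (fun A : H →L[ℂ] H => A b) s5
    change inner ℂ b b • a - inner ℂ (-q) b • b = 0 at s6
    rw [inner_self_one hb, inner_neg_left, inner_eq_zero_symm.1 hbq, neg_zero, zero_smul,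
      sub_zero, one_smul] at s6
    exact ne a ha s6
  · have hc0 : c ≠ 0 := by
      rintro rfl; rw [zero_smul] at hc; exact ne q₀ hq₀ hc
    refine ⟨conj (c⁻¹) • a, ?_⟩
    have hb' : b = c⁻¹ • q₀ := by rw [hc, smul_smul, inv_mul_cancel₀ hc0, one_smul]
    rw [heab, hb', rk_smul_right, rk_smul_left]

theorem Adm.col {x₀ v₀ p₀ q₀ : H} (hx₀ : ‖x₀‖ = 1) (hv₀ : ‖v₀‖ = 1) (hp₀ : ‖p₀‖ = 1)
    (hq₀ : ‖q₀‖ = 1) (h0 : inner ℂ v₀ x₀ = 0)
    (hpq : inner ℂ p₀ q₀ = 0) (he₀ : e (rk v₀ x₀) = rk p₀ q₀) {v : H}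
    (h1 : inner ℂ v x₀ = 0) :
    e (rk v x₀) = rk (e (rk v x₀) q₀) q₀ := by
  have key : ∃ a, e (rk v x₀) = rk a q₀ := by
    set v' : H := v - inner ℂ v₀ v • v₀ with hv'
    have e1 : v = inner ℂ v₀ v • v₀ + v' := by rw [hv']; abel
    have h2 : inner ℂ v₀ v' = 0 := by
      rw [hv', inner_sub_right, inner_smul_right, inner_self_one hv₀, mul_one, sub_self]
    have h3 : inner ℂ v' x₀ = 0 := by
      rw [hv', inner_sub_left, inner_smul_left, h0, h1, mul_zero, sub_zero]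
    by_cases hz : v' = 0
    · refine ⟨inner ℂ v₀ v • p₀, ?_⟩
      rw [e1, hz, add_zero, rk_smul_left, map_smul, he₀, inner_smul_right, inner_self_one hv₀,
        mul_one, rk_smul_left]
    · have hzn : (‖v'‖ : ℂ) ≠ 0 := by simpa using hz
      set u : H := ((‖v'‖ : ℂ)⁻¹) • v' with hu
      have hun : ‖u‖ = 1 := by
        rw [hu, norm_smul, norm_inv, Complex.norm_real, Real.norm_eq_abs, abs_norm]
        exact inv_mul_cancel₀ (norm_ne_zero_iff.2 hz)
      have hxu : v' = (‖v'‖ : ℂ) • u := by rw [hu, smul_smul, mul_inv_cancel₀ hzn, one_smul]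
      obtain ⟨a, ha⟩ := Adm.col_unit hΛ he hx₀ hv₀ hp₀ hq₀ hun h0
        (by rw [hu, inner_smul_left, h3, mul_zero]) (by rw [hu, inner_smul_right, h2, mul_zero])
        hpq he₀
      refine ⟨inner ℂ v₀ v • p₀ + (‖v'‖ : ℂ) • a, ?_⟩
      nth_rw 1 [e1]
      rw [rk_add_left, map_add, rk_smul_left, map_smul, he₀]
      nth_rw 1 [hxu]
      rw [rk_smul_left, map_smul, ha, rk_add_left, rk_smul_left, rk_smul_left]
  obtain ⟨a, ha⟩ := key
  have : (rk a q₀) q₀ = a := by rw [rk_apply, inner_self_one hq₀, one_smul]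
  rw [ha, this]

theorem Adm.structure {x₀ v₀ : H} (hx₀ : ‖x₀‖ = 1) (hv₀ : ‖v₀‖ = 1)
    (h0 : inner ℂ v₀ x₀ = 0) :
    ∃ (U : H →ₗᵢ[ℂ] H) (δ : H →L[ℂ] H), ∀ a b : H,
      e (rk a b) = rk (U a) (U b) + (inner ℂ b a : ℂ) • δ := by
  obtain ⟨p₀, q₀, hp₀, hq₀, hpq, he₀⟩ := Adm.rank_one hΛ he hv₀ hx₀ h0
  have hcol := fun {v : H} (hv : inner ℂ v x₀ = 0) =>
    Adm.col hΛ he hx₀ hv₀ hp₀ hq₀ h0 hpq he₀ hv
  let pr : H → H := fun v => v - inner ℂ x₀ v • x₀
  have hpr : ∀ v, inner ℂ (pr v) x₀ = 0 := by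
    intro v
    show inner ℂ (v - inner ℂ x₀ v • x₀) x₀ = 0
    rw [inner_sub_left, inner_smul_left, inner_self_one hx₀, mul_one, inner_conj_symm, sub_self]
  have hqA : ∀ v, inner ℂ v x₀ = 0 → inner ℂ (e (rk v x₀) q₀) q₀ = 0 := by
    intro v hv
    have h1 : rk v x₀ * rk v x₀ = 0 := by
      rw [rk_rk, inner_eq_zero_symm.1 hv, zero_smul]
    have h2 := Adm.sq hΛ he h1
    rw [hcol hv, rk_rk] at h2
    rcases smul_eq_zero.1 h2 with h3 | h3
    · exact inner_eq_zero_symm.1 h3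
    · rw [rk_eq_zero] at h3
      rcases h3 with h3 | h3
      · rw [h3, inner_zero_left]
      · rw [h3, inner_zero_right]
  have hnA : ∀ v, inner ℂ v x₀ = 0 → ‖e (rk v x₀) q₀‖ = ‖v‖ := by
    intro v hv
    have h1 := Adm.norm_rk hΛ he hx₀ hv
    rw [hcol hv, MP_11cc5c_an.norm_rk, hq₀, mul_one] at h1
    exact h1
  let U₀ : H →ₗ[ℂ] H :=
    { toFun := fun v => e (rk (v - inner ℂ x₀ v • x₀) x₀) q₀ + inner ℂ x₀ v • q₀
      map_add' := fun v w => by
        rw [inner_add_right, add_smul, add_smul,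
          show v + w - (inner ℂ x₀ v • x₀ + inner ℂ x₀ w • x₀)
            = (v - inner ℂ x₀ v • x₀) + (w - inner ℂ x₀ w • x₀) by abel, rk_add_left, map_add,
          add_apply]
        abel
      map_smul' := fun c v => by
        rw [inner_smul_right, mul_smul, mul_smul, ← smul_sub, rk_smul_left, map_smul,
          smul_apply, RingHom.id_apply, smul_add] }
  have hU₀n : ∀ v, ‖U₀ v‖ = ‖v‖ := by
    intro v
    have h1 : U₀ v = e (rk (pr v) x₀) q₀ + inner ℂ x₀ v • q₀ := rfl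
    have h2 : v = pr v + inner ℂ x₀ v • x₀ := by
      show v = v - inner ℂ x₀ v • x₀ + inner ℂ x₀ v • x₀
      abel
    have h3 := norm_add_sq (𝕜 := ℂ) (e (rk (pr v) x₀) q₀) (inner ℂ x₀ v • q₀)
    rw [inner_smul_right, hqA _ (hpr v), mul_zero, norm_smul, hq₀, hnA _ (hpr v), ← h1] at h3
    have h4 := norm_add_sq (𝕜 := ℂ) (pr v) (inner ℂ x₀ v • x₀)
    rw [inner_smul_right, hpr v, mul_zero, norm_smul, hx₀, ← h2] at h4
    rw [← h4] at h3
    exact (sq_eq_sq₀ (norm_nonneg _) (norm_nonneg _)).1 h3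
  let U : H →ₗᵢ[ℂ] H := ⟨U₀, hU₀n⟩
  have hUperp : ∀ v, inner ℂ v x₀ = 0 → e (rk v x₀) = rk (U v) q₀ := by
    intro v hv
    have h1 : U v = e (rk v x₀) q₀ := by
      show e (rk (v - inner ℂ x₀ v • x₀) x₀) q₀ + inner ℂ x₀ v • q₀ = _
      rw [inner_eq_zero_symm.1 hv, zero_smul, sub_zero, zero_smul, add_zero]
    rw [h1]; exact hcol hv
  have hUx : U x₀ = q₀ := by
    show e (rk (x₀ - inner ℂ x₀ x₀ • x₀) x₀) q₀ + inner ℂ x₀ x₀ • q₀ = _
    rw [inner_self_one hx₀, one_smul, sub_self, rk_zero_left, map_zero, one_smul, zero_apply,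
      zero_add]
  have hUinner : ∀ v w, inner ℂ (U v) (U w) = inner ℂ v w := fun v w => U.inner_map_map v w
  have hUrow : ∀ v, inner ℂ v x₀ = 0 → e (rk x₀ v) = rk q₀ (U v) := by
    intro v hv
    by_cases hz : v = 0
    · rw [hz, rk_zero_right, map_zero, map_zero, rk_zero_right]
    have hzn : (‖v‖ : ℂ) ≠ 0 := by simpa using hz
    obtain ⟨u, hu⟩ : ∃ u : H, u = ((‖v‖ : ℂ)⁻¹) • v := ⟨_, rfl⟩
    have hun : ‖u‖ = 1 := by
      rw [hu, norm_smul, norm_inv, Complex.norm_real, Real.norm_eq_abs, abs_norm]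
      exact inv_mul_cancel₀ (norm_ne_zero_iff.2 hz)
    have hxu : v = (‖v‖ : ℂ) • u := by rw [hu, smul_smul, mul_inv_cancel₀ hzn, one_smul]
    have hux : inner ℂ u x₀ = 0 := by rw [hu, inner_smul_left, hv, mul_zero]
    have h1 := (Adm.spi hΛ he (spi_rk hun hx₀ hux)).2
    rw [rk_star, hUperp u hux, rk_star] at h1
    rw [hxu, rk_smul_right, map_smul, h1, map_smul, rk_smul_right]
  set δ : H →L[ℂ] H := e (rk x₀ x₀) - rk q₀ q₀ with hδ
  have hperp : ∀ v w, inner ℂ v x₀ = 0 → inner ℂ w x₀ = 0 →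
      e (rk w v) = rk (U w) (U v) + (inner ℂ v w : ℂ) • δ := by
    intro v w hv hw
    have hbr := Adm.br hΛ he (finSet_isSub ![v, w, x₀]) (mem_finSet ![v, w, x₀] 0 2)
      (mem_finSet ![v, w, x₀] 1 2)
    change e (MP_11cc5c_an.br (rk v x₀) (rk w x₀))
      = MP_11cc5c_an.br (e (rk v x₀)) (e (rk w x₀)) at hbr
    rw [hUperp v hv, hUperp w hw] at hbr
    simp only [MP_11cc5c_an.br, rk_star, rk_rk, inner_self_one hx₀, inner_self_one hq₀,
      hUinner, one_smul, map_sub, map_smul] at hbr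
    have h2 : e (rk w v) = (inner ℂ v w : ℂ) • e (rk x₀ x₀)
        - ((inner ℂ v w : ℂ) • e (rk x₀ x₀) - e (rk w v)) := by abel
    rw [h2, hbr, hδ, smul_sub]; abel
  refine ⟨U, δ, fun a b => ?_⟩
  set α : ℂ := inner ℂ x₀ a with hα
  set β : ℂ := inner ℂ x₀ b with hβ
  have ha : a = pr a + α • x₀ := by
    show a = a - inner ℂ x₀ a • x₀ + inner ℂ x₀ a • x₀
    abel
  have hb : b = pr b + β • x₀ := by
    show b = b - inner ℂ x₀ b • x₀ + inner ℂ x₀ b • x₀
    abel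
  have hexx : e (rk x₀ x₀) = rk q₀ q₀ + δ := by rw [hδ]; abel
  have hin : (inner ℂ b a : ℂ) = inner ℂ (pr b) (pr a) + conj β * α := by
    nth_rw 1 [ha, hb]
    rw [inner_add_left, inner_add_right, inner_add_right, inner_smul_left, inner_smul_right,
      inner_smul_right, inner_smul_left, hpr b, inner_eq_zero_symm.1 (hpr a),
      inner_self_one hx₀]
    ring
  have hUa : U a = U (pr a) + α • q₀ := by
    nth_rw 1 [ha]; rw [map_add, map_smul, hUx]
  have hUb : U b = U (pr b) + β • q₀ := by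
    nth_rw 1 [hb]; rw [map_add, map_smul, hUx]
  rw [hin, hUa, hUb]
  nth_rw 1 [ha, hb]
  simp only [rk_add_left, rk_add_right, rk_smul_left, rk_smul_right, map_add, map_smul,
    hperp _ _ (hpr b) (hpr a), hUperp _ (hpr a), hUrow _ (hpr b), hexx, smul_add]
  module

end

end Pool.Agent.Work.MP_11cc5c_an
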