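import Pool.Agent.Work.MP_11cc5c_an.Powers

/-! The Aluthge transforms, the mean transform, and their elementary properties. -/

set_option linter.unusedSectionVars false

namespace Pool.Agent.Work.MP_11cc5c_an

open ContinuousLinearMap
open scoped NNReal

variable {H : Type*} [NormedAddCommGroup H] [InnerProductSpace ℂ H] [CompleteSpace H]

/-- The `l`-Aluthge transform `|T|^l V |T|^(1-l)`. -/
noncomputable def aluthge (l : ℝ) (T : H →L[ℂ] H) : H →L[ℂ] H :=
  CFC.abs T ^ l * polarPart T * CFC.abs T ^ (1 - l)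

/-- The mean transform `(T + |T| V) / 2`. -/
noncomputable def meanT (T : H →L[ℂ] H) : H →L[ℂ] H :=
  (1 / 2 : ℂ) • (T + CFC.abs T * polarPart T)

/-- The transform `M_l = (Δ_l + Δ_(1-l)) / 2`. -/
noncomputable def Mtr (l : ℝ) (T : H →L[ℂ] H) : H →L[ℂ] H :=
  (1 / 2 : ℂ) • (aluthge l T + aluthge (1 - l) T)

/-- The mean-Aluthge transform: the mean transform of the Aluthge transform. -/
noncomputable def meanAluthge (T : H →L[ℂ] H) : H →L[ℂ] H := meanT (aluthge (1 / 2) T)

theorem aluthge_eq {T V S : H →L[ℂ] H} (l : ℝ) (hS : 0 ≤ S) (h1 : V * S = T)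
    (h2 : star V * V * S = S) (h3 : ∀ x, S x = 0 → V x = 0) :
    aluthge l T = S ^ l * V * S ^ (1 - l) := by
  obtain ⟨e1, e2⟩ := polar_eq hS h1 h2 h3
  rw [aluthge, e1, e2]

theorem meanT_eq {T V S : H →L[ℂ] H} (hS : 0 ≤ S) (h1 : V * S = T)
    (h2 : star V * V * S = S) (h3 : ∀ x, S x = 0 → V x = 0) :
    meanT T = (1 / 2 : ℂ) • (V * S + S * V) := by
  obtain ⟨e1, e2⟩ := polar_eq hS h1 h2 h3
  rw [meanT, e1, e2, h1]

/-! ### Homogeneity -/

theorem polar_smul (c : ℂ) (hc : c ≠ 0) (T : H →L[ℂ] H) :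
    CFC.abs (c • T) = ‖c‖ • CFC.abs T ∧ polarPart (c • T) = (c / ‖c‖ : ℂ) • polarPart T := by
  have hn : (‖c‖ : ℂ) ≠ 0 := by simpa using hc
  apply polar_eq
  · exact smul_nonneg (norm_nonneg _) (CFC.abs_nonneg T)
  · rw [smul_mul_assoc, mul_smul_comm, polarPart_mul_abs, ← Complex.coe_smul, smul_smul,
      div_mul_cancel₀ _ hn]
  · rw [mul_smul_comm, star_smul, smul_mul_assoc, mul_smul_comm, smul_smul]
    have : star (c / ‖c‖ : ℂ) * (c / ‖c‖ : ℂ) = 1 := by
      have h1 : star (c / ‖c‖ : ℂ) = star c / ‖c‖ := by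
        simp [star_div₀]
      rw [h1, div_mul_div_comm]
      have h2 : star c * c = (‖c‖ : ℂ) * ‖c‖ := by
        have := Complex.conj_mul' c
        rw [Complex.star_def, this, sq]
      rw [h2, div_self (mul_ne_zero hn hn)]
    rw [this, one_smul, polarPart_isSupp]
  · intro x hx
    have : CFC.abs T x = 0 := by
      have h : ‖c‖ • CFC.abs T x = 0 := by simpa using hx
      rcases smul_eq_zero.1 h with h | h
      · exact absurd (norm_eq_zero.1 h) hc
      · exact h
    have h2 : polarPart T x = 0 := by rwa [polarPart_apply_eq_zero, ← abs_apply_eq_zero]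
    simp [h2]

theorem polarPart_zero : polarPart (0 : H →L[ℂ] H) = 0 := by
  ext x; rw [(polarPart_apply_eq_zero 0 x).2 rfl]; rfl

theorem aluthge_smul {l : ℝ} (h0 : 0 ≤ l) (h1 : l ≤ 1) (c : ℂ) (T : H →L[ℂ] H) :
    aluthge l (c • T) = c • aluthge l T := by
  rcases eq_or_ne c 0 with rfl | hc
  · simp [aluthge, polarPart_zero]
  obtain ⟨e1, e2⟩ := polar_smul c hc T
  have hn : 0 < ‖c‖ := norm_pos_iff.2 hc
  rw [aluthge, e1, e2, rpow_smul (CFC.abs_nonneg T) hn h0,
    rpow_smul (CFC.abs_nonneg T) hn (sub_nonneg.2 h1), aluthge]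
  have h2 : ‖c‖ ^ l * ‖c‖ ^ (1 - l) = ‖c‖ := by
    rw [← Real.rpow_add hn, add_sub_cancel, Real.rpow_one]
  simp only [smul_mul_assoc, mul_smul_comm, smul_smul, ← Complex.coe_smul]
  congr 1
  have h3 : (((‖c‖ ^ (1 - l) : ℝ) : ℂ) * ((c / ‖c‖ : ℂ) * ((‖c‖ ^ l : ℝ) : ℂ)))
      = (((‖c‖ ^ l * ‖c‖ ^ (1 - l) : ℝ)) : ℂ) * (c / ‖c‖) := by push_cast; ring
  have hn' : (‖c‖ : ℂ) ≠ 0 := by simpa using hc
  rw [h3, h2, mul_div_cancel₀ _ hn']

theorem meanT_smul (c : ℂ) (T : H →L[ℂ] H) : meanT (c • T) = c • meanT T := by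
  rcases eq_or_ne c 0 with rfl | hc
  · simp [meanT]
  obtain ⟨e1, e2⟩ := polar_smul c hc T
  rw [meanT, e1, e2, meanT]
  have hn : (‖c‖ : ℂ) ≠ 0 := by simpa using hc
  rw [smul_mul_assoc, mul_smul_comm, ← Complex.coe_smul, smul_smul, mul_div_cancel₀ _ hn,
    ← smul_add, smul_comm]

theorem Mtr_smul {l : ℝ} (h0 : 0 ≤ l) (h1 : l ≤ 1) (c : ℂ) (T : H →L[ℂ] H) :
    Mtr l (c • T) = c • Mtr l T := by
  rw [Mtr, aluthge_smul h0 h1, aluthge_smul (sub_nonneg.2 h1) (by linarith), Mtr, ← smul_add,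
    smul_comm]

theorem meanAluthge_smul (c : ℂ) (T : H →L[ℂ] H) :
    meanAluthge (c • T) = c • meanAluthge T := by
  rw [meanAluthge, aluthge_smul (by norm_num) (by norm_num), meanT_smul, meanAluthge]

/-! ### Unitary covariance -/

theorem polar_conj {U : H →L[ℂ] H} (hU : U ∈ unitary (H →L[ℂ] H)) (T : H →L[ℂ] H) :
    CFC.abs (U * T * star U) = U * CFC.abs T * star U ∧
      polarPart (U * T * star U) = U * polarPart T * star U := by
  have hU1 : star U * U = 1 := Unitary.star_mul_self_of_mem hU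
  apply polar_eq
  · exact conj_nonneg (CFC.abs_nonneg T)
  · calc U * polarPart T * star U * (U * CFC.abs T * star U)
        = U * polarPart T * (star U * U) * CFC.abs T * star U := by noncomm_ring
      _ = U * T * star U := by rw [hU1, mul_one, mul_assoc U, polarPart_mul_abs]
  · calc star (U * polarPart T * star U) * (U * polarPart T * star U) * (U * CFC.abs T * star U)
        = U * star (polarPart T) * (star U * U) * polarPart T * (star U * U) * CFC.abs T
            * star U := by simp only [star_mul, star_star]; noncomm_ring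
      _ = U * (star (polarPart T) * polarPart T * CFC.abs T) * star U := by
          rw [hU1, mul_one, mul_one]; noncomm_ring
      _ = _ := by rw [polarPart_isSupp]
  · intro x hx
    have h1 : star U (U (CFC.abs T (star U x))) = 0 := by
      have : (U * CFC.abs T * star U) x = U (CFC.abs T (star U x)) := rfl
      rw [← this, hx, map_zero]
    have h2 : CFC.abs T (star U x) = 0 := by
      have : (star U * U) (CFC.abs T (star U x)) = star U (U (CFC.abs T (star U x))) := rfl
      rw [hU1] at this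
      rw [← h1, ← this]; rfl
    show U (polarPart T (star U x)) = 0
    rw [(polarPart_apply_eq_zero T _).2 ((abs_apply_eq_zero T _).1 h2), map_zero]

theorem aluthge_conj {l : ℝ} (h0 : 0 ≤ l) (h1 : l ≤ 1) {U : H →L[ℂ] H}
    (hU : U ∈ unitary (H →L[ℂ] H)) (T : H →L[ℂ] H) :
    aluthge l (U * T * star U) = U * aluthge l T * star U := by
  obtain ⟨e1, e2⟩ := polar_conj hU T
  have hU1 : star U * U = 1 := Unitary.star_mul_self_of_mem hU
  rw [aluthge, e1, e2, rpow_conj hU (CFC.abs_nonneg T) h0,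
    rpow_conj hU (CFC.abs_nonneg T) (sub_nonneg.2 h1), aluthge]
  calc U * CFC.abs T ^ l * star U * (U * polarPart T * star U) * (U * CFC.abs T ^ (1 - l) * star U)
      = U * CFC.abs T ^ l * (star U * U) * polarPart T * (star U * U) * CFC.abs T ^ (1 - l)
        * star U := by noncomm_ring
    _ = _ := by rw [hU1, mul_one, mul_one]; noncomm_ring

theorem meanT_conj {U : H →L[ℂ] H}
    (hU : U ∈ unitary (H →L[ℂ] H)) (T : H →L[ℂ] H) :
    meanT (U * T * star U) = U * meanT T * star U := by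
  obtain ⟨e1, e2⟩ := polar_conj hU T
  have hU1 : star U * U = 1 := Unitary.star_mul_self_of_mem hU
  rw [meanT, e1, e2, meanT, mul_smul_comm, smul_mul_assoc]
  congr 1
  calc U * T * star U + U * CFC.abs T * star U * (U * polarPart T * star U)
      = U * T * star U + U * CFC.abs T * (star U * U) * polarPart T * star U := by noncomm_ring
    _ = _ := by rw [hU1, mul_one]; noncomm_ring

theorem Mtr_conj {l : ℝ} (h0 : 0 ≤ l) (h1 : l ≤ 1) {U : H →L[ℂ] H}
    (hU : U ∈ unitary (H →L[ℂ] H)) (T : H →L[ℂ] H) :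
    Mtr l (U * T * star U) = U * Mtr l T * star U := by
  rw [Mtr, aluthge_conj h0 h1 hU, aluthge_conj (sub_nonneg.2 h1) (by linarith) hU, Mtr,
    mul_smul_comm, smul_mul_assoc, mul_add, add_mul]

theorem meanAluthge_conj {U : H →L[ℂ] H}
    (hU : U ∈ unitary (H →L[ℂ] H)) (T : H →L[ℂ] H) :
    meanAluthge (U * T * star U) = U * meanAluthge T * star U := by
  rw [meanAluthge, aluthge_conj (by norm_num) (by norm_num) hU, meanT_conj hU, meanAluthge]

/-! ### Normal operators are fixed -/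

theorem commute_polar_of_comm {T : H →L[ℂ] H} (h : Commute (CFC.abs T) T) :
    Commute (CFC.abs T) (polarPart T) := by
  refine cancel_eq (abs_isSA T) ?_ ?_
  · calc CFC.abs T * polarPart T * CFC.abs T = CFC.abs T * T := by
          rw [mul_assoc, polarPart_mul_abs]
      _ = T * CFC.abs T := h
      _ = _ := by nth_rw 1 [← polarPart_mul_abs T]
  · intro x hx
    have h1 : polarPart T x = 0 := by rwa [polarPart_apply_eq_zero, ← abs_apply_eq_zero]
    rw [mulA, mulA, h1, hx, map_zero, map_zero]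

theorem aluthge_of_comm {l : ℝ} (h0 : 0 ≤ l) (h1 : l ≤ 1) {T : H →L[ℂ] H}
    (h : Commute (CFC.abs T) (polarPart T)) : aluthge l T = T := by
  rw [aluthge, (comm_rpow h l).eq, mul_assoc, rpow_mul_rpow_sub (CFC.abs_nonneg T) h0 h1,
    polarPart_mul_abs]

theorem meanT_of_comm {T : H →L[ℂ] H}
    (h : Commute (CFC.abs T) (polarPart T)) : meanT T = T := by
  rw [meanT, h.eq, polarPart_mul_abs, ← two_smul ℂ T, smul_smul]; norm_num

theorem comm_of_normal {T : H →L[ℂ] H} (h : star T * T = T * star T) :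
    Commute (CFC.abs T) (polarPart T) :=
  commute_polar_of_comm (CFC.commute_abs_self T ⟨h⟩)

theorem aluthge_of_normal {l : ℝ} (h0 : 0 ≤ l) (h1 : l ≤ 1) {T : H →L[ℂ] H}
    (h : star T * T = T * star T) : aluthge l T = T := aluthge_of_comm h0 h1 (comm_of_normal h)

theorem meanT_of_normal {T : H →L[ℂ] H}
    (h : star T * T = T * star T) : meanT T = T := meanT_of_comm (comm_of_normal h)

theorem Mtr_of_normal {l : ℝ} (h0 : 0 ≤ l) (h1 : l ≤ 1) {T : H →L[ℂ] H}
    (h : star T * T = T * star T) : Mtr l T = T := by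
  rw [Mtr, aluthge_of_normal h0 h1 h, aluthge_of_normal (sub_nonneg.2 h1) (by linarith) h,
    ← two_smul ℂ T, smul_smul]; norm_num

theorem meanAluthge_of_normal {T : H →L[ℂ] H}
    (h : star T * T = T * star T) : meanAluthge T = T := by
  rw [meanAluthge, aluthge_of_normal (by norm_num) (by norm_num) h, meanT_of_normal h]

/-! ### Endpoints -/

theorem aluthge_zero (T : H →L[ℂ] H) : aluthge 0 T = T := by
  rw [aluthge, CFC.rpow_zero _ (CFC.abs_nonneg T), one_mul, sub_zero,
    CFC.rpow_one _ (CFC.abs_nonneg T), polarPart_mul_abs]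

theorem aluthge_one (T : H →L[ℂ] H) : aluthge 1 T = CFC.abs T * polarPart T := by
  rw [aluthge, sub_self, CFC.rpow_zero _ (CFC.abs_nonneg T), mul_one,
    CFC.rpow_one _ (CFC.abs_nonneg T)]

theorem Mtr_zero (T : H →L[ℂ] H) : Mtr 0 T = meanT T := by
  rw [Mtr, aluthge_zero, sub_zero, aluthge_one, meanT]

theorem Mtr_half (T : H →L[ℂ] H) : Mtr (1 / 2) T = aluthge (1 / 2) T := by
  rw [Mtr, show (1 : ℝ) - 1 / 2 = 1 / 2 by norm_num, ← two_smul ℂ, smul_smul]; norm_num

end Pool.Agent.Work.MP_11cc5c_an
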